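import Mathlib
import Pool.Agent.Lib.MP_4af00a_nt.Harm

/-!
# Expansions modulo powers of a prime: second order
-/

set_option autoImplicit false
set_option linter.unusedSectionVars false

namespace Pool.Agent.Lib.MP_147bb8_ntQ

open Finset Pool.Agent.Lib.MP_4af00a_nt

variable {p : ℕ} [hp : Fact p.Prime]

/-- The generalized harmonic number `∑ i ≤ n, 1 / i ^ s`. -/
def Hs (s n : ℕ) : ℚ := ∑ i ∈ range n, iv (i + 1) ^ s

lemma Hs_zero (s : ℕ) : Hs s 0 = 0 := by simp [Hs]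

lemma Hs_succ (s n : ℕ) : Hs s (n + 1) = Hs s n + iv (n + 1) ^ s := by
  unfold Hs; rw [sum_range_succ]

lemma iv_mul (a b : ℕ) : iv (a * b) = iv a * iv b := by
  unfold iv; push_cast; rw [mul_inv]

lemma D_pow_iv {j : ℕ} (s : ℕ) (h0 : 0 < j) (h : j < p) : D p 0 (iv j ^ s) := by
  induction s with
  | zero => simpa using D_one
  | succ s ih =>
    rw [pow_succ]
    exact D_mul (i := 0) (j := 0) ih (D_iv h0 h)

lemma D_Hs (s : ℕ) {n : ℕ} (hn : n < p) : D p 0 (Hs s n) :=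
  D_sum _ _ fun i hi => D_pow_iv s (by omega) (by have := mem_range.mp hi; omega)

lemma D_pow {x : ℚ} (hx : D p 0 x) (n : ℕ) : D p 0 (x ^ n) := by
  induction n with
  | zero => simpa using D_one
  | succ n ih => rw [pow_succ]; exact D_mul (i := 0) (j := 0) ih hx

lemma D_trans {j : ℕ} {x y z : ℚ} (h1 : D p j (x - y)) (h2 : D p j (y - z)) : D p j (x - z) := by
  have := D_add h1 h2
  rwa [sub_add_sub_cancel] at this

lemma D_symm {j : ℕ} {x y : ℚ} (h : D p j (x - y)) : D p j (y - x) := by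
  have := D_neg h
  rwa [neg_sub] at this

lemma D_mul_congr {j : ℕ} {x x' y y' : ℚ} (hx : D p j (x - x')) (hy : D p j (y - y'))
    (hx0 : D p 0 x') (hy0 : D p 0 y) : D p j (x * y - x' * y') := by
  have h1 := D_mul (i := j) (j := 0) hx hy0
  have h2 := D_mul (i := 0) (j := j) hx0 hy
  rw [Nat.add_zero] at h1
  rw [Nat.zero_add] at h2
  have h3 := D_add h1 h2
  have e : (x - x') * y + x' * (y - y') = x * y - x' * y' := by ring
  rwa [e] at h3

/-- Integrality of a fraction with denominator prime to `p`. -/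
lemma D_div {x : ℚ} {k : ℕ} (hx : D p 0 x) (hk : ¬ p ∣ k) : D p 0 (x / k) := by
  rw [div_eq_mul_inv]
  exact D_mul (i := 0) (j := 0) hx (D_inv hk)

/-- Second order expansions: `x ≡ 1 + p ^ 2 a` modulo `p ^ 4`. -/
def E2 (p : ℕ) [Fact p.Prime] (x a : ℚ) : Prop := D p 0 a ∧ D p 4 (x - 1 - (p : ℚ) ^ 2 * a)

lemma E2_one : E2 p 1 0 := ⟨D_zero 0, by simpa using D_zero 4⟩

lemma E2.toE {x a : ℚ} (h : E2 p x a) : E p x 0 := by
  refine ⟨D_zero 0, ?_⟩
  have h1 : D p 2 (x - 1 - (p : ℚ) ^ 2 * a) := D_mono (by norm_num) h.2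
  have h2 : D p 2 ((p : ℚ) ^ 2 * a) := D_mul (D_p_pow (p := p) 2) h.1
  have h3 := D_add h1 h2
  have e : x - 1 - (p : ℚ) ^ 2 * a + (p : ℚ) ^ 2 * a = x - 1 - p * 0 := by ring
  rwa [e] at h3

lemma E2.sub_one {x a : ℚ} (h : E2 p x a) : D p 2 (x - 1) := by
  have h1 := h.toE.2
  have e : x - 1 - p * 0 = x - 1 := by ring
  rwa [e] at h1

lemma E2_mul {x y a b : ℚ} (hx : E2 p x a) (hy : E2 p y b) : E2 p (x * y) (a + b) := by
  refine ⟨D_add hx.1 hy.1, ?_⟩
  have e : x * y - 1 - (p : ℚ) ^ 2 * (a + b) = (x - 1 - (p : ℚ) ^ 2 * a) * y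
      + (y - 1 - (p : ℚ) ^ 2 * b) + ((p : ℚ) ^ 2 * a) * (y - 1) := by ring
  rw [e]
  have t1 : D p 4 ((x - 1 - (p : ℚ) ^ 2 * a) * y) := D_mul hx.2 hy.toE.int
  have t2 : D p 4 (((p : ℚ) ^ 2 * a) * (y - 1)) := by
    have : D p 2 ((p : ℚ) ^ 2 * a) := D_mul (D_p_pow (p := p) 2) hx.1
    exact D_mul this hy.sub_one
  exact D_add (D_add t1 hy.2) t2

lemma E2_inv {x a : ℚ} (hx : E2 p x a) : E2 p (x⁻¹) (-a) := by
  refine ⟨D_neg hx.1, ?_⟩
  have hx0 := hx.toE.ne_zero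
  have e : x⁻¹ - 1 - (p : ℚ) ^ 2 * (-a) = x⁻¹ * (-(x - 1 - (p : ℚ) ^ 2 * a)
      + ((p : ℚ) ^ 2 * a) * (x - 1)) := by
    field_simp; ring
  rw [e]
  have t2 : D p 4 (((p : ℚ) ^ 2 * a) * (x - 1)) := by
    have : D p 2 ((p : ℚ) ^ 2 * a) := D_mul (D_p_pow (p := p) 2) hx.1
    exact D_mul this hx.sub_one
  have t3 := D_mul hx.toE.int_inv (D_add (D_neg hx.2) t2)
  simpa using t3

lemma E2_pow {x a : ℚ} (hx : E2 p x a) (n : ℕ) : E2 p (x ^ n) (n * a) := by
  induction n with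
  | zero => simpa using E2_one
  | succ n ih =>
    rw [pow_succ]
    have := E2_mul ih hx
    have e : (n : ℚ) * a + a = ((n + 1 : ℕ) : ℚ) * a := by push_cast; ring
    rwa [e] at this

lemma E2_term {y : ℚ} (hy : D p 0 y) : E2 p (1 + (p : ℚ) ^ 2 * y) y := by
  refine ⟨hy, ?_⟩
  have e : 1 + (p : ℚ) ^ 2 * y - 1 - (p : ℚ) ^ 2 * y = 0 := by ring
  rw [e]; exact D_zero 4

/-- Second order expansion of a product. -/
lemma E2_prod (n : ℕ) (y : ℕ → ℚ) (hy : ∀ i < n, D p 0 (y i)) :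
    E2 p (∏ i ∈ range n, (1 + (p : ℚ) ^ 2 * y i)) (∑ i ∈ range n, y i) := by
  induction n with
  | zero => simpa using E2_one
  | succ n ih =>
    rw [prod_range_succ, sum_range_succ]
    exact E2_mul (ih fun i hi => hy i (by omega)) (E2_term (hy n (by omega)))

lemma E_pow {x a : ℚ} (hx : E p x a) (n : ℕ) : E p (x ^ n) (n * a) := by
  induction n with
  | zero => simpa using E_one
  | succ n ih =>
    rw [pow_succ]
    have := E_mul ih hx
    have e : (n : ℚ) * a + a = ((n + 1 : ℕ) : ℚ) * a := by push_cast; ring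
    rwa [e] at this

lemma E_one_add {c : ℚ} (hc : D p 0 c) : E p (1 + p * c) c := by
  refine ⟨hc, ?_⟩
  have e : 1 + (p : ℚ) * c - 1 - p * c = 0 := by ring
  rw [e]; exact D_zero 2

end Pool.Agent.Lib.MP_147bb8_ntQ
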