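import Pool.Agent.Lib.MP_147bb8_ntQ.Base

/-!
# Bernoulli numbers and harmonic sums modulo `p`
-/

set_option autoImplicit false
set_option linter.unusedSectionVars false

namespace Pool.Agent.Lib.MP_147bb8_ntQ

open Finset Pool.Agent.Lib.MP_4af00a_nt

variable {p : ℕ} [hp : Fact p.Prime]

/-- A multiple of `p` is divisible by `p`. -/
lemma Bern1_D_of_dvd {z : ℤ} (h : (p : ℤ) ∣ z) : D p 1 (z : ℚ) := by
  obtain ⟨k, rfl⟩ := h
  push_cast
  exact D_mul (i := 1) (j := 0) D_p (D_int k)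

lemma Bern1_powsum_zmod (e : ℕ) :
    ∑ m ∈ range (p - 1), ((m + 1 : ℕ) : ZMod p) ^ e = if p - 1 ∣ e then -1 else 0 := by
  have h := FiniteField.sum_pow_units (ZMod p) e
  rw [ZMod.card] at h
  rw [← h]
  have hp1 := hp.out.one_lt
  refine Finset.sum_bij' (fun m hm => Units.mk0 ((m + 1 : ℕ) : ZMod p) ?_)
    (fun x _ => (x : ZMod p).val - 1) ?_ ?_ ?_ ?_ ?_
  · intro h0
    rw [ZMod.natCast_eq_zero_iff] at h0
    exact not_dvd_of_lt (by omega) (by have := mem_range.mp hm; omega) h0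
  · intro m hm; exact mem_univ _
  · intro x _
    have h1 := ZMod.val_lt (x : ZMod p)
    have h2 : (x : ZMod p).val ≠ 0 := by
      intro h0
      exact x.ne_zero ((ZMod.val_eq_zero _).mp h0)
    exact mem_range.mpr (by omega)
  · intro m hm
    have := mem_range.mp hm
    simp only [Units.val_mk0]
    rw [ZMod.val_natCast_of_lt (by omega)]
    omega
  · intro x _
    apply Units.ext
    simp only [Units.val_mk0]
    have h2 : (x : ZMod p).val ≠ 0 := by
      intro h0
      exact x.ne_zero ((ZMod.val_eq_zero _).mp h0)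
    rw [show (x : ZMod p).val - 1 + 1 = (x : ZMod p).val by omega]
    exact ZMod.natCast_zmod_val _
  · intro m hm
    simp

/-- Power sums modulo `p`.

PROOF. `∑_{x : (ZMod p)ˣ} x^e = -1` if `p - 1 ∣ e`, `0` otherwise (`FiniteField.sum_pow_units`); the units are the classes of
`1, …, p - 1`. A natural number (or integer) whose class in `ZMod p` is `0` is divisible by `p`, hence `D p 1`
(`D_mul D_p (D_nat _)`). -/
theorem powsum (e : ℕ) :
    D p 1 (∑ m ∈ range (p - 1), ((m + 1 : ℕ) : ℚ) ^ e + if p - 1 ∣ e then 1 else 0) := by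
  have h1 : (p : ℤ) ∣ ((∑ m ∈ range (p - 1), ((m + 1 : ℕ) : ℤ) ^ e)
      + if p - 1 ∣ e then 1 else 0) := by
    rw [← ZMod.intCast_zmod_eq_zero_iff_dvd]
    have h2 := Bern1_powsum_zmod (p := p) e
    by_cases h : p - 1 ∣ e
    · rw [if_pos h] at h2
      rw [if_pos h, Int.cast_add, Int.cast_sum]
      simp only [Int.cast_pow, Int.cast_natCast, Int.cast_one]
      rw [h2]; ring
    · rw [if_neg h] at h2
      rw [if_neg h, Int.cast_add, Int.cast_sum]
      simp only [Int.cast_pow, Int.cast_natCast, Int.cast_zero]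
      rw [h2]; ring
  have h3 := Bern1_D_of_dvd (p := p) h1
  by_cases h : p - 1 ∣ e
  · rw [if_pos h] at h3 ⊢
    rw [Int.cast_add, Int.cast_sum] at h3
    simpa only [Int.cast_pow, Int.cast_natCast, Int.cast_one] using h3
  · rw [if_neg h] at h3 ⊢
    rw [Int.cast_add, Int.cast_sum] at h3
    simpa only [Int.cast_pow, Int.cast_natCast, Int.cast_zero] using h3

/-- `1 / i ^ s ≡ i ^ (p - 1 - s)` modulo `p`.

PROOF. `iv i ^ s - i ^ (p-1-s) = - iv i ^ s * (i ^ (p-1) - 1)` and Fermat (`Int.ModEq.pow_card_sub_one_eq_one`, as in `q_int` of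
`Harm.lean`). -/
theorem iv_pow {i s : ℕ} (h0 : 0 < i) (h : i < p) (hs : s ≤ p - 1) :
    D p 1 (iv i ^ s - (i : ℚ) ^ (p - 1 - s)) := by
  have hf : (p : ℤ) ∣ (i : ℤ) ^ (p - 1) - 1 := by
    rw [← ZMod.intCast_zmod_eq_zero_iff_dvd]
    have h1 : ((i : ℕ) : ZMod p) ≠ 0 := by
      intro h2
      rw [ZMod.natCast_eq_zero_iff] at h2
      exact not_dvd_of_lt h0 h h2
    have h3 := ZMod.pow_card_sub_one_eq_one h1
    push_cast
    rw [h3]; ring
  have h4 := Bern1_D_of_dvd (p := p) hf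
  have h5 := D_mul (i := 0) (j := 1) (D_pow_iv (p := p) s h0 h) (D_neg h4)
  have hi : (i : ℚ) ≠ 0 := by positivity
  have e1 : iv i ^ s * (i : ℚ) ^ (p - 1) = (i : ℚ) ^ (p - 1 - s) := by
    have e2 : (i : ℚ) ^ (p - 1) = (i : ℚ) ^ s * (i : ℚ) ^ (p - 1 - s) := by
      rw [← pow_add]; congr 1; omega
    rw [e2, ← mul_assoc, ← mul_pow]
    unfold iv
    rw [inv_mul_cancel₀ hi, one_pow, one_mul]
  have e3 : iv i ^ s * -(((i : ℤ) ^ (p - 1) - 1 : ℤ) : ℚ) = iv i ^ s - (i : ℚ) ^ (p - 1 - s) := by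
    push_cast
    rw [← e1]; ring
  rw [e3] at h5
  exact h5

/-- `B_j` is `p`-integral for `j + 1 < p`.

PROOF. Strong induction with `sum_bernoulli`: `∑_{k ≤ j} C(j+1,k) B_k = 0` for `j ≥ 1`, so
`(j+1) B_j = - ∑_{k<j} C(j+1,k) B_k`; `j + 1 < p` is a unit (`D_of_mul_unit`). -/
theorem D_bern {j : ℕ} (hj : j + 1 < p) : D p 0 (bernoulli j) := by
  induction j using Nat.strong_induction_on with
  | _ j ih =>
    have h1 := sum_bernoulli (j + 1)
    rw [sum_range_succ] at h1
    have h2 : D p 0 (∑ k ∈ range j, ((j + 1).choose k : ℚ) * bernoulli k) := by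
      refine D_sum _ _ fun k hk => ?_
      have hk' := mem_range.mp hk
      exact D_mul (i := 0) (j := 0) (D_nat _) (ih k hk' (by omega))
    have h3 : D p 0 (if j + 1 = 1 then (1 : ℚ) else 0) := by
      split_ifs
      · exact D_one
      · exact D_zero 0
    have h4 := D_sub h3 h2
    rw [← h1] at h4
    have h5 : D p 0 (((j + 1 : ℕ) : ℚ) * bernoulli j) := by
      have e : (j + 1).choose j = j + 1 := by
        rw [Nat.choose_succ_self_right]
      rw [e] at h4
      rwa [add_sub_cancel_left] at h4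
    exact D_of_mul_unit (not_dvd_of_lt (by omega) hj) h5

/-- The generating function identity behind `two_pow_bern`. -/
lemma Bern1_series :
    PowerSeries.rescale (2 : ℚ) (bernoulliPowerSeries ℚ) * PowerSeries.exp ℚ
      = PowerSeries.C (2 : ℚ) * bernoulliPowerSeries ℚ
        - PowerSeries.rescale (2 : ℚ) (bernoulliPowerSeries ℚ) := by
  have hb := bernoulliPowerSeries_mul_exp_sub_one ℚ
  have hE : PowerSeries.rescale (2 : ℚ) (PowerSeries.exp ℚ) = PowerSeries.exp ℚ ^ 2 := by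
    have := PowerSeries.exp_pow_eq_rescale_exp (A := ℚ) 2
    rw [this]
    norm_num
  have hX : PowerSeries.rescale (2 : ℚ) (PowerSeries.X : PowerSeries ℚ)
      = PowerSeries.C (2 : ℚ) * PowerSeries.X := by
    ext n
    rw [PowerSeries.coeff_rescale, PowerSeries.coeff_C_mul, PowerSeries.coeff_X]
    by_cases h : n = 1
    · rw [if_pos h, h]; norm_num
    · rw [if_neg h]; simp
  have hb2 : PowerSeries.rescale (2 : ℚ) (bernoulliPowerSeries ℚ) * (PowerSeries.exp ℚ ^ 2 - 1)
      = PowerSeries.C (2 : ℚ) * PowerSeries.X := by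
    rw [← hX, ← hb, map_mul, map_sub, map_one, hE]
  have hne : (PowerSeries.exp ℚ ^ 2 - 1 : PowerSeries ℚ) ≠ 0 := by
    intro h0
    rw [h0, mul_zero] at hb2
    have h1 := congrArg (PowerSeries.coeff (R := ℚ) 1) hb2
    rw [PowerSeries.coeff_C_mul, PowerSeries.coeff_one_X] at h1
    simp at h1
  apply mul_right_cancel₀ hne
  have e1 : PowerSeries.rescale (2 : ℚ) (bernoulliPowerSeries ℚ) * PowerSeries.exp ℚ
        * (PowerSeries.exp ℚ ^ 2 - 1)
      = (PowerSeries.rescale (2 : ℚ) (bernoulliPowerSeries ℚ) * (PowerSeries.exp ℚ ^ 2 - 1))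
        * PowerSeries.exp ℚ := by ring
  have e2 : (PowerSeries.C (2 : ℚ) * bernoulliPowerSeries ℚ
        - PowerSeries.rescale (2 : ℚ) (bernoulliPowerSeries ℚ)) * (PowerSeries.exp ℚ ^ 2 - 1)
      = PowerSeries.C (2 : ℚ) * (bernoulliPowerSeries ℚ * (PowerSeries.exp ℚ - 1))
          * (PowerSeries.exp ℚ + 1)
        - PowerSeries.rescale (2 : ℚ) (bernoulliPowerSeries ℚ)
          * (PowerSeries.exp ℚ ^ 2 - 1) := by ring
  rw [e1, e2, hb2, hb]
  ring

/-- PROOF. Generating functions in `PowerSeries ℚ`: `b(t) = ∑ B_n t^n/n!` (`bernoulliPowerSeries ℚ`,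
`bernoulliPowerSeries_mul_exp_sub_one : b * (exp - 1) = X`). Claim `b(2t) e^t = 2 b(t) - b(2t)`, where `b(2t)` is
`PowerSeries.rescale 2 b`: multiply by `e^{2t} - 1 ≠ 0` (a domain): `b(2t)(e^{2t}-1) = 2t`, so the left side becomes `2 t e^t`;
the right side is `2 b(t)(e^t-1)(e^t+1) - 2t = 2t(e^t+1) - 2t`. (`PowerSeries.exp_mul_exp_eq_exp_add` or
`exp_pow_eq_rescale_exp` for `e^{2t} = (e^t)²`.) Compare the coefficients of `t^n` and multiply by `n!`
(`PowerSeries.coeff_mul`, `Finset.Nat.sum_antidiagonal_eq_sum_range_succ`). -/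
theorem two_pow_bern (n : ℕ) :
    ∑ j ∈ range (n + 1), (n.choose j : ℚ) * 2 ^ j * bernoulli j = (2 - 2 ^ n) * bernoulli n := by
  have h := congrArg (PowerSeries.coeff (R := ℚ) n) Bern1_series
  have hc : ∀ k : ℕ, PowerSeries.coeff (R := ℚ) k (bernoulliPowerSeries ℚ)
      = bernoulli k / k.factorial := by
    intro k
    unfold bernoulliPowerSeries
    rw [PowerSeries.coeff_mk]
    rfl
  have he : ∀ k : ℕ, PowerSeries.coeff (R := ℚ) k (PowerSeries.exp ℚ)
      = 1 / k.factorial := by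
    intro k
    rw [PowerSeries.coeff_exp]
    rfl
  rw [PowerSeries.coeff_mul, map_sub, PowerSeries.coeff_C_mul, PowerSeries.coeff_rescale, hc,
    Finset.Nat.sum_antidiagonal_eq_sum_range_succ (fun i j =>
      PowerSeries.coeff (R := ℚ) i (PowerSeries.rescale (2 : ℚ) (bernoulliPowerSeries ℚ))
        * PowerSeries.coeff (R := ℚ) j (PowerSeries.exp ℚ))] at h
  have hn : (n.factorial : ℚ) ≠ 0 := by positivity
  have h2 : (n.factorial : ℚ) * (∑ i ∈ range (n + 1),
      PowerSeries.coeff (R := ℚ) i (PowerSeries.rescale (2 : ℚ) (bernoulliPowerSeries ℚ))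
        * PowerSeries.coeff (R := ℚ) (n - i) (PowerSeries.exp ℚ))
      = (2 - 2 ^ n) * bernoulli n := by
    rw [h]
    field_simp
  rw [← h2, mul_sum]
  apply sum_congr rfl
  intro j hj
  have hj' := mem_range.mp hj
  rw [PowerSeries.coeff_rescale, hc, he, Nat.cast_choose ℚ (by omega : j ≤ n)]
  have h3 : (j.factorial : ℚ) ≠ 0 := by positivity
  have h4 : ((n - j).factorial : ℚ) ≠ 0 := by positivity
  field_simp

end Pool.Agent.Lib.MP_147bb8_ntQ
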