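import Pool.Agent.Lib.MP_147bb8_ntQ.Bern1

/-!
# Bernoulli numbers and harmonic sums modulo `p`
-/

set_option autoImplicit false
set_option linter.unusedSectionVars false

namespace Pool.Agent.Lib.MP_147bb8_ntQ

open Finset Pool.Agent.Lib.MP_4af00a_nt

variable {p : ℕ} [hp : Fact p.Prime]

private lemma bern2_sum_congr {n : ℕ} {f g : ℕ → ℚ} (h : ∀ i < n, D p 1 (f i - g i)) :
    D p 1 (∑ i ∈ range n, f i - ∑ i ∈ range n, g i) := by
  rw [← sum_sub_distrib]
  exact D_sum _ _ fun i hi => h i (mem_range.mp hi)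

private lemma bern2_shift {e : ℕ} (he : 0 < e) (n : ℕ) :
    ∑ i ∈ range n, ((i + 1 : ℕ) : ℚ) ^ e = ∑ k ∈ range (n + 1), (k : ℚ) ^ e := by
  rw [sum_range_succ', Nat.cast_zero, zero_pow he.ne', add_zero]

private lemma bern2_nat_pow (a e : ℕ) : D p 0 ((a : ℚ) ^ e) := D_pow (D_nat a) e

/-- `∑_{0<m<p} H_m / m² ≡ B_{p-3}` modulo `p`.

PROOF. `H_m = H_{m-1} + 1/m`; `∑ 1/m³ ≡ ∑ m^{p-4} ≡ 0` (`iv_pow`, `powsum`; `0 < p - 4 < p - 1`). And
`∑_m H_{m-1}/m² ≡ ∑_m m^{p-3} ∑_{i<m} i^{p-2}` (`iv_pow`; the term `i = 0` is `0`), by `sum_range_pow` (Mathlib, Faulhaber)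
`∑_{i<m} i^{p-2} = ∑_{j ≤ p-2} B_j C(p-1,j) m^{p-1-j}/(p-1)`. So the sum is
`∑_{j ≤ p-2} (B_j C(p-1,j)/(p-1)) ∑_m m^{2p-4-j}`, the coefficients are integral (`D_bern`, `p - 1` is a unit), and
`∑_m m^{2p-4-j}` is `≡ 0` unless `j = p-3` (`p - 2 ≤ 2p-4-j ≤ 2p - 4 < 2(p-1)`), where it is `≡ -1`. The term `j = p-3`:
`C(p-1,p-3) = (p-1)(p-2)/2`, so it is `-(p-2)/2 B_{p-3} ≡ B_{p-3}`. (For `j = p - 2`: exponent `p - 2`, not divisible.) -/
theorem W_bern (h3 : 3 < p) :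
    D p 1 (∑ m ∈ range (p - 1), Hs 1 (m + 1) * iv (m + 1) ^ 2 - bernoulli (p - 3)) := by
  obtain ⟨n, hn⟩ : ∃ n, p = n + 3 := ⟨p - 3, by omega⟩
  have hn1 : 1 ≤ n := by omega
  have e1 : p - 3 = n := by omega
  have e2 : p - 1 = n + 2 := by omega
  -- the cubes
  have hT3 : D p 1 (∑ m ∈ range (p - 1), iv (m + 1) ^ 3) := by
    have a1 : D p 1 (∑ m ∈ range (p - 1), iv (m + 1) ^ 3 -
        ∑ m ∈ range (p - 1), ((m + 1 : ℕ) : ℚ) ^ (p - 1 - 3)) :=
      bern2_sum_congr fun i hi => iv_pow (i := i + 1) (s := 3) (by omega) (by omega) (by omega)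
    have a2 := powsum (p := p) (p - 1 - 3)
    have h4 : p ≠ 4 := fun h4 => by
      have h5 : ¬ (4 : ℕ).Prime := by norm_num
      exact h5 (h4 ▸ hp.out)
    have hnd : ¬ (p - 1 ∣ p - 1 - 3) := fun hd => by
      have h6 : 0 < p - 1 - 3 := by omega
      have := Nat.le_of_dvd h6 hd
      omega
    rw [if_neg hnd, add_zero] at a2
    have a3 := D_add a1 a2
    rwa [sub_add_cancel] at a3
  -- the main part
  have hT2 : D p 1 (∑ m ∈ range (p - 1), Hs 1 m * iv (m + 1) ^ 2 -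
      ∑ m ∈ range (p - 1), (∑ k ∈ range (m + 1), (k : ℚ) ^ (n + 1)) * ((m + 1 : ℕ) : ℚ) ^ n) := by
    refine bern2_sum_congr fun m hm => ?_
    have b1 : D p 1 (Hs 1 m - ∑ k ∈ range (m + 1), (k : ℚ) ^ (n + 1)) := by
      rw [← bern2_shift (e := n + 1) (by omega)]
      refine bern2_sum_congr fun i hi => ?_
      have := iv_pow (p := p) (i := i + 1) (s := 1) (by omega) (by omega) (by omega)
      have e3 : p - 1 - 1 = n + 1 := by omega
      rwa [e3] at this
    have b2 : D p 1 (iv (m + 1) ^ 2 - ((m + 1 : ℕ) : ℚ) ^ n) := by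
      have := iv_pow (p := p) (i := m + 1) (s := 2) (by omega) (by omega) (by omega)
      have e3 : p - 1 - 2 = n := by omega
      rwa [e3] at this
    refine D_mul_congr b1 b2 ?_ (D_pow_iv (j := m + 1) 2 (by omega) (by omega))
    exact D_sum _ _ fun k _ => bern2_nat_pow k _
  set c : ℕ → ℚ := fun j => bernoulli j * ((n + 2).choose j) / (n + 2 : ℕ) with hc
  have hcint : ∀ j < n + 2, D p 0 (c j) := by
    intro j hj
    refine D_div (D_mul (i := 0) (j := 0) (D_bern (by omega)) (D_nat _)) ?_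
    exact not_dvd_of_lt (by omega) (by omega)
  have hF : ∑ m ∈ range (p - 1), (∑ k ∈ range (m + 1), (k : ℚ) ^ (n + 1)) * ((m + 1 : ℕ) : ℚ) ^ n =
      ∑ j ∈ range (n + 2), c j * ∑ m ∈ range (p - 1), ((m + 1 : ℕ) : ℚ) ^ (n + 2 - j + n) := by
    simp only [mul_sum]
    rw [sum_comm]
    refine sum_congr rfl fun m _ => ?_
    rw [sum_range_pow, sum_mul]
    refine sum_congr rfl fun j _ => ?_
    rw [pow_add, hc]
    push_cast
    ring
  have hS : D p 1 (∑ j ∈ range (n + 2), c j * ∑ m ∈ range (p - 1), ((m + 1 : ℕ) : ℚ) ^ (n + 2 - j + n)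
      + c n) := by
    have b1 : D p 1 (∑ j ∈ range (n + 2), c j * (∑ m ∈ range (p - 1),
        ((m + 1 : ℕ) : ℚ) ^ (n + 2 - j + n) + if p - 1 ∣ n + 2 - j + n then 1 else 0)) :=
      D_sum _ _ fun j hj => by
        have := D_mul (hcint j (mem_range.mp hj)) (powsum (p := p) (n + 2 - j + n))
        rwa [Nat.zero_add] at this
    have b2 : ∑ j ∈ range (n + 2), c j * (∑ m ∈ range (p - 1),
        ((m + 1 : ℕ) : ℚ) ^ (n + 2 - j + n) + if p - 1 ∣ n + 2 - j + n then 1 else 0) =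
        ∑ j ∈ range (n + 2), c j * ∑ m ∈ range (p - 1), ((m + 1 : ℕ) : ℚ) ^ (n + 2 - j + n) + c n := by
      simp only [mul_add, sum_add_distrib]
      congr 1
      rw [sum_eq_single n]
      · rw [if_pos, mul_one]
        rw [e2]
        exact ⟨1, by omega⟩
      · intro j hj hjn
        rw [if_neg, mul_zero]
        rintro ⟨k, hk⟩
        have hj' := mem_range.mp hj
        rw [e2] at hk
        have hk1 : k ≠ 1 := by
          rintro rfl
          omega
        have hk0 : k ≠ 0 := by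
          rintro rfl
          omega
        have hk2 : 2 ≤ k := by omega
        have : (n + 2) * 2 ≤ (n + 2) * k := Nat.mul_le_mul_left _ hk2
        omega
      · intro hn'
        exact absurd (mem_range.mpr (by omega)) hn'
    rwa [b2] at b1
  have hcn : c n + bernoulli n = p * (bernoulli n / (2 : ℕ)) := by
    have hch : (((n + 2).choose n : ℕ) : ℚ) = ((n : ℚ) + 2) * (n + 1) / 2 := by
      have h1 : (n + 2).choose n = (n + 2).choose 2 := by
        rw [← Nat.choose_symm_of_eq_add (by omega : n + 2 = n + 2)]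
      rw [h1, Nat.cast_choose_two]
      push_cast
      ring
    rw [hc]
    simp only
    rw [hch, hn]
    push_cast
    have : (n : ℚ) + 2 ≠ 0 := by positivity
    field_simp
    ring
  have hB : D p 1 ((p : ℚ) * (bernoulli n / (2 : ℕ))) := by
    refine D_mul (i := 1) (j := 0) D_p (D_div (D_bern (by omega)) ?_)
    exact not_dvd_of_lt (by omega) (by omega)
  have hsplit : ∑ m ∈ range (p - 1), Hs 1 (m + 1) * iv (m + 1) ^ 2 =
      ∑ m ∈ range (p - 1), Hs 1 m * iv (m + 1) ^ 2 + ∑ m ∈ range (p - 1), iv (m + 1) ^ 3 := by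
    rw [← sum_add_distrib]
    refine sum_congr rfl fun m _ => ?_
    rw [Hs_succ]
    ring
  rw [hsplit, e1]
  rw [hF] at hT2
  have hfin := D_sub (D_add (D_add hT2 hS) hT3) hB
  rw [← hcn] at hfin
  have e5 : ∀ a b d t x : ℚ, a - b + (b + d) + t - (d + x) = a + t - x := fun a b d t x => by ring
  rwa [e5] at hfin

/-- `H_h^(3) ≡ -2 B_{p-3}` modulo `p`, `p = 2 h + 1`.

PROOF. `1/i³ ≡ i^{p-4}` (`iv_pow`), so `H_h^(3) ≡ ∑_{i<h+1} i^{p-4} - [p-4 = 0]`; as `p ≥ 5`, `p - 4 ≥ 1`, no correction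
(the term `i = 0` is `0`). By `sum_range_pow`, with `n = p - 3`:
`n ∑_{i<h+1} i^{n-1} = ∑_{j ≤ n-1} B_j C(n,j) (h+1)^{n-j}`. Multiply by `2^n`: `2^j (2h+2)^{n-j} = 2^j (p+1)^{n-j} ≡ 2^j` modulo `p`
(coefficients integral by `D_bern`), so by `two_pow_bern`, `2^n n H_h^(3) ≡ (2 - 2^n) B_n - 2^n B_n = (2 - 2·2^n) B_n`. Multiply by
`4`: `4·2^n = 2^{p-1} ≡ 1` (`two_pow_eq`, `q_int`), `n ≡ -3`: `-3 H_h^(3) ≡ (8 - 2) B_n`. Divide by `3`. -/
theorem H3_bern {h : ℕ} (hh : p = 2 * h + 1) (h3 : 3 < p) :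
    D p 1 (Hs 3 h + 2 * bernoulli (p - 3)) := by
  obtain ⟨n, hn⟩ : ∃ n, p = n + 4 := ⟨p - 4, by omega⟩
  have e1 : p - 3 = n + 1 := by omega
  have hn1 : 1 ≤ n := by
    rcases Nat.eq_zero_or_pos n with h0 | h0
    · exfalso
      omega
    · exact h0
  -- first step
  have a1 : D p 1 (Hs 3 h - ∑ k ∈ range (h + 1), (k : ℚ) ^ n) := by
    rw [← bern2_shift (e := n) (by omega)]
    refine bern2_sum_congr fun i hi => ?_
    have := iv_pow (p := p) (i := i + 1) (s := 3) (by omega) (by omega) (by omega)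
    have e3 : p - 1 - 3 = n := by omega
    rwa [e3] at this
  have hn0 : ((n : ℚ) + 1) ≠ 0 := by positivity
  have a2 : (2 : ℚ) ^ (n + 1) * ((n : ℚ) + 1) * ∑ k ∈ range (h + 1), (k : ℚ) ^ n =
      ∑ j ∈ range (n + 1), ((n + 1).choose j : ℚ) * 2 ^ j * bernoulli j * ((p + 1 : ℕ) : ℚ) ^ (n + 1 - j) := by
    rw [sum_range_pow, mul_sum]
    refine sum_congr rfl fun j hj => ?_
    have hj' := mem_range.mp hj
    have h2 : (2 : ℚ) ^ (n + 1) = 2 ^ j * 2 ^ (n + 1 - j) := by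
      rw [← pow_add]
      congr 1
      omega
    have h4 : ((p + 1 : ℕ) : ℚ) ^ (n + 1 - j) = 2 ^ (n + 1 - j) * ((h + 1 : ℕ) : ℚ) ^ (n + 1 - j) := by
      rw [← mul_pow]
      congr 1
      rw [hh]
      push_cast
      ring
    rw [h4, h2]
    field_simp
  have hp1 : ∀ k : ℕ, D p 1 (((p + 1 : ℕ) : ℚ) ^ k - 1) := by
    intro k
    induction k with
    | zero =>
      rw [pow_zero, sub_self]
      exact D_zero 1
    | succ k ih =>
      have h5 : ((p + 1 : ℕ) : ℚ) ^ (k + 1) - 1 = (((p + 1 : ℕ) : ℚ) ^ k - 1) +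
          p * ((p + 1 : ℕ) : ℚ) ^ k := by
        push_cast
        ring
      rw [h5]
      exact D_add ih (D_mul (i := 1) (j := 0) D_p (bern2_nat_pow _ _))
  have a3 : D p 1 (∑ j ∈ range (n + 1), ((n + 1).choose j : ℚ) * 2 ^ j * bernoulli j *
      ((p + 1 : ℕ) : ℚ) ^ (n + 1 - j) -
      ∑ j ∈ range (n + 1), ((n + 1).choose j : ℚ) * 2 ^ j * bernoulli j) := by
    refine bern2_sum_congr fun j hj => ?_
    have h6 : ∀ a b : ℚ, a * b - a = a * (b - 1) := fun a b => by ring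
    rw [h6]
    have h7 : D p 0 (((n + 1).choose j : ℚ) * 2 ^ j * bernoulli j) := by
      refine D_mul (i := 0) (j := 0) (D_mul (i := 0) (j := 0) (D_nat _) ?_) (D_bern (by omega))
      have := bern2_nat_pow (p := p) 2 j
      push_cast at this
      exact this
    have := D_mul h7 (hp1 (n + 1 - j))
    rwa [Nat.zero_add] at this
  have a4 : ∑ j ∈ range (n + 1), ((n + 1).choose j : ℚ) * 2 ^ j * bernoulli j =
      (2 - 2 * 2 ^ (n + 1)) * bernoulli (n + 1) := by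
    have h8 := two_pow_bern (n + 1)
    rw [sum_range_succ, Nat.choose_self, Nat.cast_one, one_mul] at h8
    linarith
  -- `2 ^ (p - 1) ≡ 1`
  have a5 : D p 1 ((2 : ℚ) ^ (p - 1) - 1) := by
    have h9 : (2 : ℚ) ^ (p - 1) - 1 = p * q p := by
      unfold q
      have : (p : ℚ) ≠ 0 := by exact_mod_cast hp.out.ne_zero
      field_simp
    rw [h9]
    exact D_mul (i := 1) (j := 0) D_p (q_int h3)
  have a6 : (2 : ℚ) ^ (p - 1) = 4 * 2 ^ (n + 1) := by
    have : p - 1 = n + 1 + 2 := by omega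
    rw [this, pow_add]
    ring
  have hHint : D p 0 (Hs 3 h) := D_Hs 3 (by omega)
  have hBint : D p 0 (bernoulli (n + 1)) := D_bern (by omega)
  set H := Hs 3 h with hH
  set B := bernoulli (n + 1) with hB
  set T : ℚ := 2 ^ (n + 1) with hT
  have hTint : D p 0 T := by
    have := bern2_nat_pow (p := p) 2 (n + 1)
    push_cast at this
    exact this
  -- `T (n + 1) H ≡ (2 - 2 T) B`
  have b1 : D p 1 (T * ((n : ℚ) + 1) * H - (2 - 2 * T) * B) := by
    have c1 : D p 1 (T * ((n : ℚ) + 1) * H - T * ((n : ℚ) + 1) * ∑ k ∈ range (h + 1), (k : ℚ) ^ n) := by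
      rw [← mul_sub]
      have c2 : D p 0 (T * ((n : ℚ) + 1)) := by
        refine D_mul (i := 0) (j := 0) hTint ?_
        have := D_nat (p := p) (n + 1)
        push_cast at this
        exact this
      have := D_mul c2 a1
      rwa [Nat.zero_add] at this
    rw [a2] at c1
    rw [a4] at a3
    exact D_trans c1 a3
  rw [a6] at a5
  rw [e1, ← hB]
  -- combination
  have b2 : D p 1 (((3 : ℕ) : ℚ) * (H + 2 * B)) := by
    have c1 : D p 1 (((4 : ℕ) : ℚ) * (T * ((n : ℚ) + 1) * H - (2 - 2 * T) * B)) := by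
      have := D_mul (D_nat (p := p) 4) b1
      rwa [Nat.zero_add] at this
    have c2 : D p 1 ((4 * T - 1) * (((n + 1 : ℕ) : ℚ) * H + ((2 : ℕ) : ℚ) * B)) := by
      refine D_mul (i := 1) (j := 0) a5 (D_add ?_ ?_)
      · exact D_mul (i := 0) (j := 0) (D_nat _) hHint
      · exact D_mul (i := 0) (j := 0) (D_nat _) hBint
    have c3 : D p 1 ((p : ℚ) * H) := D_mul (i := 1) (j := 0) D_p hHint
    have c4 := D_add (D_sub c2 c1) c3
    have hpq : (p : ℚ) = n + 4 := by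
      rw [hn]
      push_cast
      ring
    have c5 : (4 * T - 1) * (((n + 1 : ℕ) : ℚ) * H + ((2 : ℕ) : ℚ) * B) -
        ((4 : ℕ) : ℚ) * (T * ((n : ℚ) + 1) * H - (2 - 2 * T) * B) + (p : ℚ) * H =
        ((3 : ℕ) : ℚ) * (H + 2 * B) := by
      rw [hpq]
      push_cast
      ring
    rwa [c5] at c4
  exact D_of_mul_unit (not_dvd_of_lt (by norm_num) h3) b2

end Pool.Agent.Lib.MP_147bb8_ntQ
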