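import Pool.Agent.Lib.MP_147bb8_ntQ.Base
import Pool.Agent.Lib.MP_147bb8_nt.WZ

/-!
# Closed forms of some products
-/

set_option autoImplicit false
set_option linter.unusedSectionVars false

namespace Pool.Agent.Lib.MP_147bb8_ntQ

open Finset Nat Pool.Agent.Lib.MP_4af00a_nt Pool.Agent.Lib.MP_147bb8_nt

/-- `∏_{i<h} (1 + x²/(4 (i+1) (i+1-x)))` with `x = 2 h + 1`. -/
def PM (h : ℕ) : ℚ := ∏ i ∈ range h, (1 + (2 * h + 1 : ℚ) ^ 2 *
  (iv (i + 1) * ((i + 1 : ℚ) - (2 * h + 1))⁻¹ / 4))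

/-- `∏_{i<h} (1 - x²/(i+1)²)` with `x = 2 h + 1`. -/
def PS (h : ℕ) : ℚ := ∏ i ∈ range h, (1 + (2 * h + 1 : ℚ) ^ 2 * (-(iv (i + 1) ^ 2)))

/-- `∏_{i<h} (1 - c x²/((i+1) (i+1-x)))` with `x = 2 h + 1`. -/
def PC (c : ℚ) (h : ℕ) : ℚ := ∏ i ∈ range h, (1 + (2 * h + 1 : ℚ) ^ 2 *
  (-(c * (iv (i + 1) * ((i + 1 : ℚ) - (2 * h + 1))⁻¹))))

lemma prod_add (a n : ℕ) : ∏ i ∈ range n, (1 + (a : ℚ) * iv (i + 1)) =
    ((a + n)! : ℚ) / ((a ! : ℚ) * (n ! : ℚ)) := by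
  induction n with
  | zero =>
    have := fac_ne a
    simp only [range_zero, prod_empty, add_zero, Nat.factorial_zero, Nat.cast_one, mul_one]
    field_simp
  | succ n ih =>
    rw [prod_range_succ, ih, ← add_assoc, fac_succ (a + n), fac_succ n]
    unfold iv
    have h1 := fac_ne a
    have h2 := fac_ne n
    have h3 : ((n : ℚ) + 1) ≠ 0 := by positivity
    push_cast
    field_simp
    ring

lemma prod_sub (n : ℕ) : ∀ b : ℕ, ∏ i ∈ range n, (1 - ((b + n + 1 : ℕ) : ℚ) * iv (i + 1)) =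
    (-1) ^ n * ((b + n)! : ℚ) / ((b ! : ℚ) * (n ! : ℚ)) := by
  induction n with
  | zero =>
    intro b
    have := fac_ne b
    simp only [range_zero, prod_empty, add_zero, Nat.factorial_zero, Nat.cast_one, mul_one, pow_zero,
      one_mul]
    field_simp
  | succ n ih =>
    intro b
    have e : b + (n + 1) + 1 = (b + 1) + n + 1 := by ring
    rw [prod_range_succ, e, ih (b + 1), show b + 1 + n = b + (n + 1) by ring, fac_succ b, fac_succ n,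
      pow_succ]
    unfold iv
    have h1 := fac_ne b
    have h2 := fac_ne n
    have h3 : ((n : ℚ) + 1) ≠ 0 := by positivity
    have h4 : ((b : ℚ) + 1) ≠ 0 := by positivity
    push_cast
    field_simp
    ring

/-- The basic quantity `∏ (1 - x/i)`. -/
lemma prod_x (h : ℕ) : ∏ i ∈ range h, (1 - (2 * h + 1 : ℚ) * iv (i + 1)) =
    (-1) ^ h * ((2 * h)! : ℚ) / (h ! : ℚ) ^ 2 := by
  have := prod_sub h h
  rw [show h + h = 2 * h by ring] at this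
  push_cast at this
  rw [this]
  ring

lemma sub_ne {h i : ℕ} (hi : i < h) : (1 - (2 * h + 1 : ℚ) * iv (i + 1)) ≠ 0 := by
  unfold iv
  push_cast
  have h3 : ((i : ℚ) + 1) ≠ 0 := by positivity
  have h4 : (i : ℚ) < h := by exact_mod_cast hi
  have e : 1 - (2 * h + 1 : ℚ) * ((i : ℚ) + 1)⁻¹ = ((i : ℚ) - 2 * h) / (i + 1) := by
    field_simp; ring
  rw [e]
  exact div_ne_zero (by linarith) h3

lemma inv_eq {h i : ℕ} (hi : i < h) : ((i + 1 : ℚ) - (2 * h + 1))⁻¹ =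
    iv (i + 1) / (1 - (2 * h + 1 : ℚ) * iv (i + 1)) := by
  have h1 := sub_ne hi
  have h3 : ((i : ℚ) + 1) ≠ 0 := by positivity
  have h4 : (i : ℚ) < h := by exact_mod_cast hi
  have h5 : ((i + 1 : ℚ) - (2 * h + 1)) ≠ 0 := by intro h; linarith
  rw [inv_eq_one_div, div_eq_div_iff h5 h1]
  unfold iv
  push_cast
  field_simp

theorem PM_eq (h : ℕ) : PM h = (-1) ^ h * ((2 * h)! : ℚ) / ((h ! : ℚ) ^ 2 * 16 ^ h) := by
  have hf := fac_ne h
  have hf2 := fac_ne (2 * h)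
  have e1 : PM h = (∏ i ∈ range h, (1 - (2 * h + 1 : ℚ) * (iv (i + 1) / 2))) ^ 2 *
      (∏ i ∈ range h, (1 - (2 * h + 1 : ℚ) * iv (i + 1)))⁻¹ := by
    unfold PM
    rw [← prod_pow, ← prod_inv_distrib, ← prod_mul_distrib]
    refine prod_congr rfl fun i hi => ?_
    have hi' := mem_range.mp hi
    have h1 := sub_ne hi'
    rw [inv_eq hi']
    field_simp
    ring
  have e2 := prod_half h
  have e3 : cb h = ((2 * h)! : ℚ) / (h ! : ℚ) ^ 2 := by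
    have a := prod_one h
    rw [prod_x] at a
    have hs : ((-1 : ℚ)) ^ h ≠ 0 := pow_ne_zero _ (by norm_num)
    have : (-1 : ℚ) ^ h * (((2 * h)! : ℚ) / (h ! : ℚ) ^ 2) = (-1) ^ h * cb h := by
      rw [← a]; ring
    exact (mul_left_cancel₀ hs this).symm
  have h4 : (4 : ℚ) ^ h ≠ 0 := by positivity
  have e4 : ∏ i ∈ range h, (1 - (2 * h + 1 : ℚ) * (iv (i + 1) / 2)) =
      (-1) ^ h * (((2 * h)! : ℚ) / (h ! : ℚ) ^ 2) / 4 ^ h := by
    rw [eq_div_iff h4, ← e3, ← e2]; ring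
  rw [e1, e4, prod_x]
  have e5 : (16 : ℚ) ^ h = 4 ^ h * 4 ^ h := by rw [← mul_pow]; norm_num
  have hs : ((-1 : ℚ)) ^ h * (-1) ^ h = 1 := by rw [← mul_pow]; norm_num
  have hs0 : ((-1 : ℚ)) ^ h ≠ 0 := pow_ne_zero _ (by norm_num)
  rw [e5]
  generalize ((-1 : ℚ)) ^ h = s at hs hs0
  generalize (4 : ℚ) ^ h = w at h4
  generalize ((2 * h)! : ℚ) = a at hf2
  generalize (h ! : ℚ) = b at hf
  field_simp

theorem PS_eq (h : ℕ) : PS h = (-1) ^ h * ((3 * h + 1)! : ℚ) / ((2 * h + 1) * (h ! : ℚ) ^ 3) := by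
  have hf := fac_ne h
  have hf2 := fac_ne (2 * h)
  have e1 : PS h = (∏ i ∈ range h, (1 - (2 * h + 1 : ℚ) * iv (i + 1))) *
      ∏ i ∈ range h, (1 + ((2 * h + 1 : ℕ) : ℚ) * iv (i + 1)) := by
    unfold PS
    rw [← prod_mul_distrib]
    refine prod_congr rfl fun i _ => ?_
    push_cast
    ring
  rw [e1, prod_x, prod_add, fac_succ (2 * h), show 2 * h + 1 + h = 3 * h + 1 by ring]
  have h3 : (2 * (h : ℚ) + 1) ≠ 0 := by positivity
  push_cast
  field_simp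

theorem PC6_eq (h : ℕ) : PC 6 h = ((6 * h + 2)! : ℚ) / (((4 * h + 2)! : ℚ) * ((2 * h)! : ℚ)) := by
  have hf := fac_ne h
  have hf2 := fac_ne (2 * h)
  have e1 : PC 6 h = (∏ i ∈ range h, (1 - (((5 * h + 2) + h + 1 : ℕ) : ℚ) * iv (i + 1))) *
      (∏ i ∈ range h, (1 + ((4 * h + 2 : ℕ) : ℚ) * iv (i + 1))) *
      (∏ i ∈ range h, (1 - (2 * h + 1 : ℚ) * iv (i + 1)))⁻¹ := by
    unfold PC
    rw [← prod_inv_distrib, ← prod_mul_distrib, ← prod_mul_distrib]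
    refine prod_congr rfl fun i hi => ?_
    have hi' := mem_range.mp hi
    have h1 := sub_ne hi'
    rw [inv_eq hi']
    push_cast
    field_simp
    ring
  rw [e1, prod_x, prod_add, prod_sub, show 5 * h + 2 + h = 6 * h + 2 by ring,
    show 4 * h + 2 + h = 5 * h + 2 by ring]
  have h3 := fac_ne (5 * h + 2)
  have h4 := fac_ne (4 * h + 2)
  have hs0 : ((-1 : ℚ)) ^ h ≠ 0 := pow_ne_zero _ (by norm_num)
  field_simp

theorem PC2_eq (h : ℕ) : PC 2 h = ((4 * h + 1)! : ℚ) / (((2 * h + 1)! : ℚ) * ((2 * h)! : ℚ)) := by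
  have hf := fac_ne h
  have hf2 := fac_ne (2 * h)
  have e1 : PC 2 h = (∏ i ∈ range h, (1 - (((3 * h + 1) + h + 1 : ℕ) : ℚ) * iv (i + 1))) *
      (∏ i ∈ range h, (1 + ((2 * h + 1 : ℕ) : ℚ) * iv (i + 1))) *
      (∏ i ∈ range h, (1 - (2 * h + 1 : ℚ) * iv (i + 1)))⁻¹ := by
    unfold PC
    rw [← prod_inv_distrib, ← prod_mul_distrib, ← prod_mul_distrib]
    refine prod_congr rfl fun i hi => ?_
    have hi' := mem_range.mp hi
    have h1 := sub_ne hi'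
    rw [inv_eq hi']
    push_cast
    field_simp
    ring
  rw [e1, prod_x, prod_add, prod_sub, show 3 * h + 1 + h = 4 * h + 1 by ring,
    show 2 * h + 1 + h = 3 * h + 1 by ring]
  have h3 := fac_ne (3 * h + 1)
  have h4 := fac_ne (2 * h + 1)
  have hs0 : ((-1 : ℚ)) ^ h ≠ 0 := pow_ne_zero _ (by norm_num)
  field_simp

/-- The middle term. -/
theorem G_mid (h : ℕ) : - G (2 * h + 1) h = 3 * (2 * h + 1 : ℚ) ^ 2 *
    (PM h ^ 3 * (PC 6 h * PC 2 h) ^ 3 * ((PS h) ^ 2)⁻¹) := by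
  rw [PM_eq, PS_eq, PC6_eq, PC2_eq]
  unfold G B
  rw [if_pos (by omega), show 2 * h + 1 - h = h + 1 by omega,
    show 3 * (2 * h + 1) = (6 * h + 2) + 1 by ring, show 2 * (2 * h + 1) + 2 * h = 6 * h + 2 by ring,
    show 2 * (2 * h + 1) = (4 * h + 1) + 1 by ring, show 4 * h + 2 = (4 * h + 1) + 1 by ring,
    show 2 * h + 1 + h = 3 * h + 1 by ring, show 2 * h + 1 + 2 * h = 4 * h + 1 by ring,
    fac_succ (6 * h + 2), fac_succ (4 * h + 1), fac_succ (2 * h), fac_succ h]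
  have h1 := fac_ne h
  have h2 := fac_ne (2 * h)
  have h3 := fac_ne (3 * h + 1)
  have h4 := fac_ne (4 * h + 1)
  have h5 := fac_ne (6 * h + 2)
  have e1 : (64 : ℚ) ^ (2 * h + 1) = 64 * (16 ^ h) ^ 3 := by
    rw [pow_succ, pow_mul, ← pow_mul, ← pow_mul, mul_comm h 3, pow_mul 16 3 h]
    norm_num
    rw [show (4096 : ℚ) = 64 ^ 2 by norm_num, ← pow_mul]
    ring
  have e2 : ((-1 : ℚ)) ^ (3 * h + 1) = - (-1) ^ h := by
    rw [pow_succ, pow_mul]; norm_num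
  have hs : ((-1 : ℚ)) ^ h * (-1) ^ h = 1 := by rw [← mul_pow]; norm_num
  have hs0 : ((-1 : ℚ)) ^ h ≠ 0 := pow_ne_zero _ (by norm_num)
  have h16 : (16 : ℚ) ^ h ≠ 0 := by positivity
  rw [e1, e2]
  have hs3 : ((-1 : ℚ) ^ h) ^ 2 = 1 := by rw [pow_two]; exact hs
  generalize ((-1 : ℚ)) ^ h = s at hs hs0 hs3
  generalize (16 : ℚ) ^ h = w at h16
  generalize (h ! : ℚ) = a1 at *
  generalize ((2 * h)! : ℚ) = a2 at *
  generalize ((3 * h + 1)! : ℚ) = a3 at *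
  generalize ((4 * h + 1)! : ℚ) = a4 at *
  generalize ((6 * h + 2)! : ℚ) = a5 at *
  push_cast
  have g1 : (2 * (h : ℚ) + 1) ≠ 0 := by positivity
  have g2 : ((h : ℚ) + 1) ≠ 0 := by positivity
  have g3 : (4 * (h : ℚ) + 1 + 1) ≠ 0 := by positivity
  have g4 : (2 * (h : ℚ) + 1 + 2 * h + 1) ≠ 0 := by positivity
  field_simp
  ring

end Pool.Agent.Lib.MP_147bb8_ntQ
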