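import Pool.Agent.Lib.MP_147bb8_ntQ.Bern1

/-!
# Euler numbers and a sum of inverse squares modulo `p`
-/

set_option autoImplicit false
set_option linter.unusedSectionVars false

namespace Pool.Agent.Lib.MP_147bb8_ntQ

open Finset Pool.Agent.Lib.MP_4af00a_nt

/-- The Euler numbers: `2 / (e^t + e^(-t)) = ∑ E_n t^n / n!`. -/
noncomputable def eulerNumber (n : ℕ) : ℚ :=
  (n.factorial : ℚ) * PowerSeries.coeff n
    ((2 : PowerSeries ℚ) * (PowerSeries.exp ℚ + PowerSeries.evalNegHom (PowerSeries.exp ℚ))⁻¹)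

/-- The polynomial `P_n(x) = ∑_j C(n,j) E_j x^(n-j)` evaluated at `x`. -/
noncomputable def eulerP (n : ℕ) (x : ℚ) : ℚ :=
  ∑ j ∈ range (n + 1), (n.choose j : ℚ) * eulerNumber j * x ^ (n - j)

/-- The series `e^t + e^(-t)`. -/
noncomputable def Euler_den : PowerSeries ℚ :=
  PowerSeries.exp ℚ + PowerSeries.evalNegHom (PowerSeries.exp ℚ)

/-- The series `2 / (e^t + e^(-t))`. -/
noncomputable def Euler_ser : PowerSeries ℚ := (2 : PowerSeries ℚ) * Euler_den⁻¹

lemma Euler_ev : (PowerSeries.evalNegHom (PowerSeries.exp ℚ) : PowerSeries ℚ)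
    = PowerSeries.rescale (-1 : ℚ) (PowerSeries.exp ℚ) := rfl

lemma Euler_const : PowerSeries.constantCoeff Euler_den = 2 := by
  unfold Euler_den
  rw [Euler_ev, map_add, ← PowerSeries.coeff_zero_eq_constantCoeff_apply,
    ← PowerSeries.coeff_zero_eq_constantCoeff_apply, PowerSeries.coeff_rescale,
    PowerSeries.coeff_exp]
  norm_num

lemma Euler_mul : Euler_ser * Euler_den = 2 := by
  unfold Euler_ser
  rw [mul_assoc, PowerSeries.inv_mul_cancel _ (by rw [Euler_const]; norm_num), mul_one]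

lemma Euler_coeff (n : ℕ) : PowerSeries.coeff n Euler_ser = eulerNumber n / (n.factorial : ℚ) := by
  have hf : (n.factorial : ℚ) ≠ 0 := by exact_mod_cast n.factorial_ne_zero
  unfold eulerNumber Euler_ser Euler_den
  field_simp

lemma Euler_coeff_exp (x : ℚ) (n : ℕ) :
    PowerSeries.coeff n (PowerSeries.rescale x (PowerSeries.exp ℚ)) = x ^ n / (n.factorial : ℚ) := by
  rw [PowerSeries.coeff_rescale, PowerSeries.coeff_exp]
  simp [div_eq_mul_inv]

lemma Euler_P (n : ℕ) (x : ℚ) :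
    PowerSeries.coeff n (Euler_ser * PowerSeries.rescale x (PowerSeries.exp ℚ))
      = eulerP n x / (n.factorial : ℚ) := by
  rw [PowerSeries.coeff_mul, Finset.Nat.sum_antidiagonal_eq_sum_range_succ
    (fun i j => PowerSeries.coeff i Euler_ser
      * PowerSeries.coeff j (PowerSeries.rescale x (PowerSeries.exp ℚ)))]
  unfold eulerP
  rw [Finset.sum_div]
  apply Finset.sum_congr rfl
  intro j hj
  have hj' : j ≤ n := by have := Finset.mem_range.mp hj; omega
  rw [Euler_coeff, Euler_coeff_exp, Nat.cast_choose ℚ hj']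
  have h1 : (n.factorial : ℚ) ≠ 0 := by exact_mod_cast n.factorial_ne_zero
  have h2 : (j.factorial : ℚ) ≠ 0 := by exact_mod_cast j.factorial_ne_zero
  have h3 : ((n - j).factorial : ℚ) ≠ 0 := by exact_mod_cast (n - j).factorial_ne_zero
  field_simp

/-- `P_n(x + 1) + P_n(x - 1) = 2 x^n`.

PROOF. With `E(t) = ∑ E_n t^n/n!`, `E(t) (e^t + e^(-t)) = 2` (`PowerSeries.mul_inv_cancel`, the constant coefficient is `2`); and
`P_n(x)/n!` is the coefficient of `t^n` of `E(t) e^(x t)`, `e^(x t) = PowerSeries.rescale x (exp ℚ)`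
(`PowerSeries.coeff_mul`, `Finset.Nat.sum_antidiagonal_eq_sum_range_succ`). Now
`E(t) e^((x+1)t) + E(t) e^((x-1)t) = E(t) e^(xt) (e^t + e^(-t)) = 2 e^(xt)` (`PowerSeries.exp_mul_exp_eq_exp_add`,
`evalNegHom = rescale (-1)`). -/
theorem eulerP_add (n : ℕ) (x : ℚ) : eulerP n (x + 1) + eulerP n (x - 1) = 2 * x ^ n := by
  have h1 : PowerSeries.rescale (x + 1) (PowerSeries.exp ℚ)
      = PowerSeries.rescale x (PowerSeries.exp ℚ) * PowerSeries.exp ℚ := by
    rw [← PowerSeries.exp_mul_exp_eq_exp_add, PowerSeries.rescale_one]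
    rfl
  have h2 : PowerSeries.rescale (x - 1) (PowerSeries.exp ℚ)
      = PowerSeries.rescale x (PowerSeries.exp ℚ)
        * PowerSeries.evalNegHom (PowerSeries.exp ℚ) := by
    rw [sub_eq_add_neg, ← PowerSeries.exp_mul_exp_eq_exp_add, Euler_ev]
  have h3 : Euler_ser * PowerSeries.rescale (x + 1) (PowerSeries.exp ℚ)
      + Euler_ser * PowerSeries.rescale (x - 1) (PowerSeries.exp ℚ)
      = PowerSeries.C (2 : ℚ) * PowerSeries.rescale x (PowerSeries.exp ℚ) := by
    have h4 : (2 : PowerSeries ℚ) = PowerSeries.C (2 : ℚ) := by rw [map_ofNat]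
    rw [h1, h2, ← h4, ← Euler_mul]
    unfold Euler_den
    ring
  have h5 := congrArg (PowerSeries.coeff n) h3
  rw [map_add, Euler_P, Euler_P, PowerSeries.coeff_C_mul, Euler_coeff_exp] at h5
  have hf : (n.factorial : ℚ) ≠ 0 := by exact_mod_cast n.factorial_ne_zero
  field_simp at h5
  linarith

/-- Odd Euler numbers vanish. PROOF. `E(-t) = E(t)`: the series `e^t + e^(-t)` is fixed by `evalNegHom` (an involution), so its inverse too; compare the
coefficients (`(-1)^n E_n = E_n`). Or from `eulerP_add` by induction. -/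
theorem euler_odd {n : ℕ} (hn : Odd n) : eulerNumber n = 0 := by
  have hD : PowerSeries.evalNegHom Euler_den = Euler_den := by
    have h0 : PowerSeries.evalNegHom (PowerSeries.evalNegHom (PowerSeries.exp ℚ))
        = PowerSeries.exp ℚ := by
      ext m
      have e : ∀ f : PowerSeries ℚ, PowerSeries.evalNegHom f = PowerSeries.rescale (-1 : ℚ) f :=
        fun f => rfl
      rw [e, e, PowerSeries.coeff_rescale, PowerSeries.coeff_rescale, ← mul_assoc, ← mul_pow]
      norm_num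
    unfold Euler_den
    rw [map_add, h0, add_comm]
  have hmul := congrArg PowerSeries.evalNegHom Euler_mul
  rw [map_mul, hD, map_ofNat, ← Euler_mul] at hmul
  have hD0 : Euler_den ≠ 0 := by
    intro h
    have := Euler_const
    rw [h, map_zero] at this
    norm_num at this
  have hE := mul_right_cancel₀ hD0 hmul
  have h1 := congrArg (PowerSeries.coeff n) hE
  have e : PowerSeries.evalNegHom Euler_ser = PowerSeries.rescale (-1 : ℚ) Euler_ser := rfl
  rw [e, PowerSeries.coeff_rescale, hn.neg_one_pow, Euler_coeff] at h1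
  have hf : (n.factorial : ℚ) ≠ 0 := by exact_mod_cast n.factorial_ne_zero
  field_simp at h1
  linarith

/-- The Euler numbers are integers. PROOF. Strong induction from `eulerP_add n 0`: `P_n(1) + P_n(-1) = 2·0^n`, i.e.
`∑_j C(n,j) E_j (1 + (-1)^(n-j)) = 2·0^n`; the term `j = n` is `2 E_n`, the others are even integers. -/
theorem euler_int (n : ℕ) : ∃ z : ℤ, eulerNumber n = z := by
  induction n using Nat.strong_induction_on with
  | _ n ih =>
    have h := eulerP_add n 0
    rw [zero_add, zero_sub] at h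
    unfold eulerP at h
    rw [← sum_add_distrib, sum_range_succ] at h
    have hz : ∀ j ∈ range n, ∃ z : ℤ, (n.choose j : ℚ) * eulerNumber j * 1 ^ (n - j)
        + (n.choose j : ℚ) * eulerNumber j * (-1) ^ (n - j) = 2 * (z : ℚ) := by
      intro j hj
      obtain ⟨y, hy⟩ := ih j (mem_range.mp hj)
      rcases Nat.even_or_odd (n - j) with he | ho
      · refine ⟨n.choose j * y, ?_⟩
        rw [he.neg_one_pow, hy, one_pow]
        push_cast
        ring
      · refine ⟨0, ?_⟩
        rw [ho.neg_one_pow, one_pow]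
        push_cast
        ring
    choose! z hz using hz
    rw [sum_congr rfl hz, ← mul_sum] at h
    rcases Nat.eq_zero_or_pos n with h0 | h0
    · subst h0
      refine ⟨1, ?_⟩
      simp at h
      push_cast
      linarith
    · refine ⟨- ∑ j ∈ range n, z j, ?_⟩
      rw [zero_pow h0.ne'] at h
      simp only [Nat.choose_self, Nat.sub_self, pow_zero, Nat.cast_one, one_mul, mul_one,
        mul_zero] at h
      push_cast
      linarith

variable {p : ℕ} [hp : Fact p.Prime]

omit hp in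
lemma Euler_alt_P (n m : ℕ) :
    ∑ i ∈ range (m + 1), (-1 : ℚ) ^ i * (2 * (2 * (i : ℚ)) ^ n)
      = (-1) ^ m * eulerP n (2 * m + 1) + eulerP n (-1) := by
  induction m with
  | zero =>
    have h := eulerP_add n 0
    simp only [zero_add, zero_sub] at h
    simp [h]
  | succ m ih =>
    rw [sum_range_succ, ih, ← eulerP_add n (2 * ((m + 1 : ℕ) : ℚ))]
    have e1 : 2 * ((m + 1 : ℕ) : ℚ) - 1 = 2 * (m : ℚ) + 1 := by push_cast; ring
    rw [e1, pow_succ]
    ring

omit hp in
lemma Euler_P_neg {n : ℕ} (hn : Even n) (h0 : 0 < n) : eulerP n (-1) = 0 := by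
  have h := eulerP_add n 0
  rw [zero_add, zero_sub, zero_pow h0.ne', mul_zero] at h
  have h1 : eulerP n 1 = eulerP n (-1) := by
    unfold eulerP
    apply sum_congr rfl
    intro j hj
    have hj' : j ≤ n := by have := mem_range.mp hj; omega
    rcases Nat.even_or_odd j with he | ho
    · have he2 : Even (n - j) := (Nat.even_sub hj').mpr ⟨fun _ => he, fun _ => hn⟩
      rw [he2.neg_one_pow, one_pow]
    · rw [euler_odd ho]
      ring
  rw [h1] at h
  linarith

omit hp in
lemma Euler_alt_Hs (h : ℕ) :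
    ∑ i ∈ range h, (-1 : ℚ) ^ (i + 1) * iv (i + 1) ^ 2 = 1 / 2 * Hs 2 (h / 2) - Hs 2 h := by
  induction h with
  | zero => simp [Hs_zero]
  | succ h ih =>
    rw [sum_range_succ, ih, Hs_succ]
    rcases Nat.even_or_odd (h + 1) with he | ho
    · obtain ⟨k, hk⟩ := he
      obtain ⟨l, rfl⟩ : ∃ l, k = l + 1 := ⟨k - 1, by omega⟩
      have e1 : h / 2 = l := by omega
      have e2 : (h + 1) / 2 = l + 1 := by omega
      rw [e1, e2, Hs_succ, hk]
      have e3 : iv (l + 1 + (l + 1)) = iv 2 * iv (l + 1) := by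
        rw [← iv_mul, two_mul]
      have e4 : iv 2 = 1 / 2 := by unfold iv; norm_num
      have e5 : (-1 : ℚ) ^ (l + 1 + (l + 1)) = 1 := by
        rw [← two_mul, pow_mul]; norm_num
      rw [e3, e4, e5]
      ring
    · have e1 : (h + 1) / 2 = h / 2 := by
        obtain ⟨k, hk⟩ := ho
        omega
      rw [e1, ho.neg_one_pow]
      ring

/-- `H_[h/2]^(2) ≡ 4 (-1)^h E_{p-3}` modulo `p`, `p = 2 h + 1`, `p > 3`.

PROOF. Put `n = p - 3` (even, positive). `eulerP_add n (2i)`, alternating sum over `0 ≤ i ≤ h`: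
`2 ∑_{i ≤ h} (-1)^i (2i)^n = (-1)^h P_n(2h+1) + P_n(-1)`. `P_n(1) + P_n(-1) = 0` (`eulerP_add n 0`, `n > 0`) and `P_n(-1) = P_n(1)` (`euler_odd`, `n` even), so
`P_n(-1) = 0`. `2h+1 = p`, so `P_n(p) ≡ E_n` modulo `p` (`euler_int`). As `(2i)^(p-3) ≡ 1/(2i)²` (`iv_pow`, `i > 0`; the term `i = 0` is `0`):
`(1/2) ∑_{0<i≤h} (-1)^i/i² ≡ (-1)^h E_n`. Finally `∑_{0<i≤h} (-1)^i/i² = 2·(1/4) Hs 2 (h/2) - Hs 2 h` (even `i`), and
`Hs 2 h ≡ 0` (`S_half` of `Harm.lean`). So `(1/4) Hs 2 (h/2) ≡ (-1)^h E_n`. -/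
theorem euler_cong {h : ℕ} (hh : p = 2 * h + 1) (h3 : 3 < p) :
    D p 1 (Hs 2 (h / 2) - 4 * (-1) ^ h * eulerNumber (p - 3)) := by
  set n := p - 3 with hn
  have hne : Even n := ⟨h - 1, by omega⟩
  have hn0 : 0 < n := by omega
  have hint : ∀ j, D p 0 (eulerNumber j) := by
    intro j
    obtain ⟨z, hz⟩ := euler_int j
    rw [hz]
    exact D_int z
  -- the value at `p`
  have hP : D p 1 (eulerP n p - eulerNumber n) := by
    unfold eulerP
    rw [sum_range_succ, Nat.choose_self, Nat.sub_self, pow_zero]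
    have e : ∑ j ∈ range n, (n.choose j : ℚ) * eulerNumber j * (p : ℚ) ^ (n - j)
        + ((1 : ℕ) : ℚ) * eulerNumber n * 1 - eulerNumber n
        = ∑ j ∈ range n, (n.choose j : ℚ) * eulerNumber j * (p : ℚ) ^ (n - j) := by
      push_cast; ring
    rw [e]
    apply D_sum
    intro j hj
    have hj' := mem_range.mp hj
    have h1 : D p 1 ((p : ℚ) ^ (n - j)) := D_mono (by omega) (D_p_pow (p := p) (n - j))
    have h2 := D_mul (i := 0) (j := 0) (D_nat (p := p) (n.choose j)) (hint j)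
    have h4 := D_mul h2 h1
    rwa [Nat.zero_add] at h4
  have hA := Euler_alt_P n h
  rw [Euler_P_neg hne hn0, add_zero] at hA
  have e0 : (2 * (h : ℚ) + 1) = (p : ℚ) := by rw [hh]; push_cast; ring
  rw [e0, sum_range_succ'] at hA
  have e1 : (-1 : ℚ) ^ 0 * (2 * (2 * ((0 : ℕ) : ℚ)) ^ n) = 0 := by
    rw [Nat.cast_zero, mul_zero, zero_pow hn0.ne']; ring
  rw [e1, add_zero] at hA
  -- the sum modulo `p`
  have hB : D p 1 (∑ i ∈ range h, (-1 : ℚ) ^ (i + 1) * (2 * (2 * ((i + 1 : ℕ) : ℚ)) ^ n)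
      - 1 / 2 * ∑ i ∈ range h, (-1 : ℚ) ^ (i + 1) * iv (i + 1) ^ 2) := by
    rw [mul_sum, ← sum_sub_distrib]
    apply D_sum
    intro i hi
    have hi' := mem_range.mp hi
    have h1 := iv_pow (p := p) (i := 2 * (i + 1)) (s := 2) (by omega) (by omega) (by omega)
    have e2 : p - 1 - 2 = n := by omega
    rw [e2, iv_mul] at h1
    have e4 : iv 2 = 1 / 2 := by unfold iv; norm_num
    rw [e4] at h1
    have h2 : D p 0 ((-1 : ℚ) ^ (i + 1) * (-2)) := by
      have := D_int (p := p) ((-1) ^ (i + 1) * (-2))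
      push_cast at this
      exact this
    have h4 := D_mul h2 h1
    rw [Nat.zero_add] at h4
    have e5 : (-1 : ℚ) ^ (i + 1) * (-2)
        * ((1 / 2 * iv (i + 1)) ^ 2 - ((2 * (i + 1) : ℕ) : ℚ) ^ n)
        = (-1 : ℚ) ^ (i + 1) * (2 * (2 * ((i + 1 : ℕ) : ℚ)) ^ n)
          - 1 / 2 * ((-1 : ℚ) ^ (i + 1) * iv (i + 1) ^ 2) := by
      push_cast; ring
    rwa [e5] at h4
  rw [hA, Euler_alt_Hs] at hB
  have hS : D p 1 (Hs 2 h) := S_half hh h3
  have hs : D p 0 ((-1 : ℚ) ^ h) := by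
    have := D_int (p := p) ((-1) ^ h)
    push_cast at this
    exact this
  have hC := D_mul hs hP
  rw [Nat.zero_add] at hC
  have hF : D p 1 ((-1) ^ h * eulerNumber n - 1 / 2 * (1 / 2 * Hs 2 (h / 2) - Hs 2 h)) := by
    have := D_sub hB hC
    have e : (-1) ^ h * eulerP n p - 1 / 2 * (1 / 2 * Hs 2 (h / 2) - Hs 2 h)
        - (-1) ^ h * (eulerP n p - eulerNumber n)
        = (-1) ^ h * eulerNumber n - 1 / 2 * (1 / 2 * Hs 2 (h / 2) - Hs 2 h) := by ring
    rwa [e] at this
  have hG := D_mul (i := 0) (j := 1) (D_int (p := p) (-4)) hF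
  rw [Nat.zero_add] at hG
  have hH := D_mul (i := 0) (j := 1) (D_int (p := p) 2) hS
  rw [Nat.zero_add] at hH
  have hI := D_add hG hH
  have e : ((-4 : ℤ) : ℚ) * ((-1) ^ h * eulerNumber n - 1 / 2 * (1 / 2 * Hs 2 (h / 2) - Hs 2 h))
      + ((2 : ℤ) : ℚ) * Hs 2 h = Hs 2 (h / 2) - 4 * (-1) ^ h * eulerNumber n := by
    push_cast; ring
  rwa [e] at hI

end Pool.Agent.Lib.MP_147bb8_ntQ
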