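import Pool.Agent.Lib.MP_147bb8_ntQ.Base

/-!
# Sums of inverse squares modulo `p ^ 2`
-/

set_option autoImplicit false
set_option linter.unusedSectionVars false

namespace Pool.Agent.Lib.MP_147bb8_ntQ

open Finset Pool.Agent.Lib.MP_4af00a_nt

variable {p : ℕ} [hp : Fact p.Prime]

/-- The square of the inverse of `p - j` modulo `p ^ 2`. -/
theorem HarmA_sq_refl {j : ℕ} (h0 : 0 < j) (h : j < p) :
    D p 2 (iv (p - j) ^ 2 - iv j ^ 2 - 2 * p * iv j ^ 3) := by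
  have h1 := iv_refl h0 h
  have h2 : iv (p - j) ^ 2 - iv j ^ 2 - 2 * p * iv j ^ 3 =
      (p : ℚ) ^ 2 * (iv (p - j) ^ 2 * iv j ^ 2 - 2 * (iv (p - j) * iv j ^ 3)) := by
    linear_combination (iv (p - j) - iv j + p * iv (p - j) * iv j - 2 * p * iv j ^ 2) * h1
  rw [h2]
  have ha := D_pow_iv (p := p) (j := p - j) 2 (by omega) (by omega)
  have ha1 := D_iv (p := p) (j := p - j) (by omega) (by omega)
  have hb := D_pow_iv (p := p) 2 h0 h
  have hb3 := D_pow_iv (p := p) 3 h0 h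
  exact D_mul (i := 2) (j := 0) (D_p_pow (p := p) 2) (D_sub (D_mul (i := 0) (j := 0) ha hb)
    (D_mul (i := 0) (j := 0) (by simpa using D_nat (p := p) 2)
      (D_mul (i := 0) (j := 0) ha1 hb3)))

/-- The inverse of `j - p` is integral. -/
theorem HarmA_inv_sub {j : ℕ} (h0 : 0 < j) (h : j < p) : D p 0 (((j : ℚ) - p)⁻¹) := by
  have h1 : ((j : ℚ) - p)⁻¹ = - iv (p - j) := by
    unfold iv
    rw [Nat.cast_sub h.le, ← inv_neg, neg_sub]
  rw [h1]
  exact D_neg (D_iv (by omega) (by omega))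

/-- `H_h^(2) ≡ -(7/6) p H_h^(3)` modulo `p ^ 2`, `p = 2 h + 1`. -/
theorem H2_half {h : ℕ} (hh : p = 2 * h + 1) (h3 : 3 < p) :
    D p 2 (Hs 2 h + 7 / 6 * p * Hs 3 h) := by
  have hpq : (p : ℚ) = 2 * h + 1 := by rw [hh]; push_cast; ring
  set T := ∑ i ∈ range (2 * h), iv (i + 1) ^ 2 with hT
  have a1 : D p 2 (T - (2 * Hs 2 h + 2 * p * Hs 3 h)) := by
    rw [hT, sum_two_mul_refl, Hs, Hs, mul_sum, mul_sum, ← sum_add_distrib, ← sum_sub_distrib]
    apply D_sum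
    intro i hi
    have hi' := mem_range.mp hi
    have e : 2 * h - 1 - i + 1 = p - (i + 1) := by omega
    rw [e]
    have e2 : iv (i + 1) ^ 2 + iv (p - (i + 1)) ^ 2
        - (2 * iv (i + 1) ^ 2 + 2 * p * iv (i + 1) ^ 3)
      = iv (p - (i + 1)) ^ 2 - iv (i + 1) ^ 2 - 2 * p * iv (i + 1) ^ 3 := by ring
    rw [e2]
    exact HarmA_sq_refl (by omega) (by omega)
  have a2 : D p 2 (T - (1 / 2 * Hs 2 h + p / 4 * Hs 3 h)) := by
    rw [hT, sum_two_mul, sum_add_distrib, ← sum_range_reflect (fun i => iv (2 * i + 1) ^ 2),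
      ← sum_add_distrib, Hs, Hs, mul_sum, mul_sum, ← sum_add_distrib, ← sum_sub_distrib]
    apply D_sum
    intro i hi
    have hi' := mem_range.mp hi
    have e : 2 * (h - 1 - i) + 1 = p - 2 * (i + 1) := by omega
    have e1 : 2 * i + 1 + 1 = 2 * (i + 1) := by omega
    rw [e, e1]
    have e2 : iv (i + 1) = 2 * iv (2 * (i + 1)) := by
      unfold iv; push_cast; rw [mul_inv]; ring
    have e3 : iv (p - 2 * (i + 1)) ^ 2 + iv (2 * (i + 1)) ^ 2
        - (1 / 2 * iv (i + 1) ^ 2 + p / 4 * iv (i + 1) ^ 3)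
      = iv (p - 2 * (i + 1)) ^ 2 - iv (2 * (i + 1)) ^ 2 - 2 * p * iv (2 * (i + 1)) ^ 3 := by
      rw [e2]; ring
    rw [e3]
    exact HarmA_sq_refl (by omega) (by omega)
  have a3 := D_mul (D_nat (p := p) 2) (D_sub a2 a1)
  rw [Nat.zero_add] at a3
  have e : ((2 : ℕ) : ℚ) * (T - (1 / 2 * Hs 2 h + p / 4 * Hs 3 h)
      - (T - (2 * Hs 2 h + 2 * p * Hs 3 h))) = ((3 : ℕ) : ℚ) * (Hs 2 h + 7 / 6 * p * Hs 3 h) := by
    push_cast; ring
  rw [e] at a3
  exact D_of_mul_unit (not_dvd_of_lt (by norm_num) h3) a3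

/-- `∑_{i ≤ h} 1/(i (i - p)) ≡ H_h^(2) + p H_h^(3)` modulo `p ^ 2`. -/
theorem A_sum {h : ℕ} (hh : p = 2 * h + 1) :
    D p 2 (∑ i ∈ range h, iv (i + 1) * ((i + 1 : ℚ) - p)⁻¹ - (Hs 2 h + p * Hs 3 h)) := by
  rw [Hs, Hs, mul_sum, ← sum_add_distrib, ← sum_sub_distrib]
  apply D_sum
  intro i hi
  have hi' := mem_range.mp hi
  have h1 := HarmA_inv_sub (p := p) (j := i + 1) (by omega) (by omega)
  push_cast at h1
  have h2 : ((i : ℚ) + 1) ≠ 0 := by positivity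
  have h3 : ((i : ℚ) + 1 - p) ≠ 0 := by
    have : ((i + 1 : ℕ) : ℚ) < p := by exact_mod_cast (show i + 1 < p by omega)
    push_cast at this
    exact (sub_neg.mpr this).ne
  have e : iv (i + 1) * ((i + 1 : ℚ) - p)⁻¹ - (iv (i + 1) ^ 2 + p * iv (i + 1) ^ 3) =
      (p : ℚ) ^ 2 * (iv (i + 1) ^ 3 * ((i + 1 : ℚ) - p)⁻¹) := by
    unfold iv
    push_cast
    field_simp
    ring
  rw [e]
  exact D_mul (i := 2) (j := 0) (D_p_pow (p := p) 2)
    (D_mul (i := 0) (j := 0) (D_pow_iv 3 (by omega) (by omega)) h1)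

/-- The inverse of `i + 1 - p` is integral. -/
theorem D_inv_sub {i : ℕ} (hi : i + 1 < p) : D p 0 (((i + 1 : ℚ) - p)⁻¹) := by
  have h1 := HarmA_inv_sub (p := p) (j := i + 1) (by omega) hi
  push_cast at h1
  exact h1

end Pool.Agent.Lib.MP_147bb8_ntQ
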