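import Pool.Agent.Lib.MP_147bb8_ntQ.HarmA
import Pool.Agent.Lib.MP_147bb8_ntQ.Closed

/-!
# The middle term of the first sum
-/

set_option autoImplicit false
set_option linter.unusedSectionVars false

namespace Pool.Agent.Lib.MP_147bb8_ntQ

open Finset Nat Pool.Agent.Lib.MP_4af00a_nt Pool.Agent.Lib.MP_147bb8_nt

variable {p : ℕ} [hp : Fact p.Prime]

/-- `∑_{i ≤ h} 1/(i (i - p))`. -/
def AA (p h : ℕ) : ℚ := ∑ i ∈ range h, iv (i + 1) * ((i + 1 : ℚ) - p)⁻¹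

lemma D_AA_term {h : ℕ} (hh : p = 2 * h + 1) {i : ℕ} (hi : i < h) :
    D p 0 (iv (i + 1) * ((i + 1 : ℚ) - p)⁻¹) :=
  D_mul (i := 0) (j := 0) (D_iv (by omega) (by omega)) (D_inv_sub (by omega))

lemma cast_p {h : ℕ} (hh : p = 2 * h + 1) : (2 * (h : ℚ) + 1) = p := by rw [hh]; push_cast; ring

lemma PM_E2 {h : ℕ} (hh : p = 2 * h + 1) : E2 p (PM h) (1 / 4 * AA p h) := by
  have h1 := E2_prod (p := p) h (fun i => iv (i + 1) * ((i + 1 : ℚ) - p)⁻¹ / 4) (fun i hi => by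
    have h4 : ¬ p ∣ 4 := by
      intro hd
      have hp2 := hp.out.two_le
      have := Nat.le_of_dvd (by norm_num) hd
      interval_cases p <;> omega
    have := D_div (D_AA_term hh hi) h4
    simpa using this)
  have e : ∑ i ∈ range h, iv (i + 1) * ((i + 1 : ℚ) - p)⁻¹ / 4 = 1 / 4 * AA p h := by
    unfold AA
    rw [mul_sum]
    refine sum_congr rfl fun i _ => ?_
    ring
  rw [e] at h1
  unfold PM
  rw [cast_p hh]
  exact h1

lemma PC_E2 (c : ℕ) {h : ℕ} (hh : p = 2 * h + 1) : E2 p (PC c h) (-(c * AA p h)) := by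
  have h1 := E2_prod (p := p) h (fun i => -((c : ℚ) * (iv (i + 1) * ((i + 1 : ℚ) - p)⁻¹)))
    (fun i hi => D_neg (D_mul (i := 0) (j := 0) (D_nat c) (D_AA_term hh hi)))
  have e : ∑ i ∈ range h, -((c : ℚ) * (iv (i + 1) * ((i + 1 : ℚ) - p)⁻¹)) = -(c * AA p h) := by
    unfold AA
    rw [mul_sum, ← sum_neg_distrib]
  rw [e] at h1
  unfold PC
  rw [cast_p hh]
  exact h1

lemma PS_E2 {h : ℕ} (hh : p = 2 * h + 1) : E2 p (PS h) (-Hs 2 h) := by
  have h1 := E2_prod (p := p) h (fun i => -(iv (i + 1) ^ 2))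
    (fun i hi => D_neg (D_pow_iv 2 (by omega) (by omega)))
  have e : ∑ i ∈ range h, -(iv (i + 1) ^ 2) = -Hs 2 h := by
    unfold Hs
    rw [← sum_neg_distrib]
  rw [e] at h1
  unfold PS
  rw [cast_p hh]
  exact h1

/-- The middle term modulo `p ^ 6`. -/
theorem mid_E2 {h : ℕ} (hh : p = 2 * h + 1) : ∃ X : ℚ, - G p h = 3 * (p : ℚ) ^ 2 * X ∧
    E2 p X ((3 / 4 - 24) * AA p h + 2 * Hs 2 h) := by
  have h6 : E2 p (PC 6 h) (-(6 * AA p h)) := by
    have := PC_E2 (p := p) 6 hh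
    push_cast at this
    exact this
  have h2 : E2 p (PC 2 h) (-(2 * AA p h)) := by
    have := PC_E2 (p := p) 2 hh
    push_cast at this
    exact this
  refine ⟨PM h ^ 3 * (PC 6 h * PC 2 h) ^ 3 * ((PS h) ^ 2)⁻¹, ?_, ?_⟩
  · have h1 := G_mid h
    rw [cast_p hh, ← hh] at h1
    exact h1
  · have h1 := E2_mul (E2_mul (E2_pow (PM_E2 hh) 3) (E2_pow (E2_mul h6 h2) 3))
      (E2_inv (E2_pow (PS_E2 hh) 2))
    have e : (((3 : ℕ) : ℚ) * (1 / 4 * AA p h) + ((3 : ℕ) : ℚ) * (-(6 * AA p h) + -(2 * AA p h)) +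
        -(((2 : ℕ) : ℚ) * -Hs 2 h)) = (3 / 4 - 24) * AA p h + 2 * Hs 2 h := by
      push_cast; ring
    rwa [e] at h1

end Pool.Agent.Lib.MP_147bb8_ntQ
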