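import Pool.Agent.Lib.MP_147bb8_nt.WZ

/-!
# A second expression of the partial sums
-/

set_option autoImplicit false
set_option linter.unusedSectionVars false

namespace Pool.Agent.Lib.MP_147bb8_ntQ

open Finset Nat Pool.Agent.Lib.MP_147bb8_nt

/-- `(3N)! (2N)!³ / (N!⁹ 64^N)`. -/
noncomputable def CC (N : ℕ) : ℚ := ((3 * N)! : ℚ) * ((2 * N)! : ℚ) ^ 3 / ((N ! : ℚ) ^ 9 * 64 ^ N)

/-- Ratio of consecutive terms, odd case. -/
def rO (m j : ℕ) : ℚ := ((j : ℚ) - m) * (2 * m + 3 / 2 + j) * (3 * m + 3 / 2 + j) /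
  ((2 * m + 2 + j) * (m + 3 / 2 + j) ^ 2)

/-- Ratio of consecutive terms, even case. -/
def rE (m j : ℕ) : ℚ := ((j : ℚ) - m) * (2 * m + 5 / 2 + j) * (3 * m + 7 / 2 + j) /
  ((2 * m + 3 + j) * (m + 5 / 2 + j) ^ 2)

/-- The terms, odd case. -/
noncomputable def dO (m : ℕ) : ℕ → ℚ
  | 0 => 4 * (2 * m + 1) ^ 2 * CC (2 * m + 1)
  | j + 1 => dO m j * rO m j

/-- The terms, even case. -/
noncomputable def dE (m : ℕ) : ℕ → ℚ
  | 0 => -(4 * (2 * m + 2) ^ 4 / (2 * m + 3) ^ 2 * CC (2 * m + 2))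
  | j + 1 => dE m j * rE m j

lemma CC_ne (N : ℕ) : CC N ≠ 0 := by
  unfold CC
  have h1 := fac_ne N
  have h2 := fac_ne (2 * N)
  have h3 := fac_ne (3 * N)
  positivity

lemma CC_succ (N : ℕ) : CC (N + 1) = CC N *
    (3 * (3 * N + 1) * (3 * N + 2) * (2 * N + 1) ^ 3 / (8 * (N + 1) ^ 5)) := by
  unfold CC
  rw [show 3 * (N + 1) = 3 * N + 3 by ring, show 2 * (N + 1) = 2 * N + 2 by ring,
    fac_succ3 (3 * N), fac_succ2 (2 * N), fac_succ N, pow_succ (64 : ℚ) N]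
  have h1 := fac_ne N
  have h2 := fac_ne (2 * N)
  have h3 := fac_ne (3 * N)
  have h4 : ((64 : ℚ)) ^ N ≠ 0 := by positivity
  have h5 : ((N : ℚ) + 1) ≠ 0 := by positivity
  push_cast
  field_simp
  ring

lemma F_CC (N : ℕ) : F N 0 = (-1) ^ N * (28 * (N : ℚ) ^ 2 + 18 * N + 3) * CC N := by
  unfold F B CC
  rw [if_pos (Nat.zero_le _)]
  simp only [mul_zero, add_zero, Nat.sub_zero, Nat.factorial_zero, Nat.cast_one, mul_one,
    Nat.cast_zero]
  have h1 := fac_ne N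
  have h2 := fac_ne (2 * N)
  have h4 : ((64 : ℚ)) ^ N ≠ 0 := by positivity
  field_simp

/-- The ratio of `dE m j` and `dO m j`. -/
def q1 (m j : ℕ) : ℚ := -((3 * m + 2) * (4 * m + 3) ^ 2 / (2 * (2 * m + 1) ^ 3)) *
  ((2 * m + 3 / 2 + j) * (3 * m + 3 / 2 + j) * (3 * m + 5 / 2 + j) /
    ((2 * m + 2 + j) * (m + 3 / 2 + j) ^ 2))

lemma dE_eq (m j : ℕ) : dE m j = dO m j * q1 m j := by
  induction j with
  | zero =>
    show -(4 * (2 * m + 2) ^ 4 / (2 * m + 3) ^ 2 * CC (2 * m + 2)) =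
      4 * (2 * m + 1) ^ 2 * CC (2 * m + 1) * q1 m 0
    rw [show 2 * m + 2 = (2 * m + 1) + 1 by ring, CC_succ]
    unfold q1
    generalize CC (2 * m + 1) = c
    push_cast
    have g1 : (2 * (m : ℚ) + 1) ≠ 0 := by positivity
    have g2 : (2 * (m : ℚ) + 1 + 1) ≠ 0 := by positivity
    have g3 : (2 * (m : ℚ) + 3) ≠ 0 := by positivity
    have g4 : (2 * (m : ℚ) + 2 + 0) ≠ 0 := by positivity
    have g5 : ((m : ℚ) + 3 / 2 + 0) ≠ 0 := by positivity
    field_simp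
    ring
  | succ j ih =>
    show dE m j * rE m j = dO m j * rO m j * q1 m (j + 1)
    rw [ih]
    unfold rE rO q1
    generalize dO m j = d
    push_cast
    have g1 : (2 * (m : ℚ) + 1) ≠ 0 := by positivity
    have g2 : (2 * (m : ℚ) + 2 + j) ≠ 0 := by positivity
    have g3 : (2 * (m : ℚ) + 3 + j) ≠ 0 := by positivity
    have g4 : (2 * (m : ℚ) + 2 + (j + 1)) ≠ 0 := by positivity
    have g5 : ((m : ℚ) + 3 / 2 + j) ≠ 0 := by positivity
    have g6 : ((m : ℚ) + 5 / 2 + j) ≠ 0 := by positivity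
    have g7 : ((m : ℚ) + 3 / 2 + (j + 1)) ≠ 0 := by positivity
    field_simp
    ring

/-- First certificate. -/
def x1 (m j : ℕ) : ℚ := (8 * m + 5) / (2 * m + 1) ^ 3 * j ^ 2 +
  (8 * m + 5) * (5 * m + 3) / (2 * m + 1) ^ 3 * j +
  (28 * (2 * m + 1) ^ 2 + 18 * (2 * m + 1) + 3) / (4 * (2 * m + 1) ^ 2)

lemma tele1 (m j : ℕ) : ∑ i ∈ range j, (dE m i - dO m i) = x1 m j * dO m j - x1 m 0 * dO m 0 := by
  induction j with
  | zero => simp
  | succ j ih =>
    rw [sum_range_succ, ih, dE_eq]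
    show _ = x1 m (j + 1) * (dO m j * rO m j) - _
    have key : q1 m j - 1 + x1 m j = x1 m (j + 1) * rO m j := by
      unfold q1 x1 rO
      push_cast
      have g1 : (2 * (m : ℚ) + 1) ≠ 0 := by positivity
      have g2 : (2 * (m : ℚ) + 2 + j) ≠ 0 := by positivity
      have g5 : ((m : ℚ) + 3 / 2 + j) ≠ 0 := by positivity
      field_simp
      ring
    linear_combination (dO m j) * key

lemma dO_end (m : ℕ) : dO m (m + 1) = 0 := by
  show dO m m * rO m m = 0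
  unfold rO
  simp

lemma dE_end (m : ℕ) : dE m (m + 1) = 0 := by
  show dE m m * rE m m = 0
  unfold rE
  simp

lemma step1 (m : ℕ) : ∑ j ∈ range (m + 1), dE m j - ∑ j ∈ range (m + 1), dO m j =
    F (2 * m + 1) 0 := by
  rw [← sum_sub_distrib, tele1, dO_end, F_CC]
  show x1 m (m + 1) * 0 - x1 m 0 * (4 * (2 * m + 1) ^ 2 * CC (2 * m + 1)) = _
  have e : ((-1 : ℚ)) ^ (2 * m + 1) = -1 := by rw [pow_succ, pow_mul]; norm_num
  rw [e]
  unfold x1
  generalize CC (2 * m + 1) = c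
  push_cast
  have g1 : (2 * (m : ℚ) + 1) ≠ 0 := by positivity
  field_simp
  ring

/-- The constant of the second comparison. -/
def c2 (m : ℕ) : ℚ := -(3 * (3 * m + 4) * (4 * m + 5) ^ 2 / (16 * (m + 1) ^ 3))

lemma c2_ne (m : ℕ) : c2 m ≠ 0 := by
  unfold c2
  have g1 : ((m : ℚ) + 1) ≠ 0 := by positivity
  rw [neg_ne_zero]
  positivity

lemma dO_eq (m j : ℕ) : ((m : ℚ) + 1 - j) * (2 * m + 3 + j) * dO (m + 1) j =
    c2 m * (2 * m + 5 / 2 + j) * (3 * m + 7 / 2 + j) * dE m j := by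
  induction j with
  | zero =>
    show _ * (4 * (2 * ((m + 1 : ℕ) : ℚ) + 1) ^ 2 * CC (2 * (m + 1) + 1)) =
      _ * -(4 * (2 * m + 2) ^ 4 / (2 * m + 3) ^ 2 * CC (2 * m + 2))
    rw [show 2 * (m + 1) + 1 = (2 * m + 2) + 1 by ring, CC_succ]
    unfold c2
    generalize CC (2 * m + 2) = c
    push_cast
    have g1 : ((m : ℚ) + 1) ≠ 0 := by positivity
    have g2 : (2 * (m : ℚ) + 2 + 1) ≠ 0 := by positivity
    have g3 : (2 * (m : ℚ) + 3) ≠ 0 := by positivity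
    field_simp
    ring
  | succ j ih =>
    show _ * (dO (m + 1) j * rO (m + 1) j) = _ * (dE m j * rE m j)
    unfold rO rE
    push_cast
    have g2 : (2 * ((m : ℚ) + 1) + 2 + j) ≠ 0 := by positivity
    have g3 : (2 * (m : ℚ) + 3 + j) ≠ 0 := by positivity
    have g5 : ((m : ℚ) + 1 + 3 / 2 + j) ≠ 0 := by positivity
    have g6 : ((m : ℚ) + 5 / 2 + j) ≠ 0 := by positivity
    have e1 : (m : ℚ) + 1 + 3 / 2 + j = m + 5 / 2 + j := by ring
    have e2 : 2 * ((m : ℚ) + 1) + 2 + j = 2 * m + 4 + j := by ring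
    rw [e1, e2] at *
    generalize dO (m + 1) j = d at *
    generalize dE m j = d' at *
    generalize c2 m = c at *
    have e3 : ((m : ℚ) + 1 - (j + 1)) * (2 * m + 3 + (j + 1)) * (d * ((j - (m + 1)) *
        (2 * (m + 1) + 3 / 2 + j) * (3 * (m + 1) + 3 / 2 + j) / ((2 * m + 4 + j) *
        (m + 5 / 2 + j) ^ 2))) = ((m : ℚ) + 1 - j) * (2 * m + 3 + j) * d *
        ((j - m) * (2 * m + 7 / 2 + j) * (3 * m + 9 / 2 + j) /
        ((2 * m + 3 + j) * (m + 5 / 2 + j) ^ 2)) := by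
      field_simp
      ring
    rw [e3, ih]
    field_simp
    ring

/-- Second certificate. -/
def x2 (m j : ℕ) : ℚ := (16 * m + 19) / (2 * m + 2) ^ 3 * j +
  (28 * (2 * m + 2) ^ 2 + 18 * (2 * m + 2) + 3) / (2 * (2 * m + 2) ^ 3)

/-- The second antidifference, divided by the term. -/
noncomputable def y2 (m j : ℕ) : ℚ := (m + 3 / 2 + j) ^ 2 * x2 m j * (2 * m + 3 + j) /
  (c2 m * (2 * m + 5 / 2 + j) * (3 * m + 7 / 2 + j))

lemma tele2 (m j : ℕ) : ∑ i ∈ range j, (dO (m + 1) i - dE m i) =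
    y2 m j * dO (m + 1) j - y2 m 0 * dO (m + 1) 0 := by
  induction j with
  | zero => simp
  | succ j ih =>
    have hc := c2_ne m
    have g1 : (2 * (m : ℚ) + 5 / 2 + j) ≠ 0 := by positivity
    have g2 : (3 * (m : ℚ) + 7 / 2 + j) ≠ 0 := by positivity
    have h1 : dE m j = dO (m + 1) j * (((m : ℚ) + 1 - j) * (2 * m + 3 + j) /
        (c2 m * (2 * m + 5 / 2 + j) * (3 * m + 7 / 2 + j))) := by
      have h2 := dO_eq m j
      rw [← mul_div_assoc, eq_div_iff (by positivity)]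
      linear_combination -h2
    rw [sum_range_succ, ih, h1]
    show _ = y2 m (j + 1) * (dO (m + 1) j * rO (m + 1) j) - _
    have key : 1 - ((m : ℚ) + 1 - j) * (2 * m + 3 + j) /
        (c2 m * (2 * m + 5 / 2 + j) * (3 * m + 7 / 2 + j)) + y2 m j =
        y2 m (j + 1) * rO (m + 1) j := by
      unfold y2 rO x2 c2
      push_cast
      have k1 : ((m : ℚ) + 1) ≠ 0 := by positivity
      have k2 : (2 * (m : ℚ) + 2) ≠ 0 := by positivity
      have k3 : (3 * (m : ℚ) + 4) ≠ 0 := by positivity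
      have k4 : (4 * (m : ℚ) + 5) ≠ 0 := by positivity
      have k5 : (2 * (m : ℚ) + 5 / 2 + (j + 1)) ≠ 0 := by positivity
      have k6 : (3 * (m : ℚ) + 7 / 2 + (j + 1)) ≠ 0 := by positivity
      have k7 : (2 * ((m : ℚ) + 1) + 2 + j) ≠ 0 := by positivity
      have k8 : ((m : ℚ) + 1 + 3 / 2 + j) ≠ 0 := by positivity
      field_simp
      ring
    linear_combination (dO (m + 1) j) * key

lemma step2 (m : ℕ) : ∑ j ∈ range (m + 2), dO (m + 1) j - ∑ j ∈ range (m + 1), dE m j =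
    F (2 * m + 2) 0 := by
  have h1 : ∑ j ∈ range (m + 1), dE m j = ∑ j ∈ range (m + 2), dE m j := by
    rw [show m + 2 = (m + 1) + 1 by ring, sum_range_succ _ (m + 1), dE_end, add_zero]
  rw [h1, ← sum_sub_distrib, tele2, show m + 2 = (m + 1) + 1 by ring, dO_end, F_CC]
  have hc := c2_ne m
  have h2 := dO_eq m 0
  have e : ((-1 : ℚ)) ^ (2 * m + 1 + 1) = 1 := by
    rw [show 2 * m + 1 + 1 = 2 * (m + 1) by ring, pow_mul]; norm_num
  rw [show 2 * m + 2 = 2 * m + 1 + 1 by ring, e]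
  have h3 : dE m 0 = -(4 * (2 * m + 2) ^ 4 / (2 * m + 3) ^ 2 * CC (2 * m + 1 + 1)) := rfl
  rw [h3] at h2
  unfold y2 x2
  generalize dO (m + 1) 0 = d at h2
  generalize CC (2 * m + 1 + 1) = c at h2
  generalize c2 m = w at hc h2
  push_cast at h2
  push_cast
  have k1 : ((m : ℚ) + 1) ≠ 0 := by positivity
  have k2 : (2 * (m : ℚ) + 2) ≠ 0 := by positivity
  have k3 : (2 * (m : ℚ) + 3) ≠ 0 := by positivity
  have k4 : (2 * (m : ℚ) + 5 / 2 + 0) ≠ 0 := by positivity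
  have k5 : (3 * (m : ℚ) + 7 / 2 + 0) ≠ 0 := by positivity
  have h4 : d = w * (2 * m + 5 / 2 + 0) * (3 * m + 7 / 2 + 0) *
      -(4 * (2 * m + 2) ^ 4 / (2 * m + 3) ^ 2 * c) / ((m + 1) * (2 * m + 3)) := by
    rw [eq_div_iff (by positivity)]
    linear_combination h2
  rw [h4]
  field_simp
  ring

theorem sum_dO_dE (m : ℕ) : ∑ k ∈ range (2 * m + 1), F k 0 = ∑ j ∈ range (m + 1), dO m j ∧
    ∑ k ∈ range (2 * m + 2), F k 0 = ∑ j ∈ range (m + 1), dE m j := by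
  induction m with
  | zero =>
    have h1 : ∑ k ∈ range (2 * 0 + 1), F k 0 = ∑ j ∈ range (0 + 1), dO 0 j := by
      simp only [mul_zero, zero_add, range_one, sum_singleton]
      rw [F_CC]
      show _ = 4 * (2 * ((0 : ℕ) : ℚ) + 1) ^ 2 * CC (2 * 0 + 1)
      rw [show 2 * 0 + 1 = 0 + 1 by ring, CC_succ]
      push_cast
      ring
    refine ⟨h1, ?_⟩
    rw [show 2 * 0 + 2 = (2 * 0 + 1) + 1 by ring, sum_range_succ, h1]
    linear_combination -(step1 0)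
  | succ m ih =>
    have h1 : ∑ k ∈ range (2 * (m + 1) + 1), F k 0 = ∑ j ∈ range (m + 1 + 1), dO (m + 1) j := by
      rw [show 2 * (m + 1) + 1 = (2 * m + 2) + 1 by ring, sum_range_succ, ih.2]
      linear_combination -(step2 m)
    refine ⟨h1, ?_⟩
    rw [show 2 * (m + 1) + 2 = (2 * (m + 1) + 1) + 1 by ring, sum_range_succ, h1]
    linear_combination -(step1 (m + 1))

theorem sum_dO (m : ℕ) : ∑ k ∈ range (2 * m + 1), F k 0 = ∑ j ∈ range (m + 1), dO m j :=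
  (sum_dO_dE m).1

theorem sum_dE (m : ℕ) : ∑ k ∈ range (2 * m + 2), F k 0 = ∑ j ∈ range (m + 1), dE m j :=
  (sum_dO_dE m).2

end Pool.Agent.Lib.MP_147bb8_ntQ
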