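import Pool.Agent.Lib.MP_147bb8_ntQ.Closed
import Pool.Agent.Lib.MP_147bb8_ntQ.Sears

/-!
# The main term of the second sum
-/

set_option autoImplicit false
set_option linter.unusedSectionVars false

namespace Pool.Agent.Lib.MP_147bb8_ntQ

open Pool.Agent.Lib.MP_4af00a_nt hiding F
open Finset Nat Pool.Agent.Lib.MP_147bb8_nt

/-- `∏_{i<n} (a + 1/2 + i)`. -/
def hp (a n : ℕ) : ℚ := ∏ i ∈ range n, ((a : ℚ) + 1 / 2 + i)

lemma hp_ne (a n : ℕ) : hp a n ≠ 0 := by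
  unfold hp
  rw [prod_ne_zero_iff]
  intro i _
  positivity

lemma hp_eq (a n : ℕ) : hp a n = ((2 * a + 2 * n)! : ℚ) * (a ! : ℚ) /
    (4 ^ n * ((a + n)! : ℚ) * ((2 * a)! : ℚ)) := by
  unfold hp
  induction n with
  | zero =>
    have h1 := fac_ne a
    have h2 := fac_ne (2 * a)
    simp only [range_zero, prod_empty, mul_zero, add_zero, pow_zero, one_mul]
    field_simp
  | succ n ih =>
    rw [prod_range_succ, ih, show 2 * a + 2 * (n + 1) = (2 * a + 2 * n) + 2 by ring, ← add_assoc,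
      fac_succ2 (2 * a + 2 * n), fac_succ (a + n), pow_succ]
    have h1 := fac_ne a
    have h2 := fac_ne (2 * a)
    have h3 := fac_ne (a + n)
    have h4 : ((4 : ℚ)) ^ n ≠ 0 := by positivity
    have h5 : ((a : ℚ) + n + 1) ≠ 0 := by positivity
    push_cast
    field_simp
    ring

lemma prod_neg (m : ℕ) : ∏ j ∈ range m, ((j : ℚ) - m) = (-1) ^ m * (m ! : ℚ) := by
  rw [← prod_range_reflect]
  have e : ∀ j ∈ range m, (((m - 1 - j : ℕ) : ℚ) - m) = (-1) * ((j : ℚ) + 1) := by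
    intro j hj
    have := mem_range.mp hj
    have e1 : ((m - 1 - j : ℕ) : ℚ) = (m : ℚ) - 1 - j := by
      rw [Nat.cast_sub (by omega), Nat.cast_sub (by omega)]; push_cast; ring
    rw [e1]; ring
  rw [prod_congr rfl e, prod_mul_distrib, prod_const, card_range, prod_succ_fact]

lemma prod_asc (a n : ℕ) : ∏ j ∈ range n, ((a : ℚ) + 1 + j) = ((a + n)! : ℚ) / (a ! : ℚ) := by
  induction n with
  | zero =>
    have h1 := fac_ne a
    simp only [range_zero, prod_empty, add_zero]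
    field_simp
  | succ n ih =>
    rw [prod_range_succ, ih, ← add_assoc, fac_succ (a + n)]
    have h1 := fac_ne a
    push_cast
    field_simp
    ring

lemma dO_prod (m n : ℕ) : dO m n = dO m 0 * ∏ j ∈ range n, rO m j := by
  induction n with
  | zero => simp
  | succ n ih =>
    rw [prod_range_succ, ← mul_assoc, ← ih]
    rfl

lemma dE_prod (m n : ℕ) : dE m n = dE m 0 * ∏ j ∈ range n, rE m j := by
  induction n with
  | zero => simp
  | succ n ih =>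
    rw [prod_range_succ, ← mul_assoc, ← ih]
    rfl

lemma rO_prod (m : ℕ) : ∏ j ∈ range m, rO m j = (-1) ^ m * (m ! : ℚ) * hp (2 * m + 1) m *
    hp (3 * m + 1) m * ((2 * m + 1)! : ℚ) / (((3 * m + 1)! : ℚ) * hp (m + 1) m ^ 2) := by
  have e1 : ∏ j ∈ range m, rO m j = (∏ j ∈ range m, ((j : ℚ) - m)) * hp (2 * m + 1) m *
      hp (3 * m + 1) m / ((∏ j ∈ range m, (((2 * m + 1 : ℕ) : ℚ) + 1 + j)) * hp (m + 1) m ^ 2) := by
    unfold hp
    rw [← prod_pow, ← prod_mul_distrib, ← prod_mul_distrib, ← prod_mul_distrib, ← prod_div_distrib]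
    refine prod_congr rfl fun j _ => ?_
    unfold rO
    push_cast
    rw [show 2 * (m : ℚ) + 1 + 1 / 2 + j = 2 * m + 3 / 2 + j by ring,
      show 3 * (m : ℚ) + 1 + 1 / 2 + j = 3 * m + 3 / 2 + j by ring,
      show 2 * (m : ℚ) + 1 + 1 + j = 2 * m + 2 + j by ring,
      show (m : ℚ) + 1 + 1 / 2 + j = m + 3 / 2 + j by ring]
  rw [e1, prod_neg, prod_asc, show 2 * m + 1 + m = 3 * m + 1 by ring]
  have h1 := fac_ne (2 * m + 1)
  have h2 := fac_ne (3 * m + 1)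
  have h3 := hp_ne (m + 1) m
  field_simp

lemma rE_prod (m : ℕ) : ∏ j ∈ range m, rE m j = (-1) ^ m * (m ! : ℚ) * hp (2 * m + 2) m *
    hp (3 * m + 3) m * ((2 * m + 2)! : ℚ) / (((3 * m + 2)! : ℚ) * hp (m + 2) m ^ 2) := by
  have e1 : ∏ j ∈ range m, rE m j = (∏ j ∈ range m, ((j : ℚ) - m)) * hp (2 * m + 2) m *
      hp (3 * m + 3) m / ((∏ j ∈ range m, (((2 * m + 2 : ℕ) : ℚ) + 1 + j)) * hp (m + 2) m ^ 2) := by
    unfold hp
    rw [← prod_pow, ← prod_mul_distrib, ← prod_mul_distrib, ← prod_mul_distrib, ← prod_div_distrib]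
    refine prod_congr rfl fun j _ => ?_
    unfold rE
    push_cast
    rw [show 2 * (m : ℚ) + 2 + 1 / 2 + j = 2 * m + 5 / 2 + j by ring,
      show 3 * (m : ℚ) + 3 + 1 / 2 + j = 3 * m + 7 / 2 + j by ring,
      show 2 * (m : ℚ) + 2 + 1 + j = 2 * m + 3 + j by ring,
      show (m : ℚ) + 2 + 1 / 2 + j = m + 5 / 2 + j by ring]
  rw [e1, prod_neg, prod_asc, show 2 * m + 2 + m = 3 * m + 2 by ring]
  have h1 := fac_ne (2 * m + 2)
  have h2 := fac_ne (3 * m + 2)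
  have h3 := hp_ne (m + 2) m
  field_simp

/-- `∏_{i<m} (1 - x²/(4 (i+1)²))`. -/
def PR (x : ℚ) (m : ℕ) : ℚ := ∏ i ∈ range m, (1 + x ^ 2 * (-(1 / 4 * iv (i + 1) ^ 2)))

lemma PR_gen (x : ℚ) (m : ℕ) : PR x m = (∏ i ∈ range m, ((x - 2) / 2 - i)) *
    (∏ i ∈ range m, ((x + 2) / 2 + i)) * (-1) ^ m / (m ! : ℚ) ^ 2 := by
  have h1 := fac_ne m
  rw [← prod_succ_fact m, ← prod_pow]
  have e1 : ((-1 : ℚ)) ^ m = ∏ i ∈ range m, (-1 : ℚ) := by rw [prod_const, card_range]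
  rw [e1, ← prod_mul_distrib, ← prod_mul_distrib, ← prod_div_distrib]
  unfold PR
  refine prod_congr rfl fun i _ => ?_
  unfold iv
  have h3 : ((i : ℚ) + 1) ≠ 0 := by positivity
  push_cast
  field_simp
  ring

lemma PR_O (m : ℕ) : PR (4 * m + 1) m = (-1) ^ m * hp m m * hp (2 * m + 1) m / (m ! : ℚ) ^ 2 := by
  rw [PR_gen]
  have e1 : ∏ i ∈ range m, ((4 * (m : ℚ) + 1 - 2) / 2 - i) = hp m m := by
    rw [← prod_range_reflect]
    unfold hp
    refine prod_congr rfl fun i hi => ?_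
    have := mem_range.mp hi
    have e2 : ((m - 1 - i : ℕ) : ℚ) = (m : ℚ) - 1 - i := by
      rw [Nat.cast_sub (by omega), Nat.cast_sub (by omega)]; push_cast; ring
    rw [e2]; ring
  have e2 : ∏ i ∈ range m, ((4 * (m : ℚ) + 1 + 2) / 2 + i) = hp (2 * m + 1) m := by
    unfold hp
    refine prod_congr rfl fun i _ => ?_
    push_cast
    ring
  rw [e1, e2]
  ring

lemma PR_E (m : ℕ) : PR (4 * m + 3) m =
    (-1) ^ m * hp (m + 1) m * hp (2 * m + 2) m / (m ! : ℚ) ^ 2 := by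
  rw [PR_gen]
  have e1 : ∏ i ∈ range m, ((4 * (m : ℚ) + 3 - 2) / 2 - i) = hp (m + 1) m := by
    rw [← prod_range_reflect]
    unfold hp
    refine prod_congr rfl fun i hi => ?_
    have := mem_range.mp hi
    have e2 : ((m - 1 - i : ℕ) : ℚ) = (m : ℚ) - 1 - i := by
      rw [Nat.cast_sub (by omega), Nat.cast_sub (by omega)]; push_cast; ring
    rw [e2]; push_cast; ring
  have e2 : ∏ i ∈ range m, ((4 * (m : ℚ) + 3 + 2) / 2 + i) = hp (2 * m + 2) m := by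
    unfold hp
    refine prod_congr rfl fun i _ => ?_
    push_cast
    ring
  rw [e1, e2]
  ring

/-- The main term, odd case. -/
theorem dO_main (m : ℕ) : dO m m = 3 * (4 * m + 1 : ℚ) ^ 2 *
    (PM (2 * m) * PC 2 (2 * m) * PR (4 * m + 1) m) := by
  rw [dO_prod, rO_prod, PM_eq, PC2_eq, PR_O]
  show 4 * (2 * (m : ℚ) + 1) ^ 2 * CC (2 * m + 1) * _ = _
  have e0 : ((-1 : ℚ)) ^ (2 * m) = 1 := by rw [pow_mul]; norm_num
  rw [e0, hp_eq (3 * m + 1), hp_eq (m + 1), hp_eq m m]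
  unfold CC
  have hh := hp_ne (2 * m + 1) m
  generalize hp (2 * m + 1) m = H at hh
  rw [show 3 * (2 * m + 1) = (6 * m + 2) + 1 by ring,
    show 2 * (2 * m + 1) = (4 * m) + 2 by ring,
    show 2 * (3 * m + 1) + 2 * m = (8 * m + 1) + 1 by ring,
    show 3 * m + 1 + m = (4 * m) + 1 by ring,
    show 2 * (3 * m + 1) = 6 * m + 2 by ring,
    show 2 * (m + 1) + 2 * m = (4 * m) + 2 by ring,
    show m + 1 + m = (2 * m) + 1 by ring,
    show 2 * (m + 1) = (2 * m) + 2 by ring,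
    show 2 * m + 2 * m = 4 * m by ring,
    show m + m = 2 * m by ring,
    show 2 * (2 * m) = 4 * m by ring,
    show 4 * (2 * m) + 1 = 8 * m + 1 by ring,
    fac_succ (6 * m + 2), fac_succ2 (4 * m), fac_succ (8 * m + 1), fac_succ (4 * m),
    fac_succ (2 * m), fac_succ2 (2 * m), fac_succ m]
  have h1 := fac_ne m
  have h2 := fac_ne (2 * m)
  have h3 := fac_ne (3 * m + 1)
  have h4 := fac_ne (4 * m)
  have h6 := fac_ne (6 * m + 2)
  have h8 := fac_ne (8 * m + 1)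
  have w1 : (64 : ℚ) ^ (2 * m + 1) = 64 * (4 ^ m) ^ 6 := by
    rw [pow_succ, ← pow_mul, show (64 : ℚ) = 4 ^ 3 by norm_num, ← pow_mul]
    ring
  have w2 : (16 : ℚ) ^ (2 * m) = (4 ^ m) ^ 4 := by
    rw [← pow_mul, show (16 : ℚ) = 4 ^ 2 by norm_num, ← pow_mul]
    ring
  have h9 : (4 : ℚ) ^ m ≠ 0 := by positivity
  have hs0 : ((-1 : ℚ)) ^ m ≠ 0 := pow_ne_zero _ (by norm_num)
  rw [w1, w2]
  generalize ((-1 : ℚ)) ^ m = s at hs0
  generalize (4 : ℚ) ^ m = w at h9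
  generalize (m ! : ℚ) = a1 at *
  generalize ((2 * m)! : ℚ) = a2 at *
  generalize ((3 * m + 1)! : ℚ) = a3 at *
  generalize ((4 * m)! : ℚ) = a4 at *
  generalize ((6 * m + 2)! : ℚ) = a6 at *
  generalize ((8 * m + 1)! : ℚ) = a8 at *
  push_cast
  have g1 : (2 * (m : ℚ) + 1) ≠ 0 := by positivity
  have g2 : ((m : ℚ) + 1) ≠ 0 := by positivity
  have g3 : (4 * (m : ℚ) + 1) ≠ 0 := by positivity
  have g4 : (4 * (m : ℚ) + 2) ≠ 0 := by positivity
  have g5 : (2 * (m : ℚ) + 2) ≠ 0 := by positivity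
  field_simp
  ring

/-- The main term, even case. -/
theorem dE_main (m : ℕ) : dE m m = 3 * (4 * m + 3 : ℚ) ^ 2 *
    (PM (2 * m + 1) * PC 2 (2 * m + 1) * PR (4 * m + 3) m) := by
  rw [dE_prod, rE_prod, PM_eq, PC2_eq, PR_E]
  show -(4 * (2 * (m : ℚ) + 2) ^ 4 / (2 * m + 3) ^ 2 * CC (2 * m + 2)) * _ = _
  have e0 : ((-1 : ℚ)) ^ (2 * m + 1) = -1 := by rw [pow_succ, pow_mul]; norm_num
  rw [e0, hp_eq (3 * m + 3), hp_eq (m + 2), hp_eq (m + 1) m]
  unfold CC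
  have hh := hp_ne (2 * m + 2) m
  generalize hp (2 * m + 2) m = H at hh
  rw [show 3 * (2 * m + 2) = 6 * m + 6 by ring,
    show 2 * (2 * m + 2) = (4 * m + 2) + 2 by ring,
    show 2 * (3 * m + 3) + 2 * m = (8 * m + 5) + 1 by ring,
    show 3 * m + 3 + m = (4 * m + 2) + 1 by ring,
    show 2 * (3 * m + 3) = 6 * m + 6 by ring,
    show 2 * (m + 2) + 2 * m = (4 * m + 2) + 2 by ring,
    show m + 2 + m = (2 * m + 1) + 1 by ring,
    show 2 * (m + 2) = (2 * m + 1) + 3 by ring,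
    show 2 * (m + 1) + 2 * m = 4 * m + 2 by ring,
    show m + 1 + m = 2 * m + 1 by ring,
    show 2 * (m + 1) = (2 * m + 1) + 1 by ring,
    show 2 * (2 * m + 1) = 4 * m + 2 by ring,
    show 4 * (2 * m + 1) + 1 = 8 * m + 5 by ring,
    show 2 * m + 2 = (2 * m + 1) + 1 by ring,
    show 3 * m + 3 = (3 * m + 2) + 1 by ring,
    fac_succ2 (4 * m + 2), fac_succ (8 * m + 5), fac_succ (4 * m + 2),
    fac_succ (2 * m + 1), fac_succ3 (2 * m + 1), fac_succ2 m, fac_succ m, fac_succ (3 * m + 2)]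
  have h1 := fac_ne m
  have h2 := fac_ne (2 * m + 1)
  have h3 := fac_ne (3 * m + 2)
  have h4 := fac_ne (4 * m + 2)
  have h6 := fac_ne (6 * m + 6)
  have h8 := fac_ne (8 * m + 5)
  have w1 : (64 : ℚ) ^ (2 * m + 1 + 1) = 4096 * (4 ^ m) ^ 6 := by
    rw [pow_succ, pow_succ, ← pow_mul, show (64 : ℚ) = 4 ^ 3 by norm_num, ← pow_mul]
    ring
  have w2 : (16 : ℚ) ^ (2 * m + 1) = 16 * (4 ^ m) ^ 4 := by
    rw [pow_succ, ← pow_mul, show (16 : ℚ) = 4 ^ 2 by norm_num, ← pow_mul]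
    ring
  have h9 : (4 : ℚ) ^ m ≠ 0 := by positivity
  have hs0 : ((-1 : ℚ)) ^ m ≠ 0 := pow_ne_zero _ (by norm_num)
  rw [w1, w2]
  generalize ((-1 : ℚ)) ^ m = s at hs0
  generalize (4 : ℚ) ^ m = w at h9
  generalize (m ! : ℚ) = a1 at *
  generalize ((2 * m + 1)! : ℚ) = a2 at *
  generalize ((3 * m + 2)! : ℚ) = a3 at *
  generalize ((4 * m + 2)! : ℚ) = a4 at *
  generalize ((6 * m + 6)! : ℚ) = a6 at *
  generalize ((8 * m + 5)! : ℚ) = a8 at *
  push_cast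
  have g1 : (2 * (m : ℚ) + 1) ≠ 0 := by positivity
  have g2 : ((m : ℚ) + 1) ≠ 0 := by positivity
  have g3 : (4 * (m : ℚ) + 3) ≠ 0 := by positivity
  have g4 : (2 * (m : ℚ) + 3) ≠ 0 := by positivity
  have g5 : (2 * (m : ℚ) + 2) ≠ 0 := by positivity
  have g6 : ((m : ℚ) + 2) ≠ 0 := by positivity
  field_simp
  ring

end Pool.Agent.Lib.MP_147bb8_ntQ
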