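import Pool.Agent.Lib.MP_147bb8_ntQ.Base
import Pool.Agent.Lib.MP_147bb8_nt.WZ

/-!
# The other terms of the first sum, relative to the middle term
-/

set_option autoImplicit false
set_option linter.unusedSectionVars false

namespace Pool.Agent.Lib.MP_147bb8_ntQ

open Finset Nat Pool.Agent.Lib.MP_4af00a_nt Pool.Agent.Lib.MP_147bb8_nt

/-- Ratio of consecutive terms, without denominators. -/
theorem G_succ (n k : ℕ) (hk : k < n) :
    (n + 2 * k + 2 : ℚ) * (n + 2 * k + 3) * (2 * k + 3) * G n (k + 1) =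
      -(2 * (2 * n + 2 * k + 1) ^ 2 * (n - k - 1)) * G n k := by
  obtain ⟨m, rfl⟩ : ∃ m, n = k + m + 1 := ⟨n - (k + 1), by omega⟩
  have hR := B_succ_right k m
  rw [G, G, if_pos (by omega), if_pos (by omega), hR]
  have p1 : ((-1 : ℚ)) ^ (k + m + 1 + (k + 1)) = - (-1) ^ (k + m + 1 + k) := by
    rw [← add_assoc, pow_succ]; ring
  rw [p1]
  generalize ((-1 : ℚ)) ^ (k + m + 1 + k) = s
  generalize B (k + m + 1) k = b
  have h64 : ((64 : ℚ)) ^ (k + m + 1) ≠ 0 := by positivity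
  generalize ((64 : ℚ)) ^ (k + m + 1) = w at h64
  push_cast
  have g1 : (3 * (k : ℚ) + m + 2) ≠ 0 := by positivity
  have g2 : (3 * (k : ℚ) + m + 3) ≠ 0 := by positivity
  have g3 : (2 * (k : ℚ) + 1) ≠ 0 := by positivity
  have g4 : (2 * ((k : ℚ) + 1) + 1) ≠ 0 := by positivity
  have g7 : ((k : ℚ) + m + 1 + 2 * (k + 1) + 1) ≠ 0 := by positivity
  have g8 : ((k : ℚ) + m + 1 + 2 * k + 1) ≠ 0 := by positivity
  field_simp
  ring

variable {p : ℕ} [hp : Fact p.Prime]

private lemma SideA_D {c : ℚ} {m j : ℕ} (hc : c = m * iv j) (h0 : 0 < j) (h : j < p) :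
    D p 0 c := by
  rw [hc]
  simpa using D_mul (D_nat (p := p) m) (D_iv (p := p) (j := j) h0 h)

private lemma SideA_Hs1 (j : ℕ) : Hs 1 (j + 1 + 1) = Hs 1 (j + 1) + iv (j + 2) := by
  rw [Hs_succ, pow_one]

private lemma SideA_Hs2 (j : ℕ) :
    Hs 1 (2 * (j + 1 + 1)) = Hs 1 (2 * (j + 1)) + iv (2 * j + 3) + iv (2 * j + 4) := by
  rw [show 2 * (j + 1 + 1) = 2 * (j + 1) + 1 + 1 by ring, Hs_succ, Hs_succ, pow_one, pow_one]
  rfl

/-- Downwards. Here `k = h - j`, `1 ≤ j ≤ h`. -/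
theorem side_down {h : ℕ} (hh : p = 2 * h + 1) (j : ℕ) (hj : j < h) :
    ∃ R : ℚ, G p (h - (j + 1)) = G p h * ((p : ℚ) ^ 2 / 2 * iv (j + 1) ^ 2 * R) ∧
      E p R (3 * Hs 1 (j + 1) - 3 * Hs 1 (2 * (j + 1)) + 3 / 2 * iv (j + 1)) := by
  have hhq : (p : ℚ) = 2 * h + 1 := by rw [hh]; push_cast; ring
  induction j with
  | zero =>
    have h1 := G_succ p (h - 1) (by omega)
    rw [show h - 1 + 1 = h by omega, Nat.cast_sub (by omega : 1 ≤ h)] at h1
    push_cast at h1
    have f1 : E p (1 - (p : ℚ) * 2) (-2) := E_one_sub (by simpa using D_nat (p := p) 2)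
    have f2 : E p (1 - (p : ℚ) * (3 / 2)) (-(3 / 2)) := E_one_sub
      (SideA_D (m := 3) (j := 2) (by unfold iv; norm_num) (by norm_num) (by omega))
    have f3 : E p (1 + (p : ℚ) * 1) 1 := E_one_add D_one
    have g := E_mul f1 (E_mul (E_mul (E_inv f2) (E_inv f2)) (E_inv f3))
    have e : (3 * Hs 1 (0 + 1) - 3 * Hs 1 (2 * (0 + 1)) + 3 / 2 * iv (0 + 1) : ℚ) =
        -2 + (-(-(3 / 2)) + -(-(3 / 2)) + -1) := by
      simp only [Hs, iv, Finset.sum_range_succ, Finset.sum_range_zero]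
      norm_num
    rw [← e] at g
    refine ⟨_, ?_, g⟩
    · have n1 := f2.ne_zero
      have n2 := f3.ne_zero
      have n3 : (2 - 3 * (p : ℚ)) ≠ 0 := by
        intro h0
        apply n1
        linarith
      have n4 : (1 + (p : ℚ)) ≠ 0 := by
        intro h0
        apply n2
        linarith
      have e1 : (1 - (p : ℚ) * (3 / 2))⁻¹ = 2 / (2 - 3 * (p : ℚ)) := by
        rw [inv_eq_iff_eq_inv, inv_div]; ring
      have e2 : (1 + (p : ℚ) * 1)⁻¹ = 1 / (1 + (p : ℚ)) := by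
        rw [inv_eq_iff_eq_inv, inv_div]; ring
      rw [e1, e2, show iv (0 + 1) = 1 by unfold iv; norm_num, show h - (0 + 1) = h - 1 by omega]
      have e3 : G p (h - 1) = G p h * (2 * (p : ℚ) ^ 2 * (1 - 2 * p)) /
          ((2 - 3 * (p : ℚ)) ^ 2 * (1 + (p : ℚ))) := by
        rw [eq_div_iff (by positivity)]
        have hq : (h : ℚ) = (p - 1) / 2 := by linarith
        rw [hq] at h1
        linear_combination h1
      rw [e3]
      field_simp
  | succ j ih =>
    obtain ⟨R, hR, hE⟩ := ih (by omega)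
    have h1 := G_succ p (h - (j + 2)) (by omega)
    rw [show h - (j + 2) + 1 = h - (j + 1) by omega, Nat.cast_sub (by omega : j + 2 ≤ h)] at h1
    push_cast at h1
    have f1 : E p (1 - (p : ℚ) * (2 * iv (2 * j + 3))) (-(2 * iv (2 * j + 3))) := E_one_sub
      (SideA_D (m := 2) (j := 2 * j + 3) (by norm_num) (by omega) (by omega))
    have f2 : E p (1 - (p : ℚ) * (2 * iv (2 * j + 2))) (-(2 * iv (2 * j + 2))) := E_one_sub
      (SideA_D (m := 2) (j := 2 * j + 2) (by norm_num) (by omega) (by omega))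
    have f3 : E p (1 - (p : ℚ) * iv (2 * j + 2)) (-iv (2 * j + 2)) :=
      E_one_sub (D_iv (by omega) (by omega))
    have f4 : E p (1 - (p : ℚ) * (3 * iv (2 * j + 4))) (-(3 * iv (2 * j + 4))) := E_one_sub
      (SideA_D (m := 3) (j := 2 * j + 4) (by norm_num) (by omega) (by omega))
    have f5 : E p (1 + (p : ℚ) * iv (2 * j + 3)) (iv (2 * j + 3)) :=
      E_one_add (D_iv (by omega) (by omega))
    have g := E_mul hE (E_mul (E_mul (E_mul f1 f2) f3)
      (E_mul (E_mul (E_inv f4) (E_inv f4)) (E_inv f5)))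
    have e : (3 * Hs 1 (j + 1 + 1) - 3 * Hs 1 (2 * (j + 1 + 1)) + 3 / 2 * iv (j + 1 + 1) : ℚ) =
        (3 * Hs 1 (j + 1) - 3 * Hs 1 (2 * (j + 1)) + 3 / 2 * iv (j + 1)) +
        ((-(2 * iv (2 * j + 3)) + -(2 * iv (2 * j + 2)) + -iv (2 * j + 2)) +
          (-(-(3 * iv (2 * j + 4))) + -(-(3 * iv (2 * j + 4))) + -iv (2 * j + 3))) := by
      rw [SideA_Hs1, SideA_Hs2]
      unfold iv
      push_cast
      field_simp
      ring
    rw [← e] at g
    refine ⟨_, ?_, g⟩
    · have n4 := f4.ne_zero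
      have n5 := f5.ne_zero
      have m1 : (2 * (j : ℚ) + 3) ≠ 0 := by positivity
      have m2 : (2 * (j : ℚ) + 2) ≠ 0 := by positivity
      have m4 : (2 * (j : ℚ) + 4) ≠ 0 := by positivity
      have m5 : ((j : ℚ) + 1) ≠ 0 := by positivity
      have m6 : ((j : ℚ) + 2) ≠ 0 := by positivity
      have n3 : (2 * (j : ℚ) + 4 - 3 * p) ≠ 0 := by
        intro h0
        apply n4
        unfold iv
        push_cast
        field_simp
        linarith
      have n2 : (2 * (j : ℚ) + 3 + p) ≠ 0 := by positivity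
      have e1 : (1 - (p : ℚ) * (3 * iv (2 * j + 4)))⁻¹ =
          (2 * (j : ℚ) + 4) / (2 * (j : ℚ) + 4 - 3 * p) := by
        rw [inv_eq_iff_eq_inv, inv_div]
        unfold iv
        push_cast
        field_simp
      have e2 : (1 + (p : ℚ) * iv (2 * j + 3))⁻¹ =
          (2 * (j : ℚ) + 3) / (2 * (j : ℚ) + 3 + p) := by
        rw [inv_eq_iff_eq_inv, inv_div]
        unfold iv
        push_cast
        field_simp
      have e3 : G p (h - (j + 2)) = -(G p (h - (j + 1)) * ((2 * p - 2 * (j : ℚ) - 3) *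
          (2 * p - 2 * (j : ℚ) - 2) * (p - 2 * (j : ℚ) - 2))) /
          ((2 * (j : ℚ) + 4 - 3 * p) ^ 2 * (2 * (j : ℚ) + 3 + p)) := by
        rw [eq_div_iff (by positivity)]
        have hq : (h : ℚ) = (p - 1) / 2 := by linarith
        rw [hq] at h1
        linear_combination h1
      rw [e1, e2, show h - (j + 1 + 1) = h - (j + 2) by omega, e3, hR]
      unfold iv
      push_cast
      field_simp
      ring

/-- Upwards. Here `k = h + j`, `1 ≤ j ≤ h`. -/
theorem side_up {h : ℕ} (hh : p = 2 * h + 1) (j : ℕ) (hj : j < h) :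
    ∃ R : ℚ, G p (h + (j + 1)) = G p h * (9 / 4 * (p : ℚ) ^ 2 * iv (j + 1) ^ 2 * R) ∧
      E p R (3 * Hs 1 (j + 1) - 3 * Hs 1 (2 * (j + 1)) - 3 * iv (j + 1)) := by
  have hhq : (p : ℚ) = 2 * h + 1 := by rw [hh]; push_cast; ring
  induction j with
  | zero =>
    have h1 := G_succ p h (by omega)
    have f1 : E p (1 - (p : ℚ) * 1) (-1) := E_one_sub D_one
    have f2 : E p (1 + (p : ℚ) * 2) 2 := E_one_add (by simpa using D_nat (p := p) 2)
    have f3 : E p (1 + (p : ℚ) * 1) 1 := E_one_add D_one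
    have f4 : E p (1 + (p : ℚ) * (1 / 2)) (1 / 2) := E_one_add
      (SideA_D (m := 1) (j := 2) (by unfold iv; norm_num) (by norm_num) (by omega))
    have g := E_mul f1 (E_mul (E_mul (E_inv f2) (E_inv f3)) (E_inv f4))
    have e : (3 * Hs 1 (0 + 1) - 3 * Hs 1 (2 * (0 + 1)) - 3 * iv (0 + 1) : ℚ) =
        -1 + (-2 + -1 + -(1 / 2)) := by
      simp only [Hs, iv, Finset.sum_range_succ, Finset.sum_range_zero]
      norm_num
    rw [← e] at g
    refine ⟨_, ?_, g⟩
    · have hp0 : (0 : ℚ) < p := p_pos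
      have n1 : (1 + 2 * (p : ℚ)) ≠ 0 := by positivity
      have n2 : (1 + (p : ℚ)) ≠ 0 := by positivity
      have n3 : (2 + (p : ℚ)) ≠ 0 := by positivity
      have e1 : (1 + (p : ℚ) * 2)⁻¹ = 1 / (1 + 2 * (p : ℚ)) := by
        rw [inv_eq_iff_eq_inv, inv_div]; ring
      have e2 : (1 + (p : ℚ) * 1)⁻¹ = 1 / (1 + (p : ℚ)) := by
        rw [inv_eq_iff_eq_inv, inv_div]; ring
      have e4 : (1 + (p : ℚ) * (1 / 2))⁻¹ = 2 / (2 + (p : ℚ)) := by
        rw [inv_eq_iff_eq_inv, inv_div]; ring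
      rw [e1, e2, e4, show iv (0 + 1) = 1 by unfold iv; norm_num]
      have e3 : G p (h + (0 + 1)) = G p h * (9 * (p : ℚ) ^ 2 * (1 - p)) /
          ((1 + 2 * (p : ℚ)) * (2 * (1 + (p : ℚ))) * (2 + p)) := by
        rw [eq_div_iff (by positivity)]
        have hq : (h : ℚ) = (p - 1) / 2 := by linarith
        rw [hq] at h1
        rw [zero_add]
        linear_combination h1
      rw [e3]
      field_simp
      ring
  | succ j ih =>
    obtain ⟨R, hR, hE⟩ := ih (by omega)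
    have h1 := G_succ p (h + (j + 1)) (by omega)
    push_cast at h1
    have f1 : E p (1 + (p : ℚ) * (3 * iv (2 * j + 2))) (3 * iv (2 * j + 2)) := E_one_add
      (SideA_D (m := 3) (j := 2 * j + 2) (by norm_num) (by omega) (by omega))
    have f2 : E p (1 - (p : ℚ) * iv (2 * j + 3)) (-iv (2 * j + 3)) :=
      E_one_sub (D_iv (by omega) (by omega))
    have f3 : E p (1 + (p : ℚ) * (2 * iv (2 * j + 3))) (2 * iv (2 * j + 3)) := E_one_add
      (SideA_D (m := 2) (j := 2 * j + 3) (by norm_num) (by omega) (by omega))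
    have f4 : E p (1 + (p : ℚ) * (2 * iv (2 * j + 4))) (2 * iv (2 * j + 4)) := E_one_add
      (SideA_D (m := 2) (j := 2 * j + 4) (by norm_num) (by omega) (by omega))
    have f5 : E p (1 + (p : ℚ) * iv (2 * j + 4)) (iv (2 * j + 4)) :=
      E_one_add (D_iv (by omega) (by omega))
    have g := E_mul hE (E_mul (E_mul (E_mul f1 f1) f2)
      (E_mul (E_mul (E_inv f3) (E_inv f4)) (E_inv f5)))
    have e : (3 * Hs 1 (j + 1 + 1) - 3 * Hs 1 (2 * (j + 1 + 1)) - 3 * iv (j + 1 + 1) : ℚ) =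
        (3 * Hs 1 (j + 1) - 3 * Hs 1 (2 * (j + 1)) - 3 * iv (j + 1)) +
        ((3 * iv (2 * j + 2) + 3 * iv (2 * j + 2) + -iv (2 * j + 3)) +
          (-(2 * iv (2 * j + 3)) + -(2 * iv (2 * j + 4)) + -iv (2 * j + 4))) := by
      rw [SideA_Hs1, SideA_Hs2]
      unfold iv
      push_cast
      field_simp
      ring
    rw [← e] at g
    refine ⟨_, ?_, g⟩
    · have hp0 : (0 : ℚ) < p := p_pos
      have m1 : (2 * (j : ℚ) + 3) ≠ 0 := by positivity
      have m2 : (2 * (j : ℚ) + 2) ≠ 0 := by positivity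
      have m4 : (2 * (j : ℚ) + 4) ≠ 0 := by positivity
      have m5 : ((j : ℚ) + 1) ≠ 0 := by positivity
      have m6 : ((j : ℚ) + 2) ≠ 0 := by positivity
      have n1 : (2 * (j : ℚ) + 3 + 2 * p) ≠ 0 := by positivity
      have n2 : (2 * (j : ℚ) + 4 + 2 * p) ≠ 0 := by positivity
      have n3 : (2 * (j : ℚ) + 4 + p) ≠ 0 := by positivity
      have e1 : (1 + (p : ℚ) * (2 * iv (2 * j + 3)))⁻¹ =
          (2 * (j : ℚ) + 3) / (2 * (j : ℚ) + 3 + 2 * p) := by
        rw [inv_eq_iff_eq_inv, inv_div]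
        unfold iv
        push_cast
        field_simp
      have e2 : (1 + (p : ℚ) * (2 * iv (2 * j + 4)))⁻¹ =
          (2 * (j : ℚ) + 4) / (2 * (j : ℚ) + 4 + 2 * p) := by
        rw [inv_eq_iff_eq_inv, inv_div]
        unfold iv
        push_cast
        field_simp
      have e4 : (1 + (p : ℚ) * iv (2 * j + 4))⁻¹ =
          (2 * (j : ℚ) + 4) / (2 * (j : ℚ) + 4 + p) := by
        rw [inv_eq_iff_eq_inv, inv_div]
        unfold iv
        push_cast
        field_simp
      have e3 : G p (h + (j + 1) + 1) = G p (h + (j + 1)) * ((2 * (j : ℚ) + 2 + 3 * p) ^ 2 *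
          (2 * (j : ℚ) + 3 - p)) / ((2 * (j : ℚ) + 3 + 2 * p) * (2 * (j : ℚ) + 4 + 2 * p) *
            (2 * (j : ℚ) + 4 + p)) := by
        rw [eq_div_iff (by positivity)]
        have hq : (h : ℚ) = (p - 1) / 2 := by linarith
        rw [hq] at h1
        linear_combination h1
      rw [e1, e2, e4, show h + (j + 1 + 1) = h + (j + 1) + 1 by omega, e3, hR]
      unfold iv
      push_cast
      field_simp
      ring

end Pool.Agent.Lib.MP_147bb8_ntQ
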