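import Pool.Agent.Lib.MP_147bb8_ntQ.Bern2

/-!
# A sum of alternating harmonic numbers
-/

set_option autoImplicit false
set_option linter.unusedSectionVars false

namespace Pool.Agent.Lib.MP_147bb8_ntQ

open Finset Pool.Agent.Lib.MP_4af00a_nt

variable {p : ℕ} [hp : Fact p.Prime]

/-- `H_{p-1-i} ≡ H_i` modulo `p` for `i < p`.

PROOF. Induction on `i` (`i = 0`: `H_{p-1} ≡ 0`, `H_full` of `Harm.lean`, `p - 1 = 2 h`): `H_{p-1-i} = H_{p-1-(i+1)} + 1/(p-1-i)`, and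
`iv (p-(i+1)) ≡ - iv (i+1)` (`iv_refl_D`). -/
theorem Hs_refl {h : ℕ} (hh : p = 2 * h + 1) (h3 : 3 < p) {i : ℕ} (hi : i < p) :
    D p 1 (Hs 1 (p - 1 - i) - Hs 1 i) := by
  induction i with
  | zero =>
    have h1 := D_mono (by norm_num : 1 ≤ 2) (H_full hh h3)
    have e : Hs 1 (p - 1 - 0) - Hs 1 0 = ∑ i ∈ range (2 * h), iv (i + 1) := by
      rw [Hs_zero, sub_zero, Nat.sub_zero, show p - 1 = 2 * h by omega]
      unfold Hs
      exact sum_congr rfl fun i _ => pow_one _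
    rw [e]
    exact h1
  | succ i ih =>
    have h1 := ih (by omega)
    have h2 := iv_refl_D (p := p) (j := i + 1) (by omega) hi
    have e1 : p - 1 - i = p - 1 - (i + 1) + 1 := by omega
    have e2 : p - 1 - (i + 1) + 1 = p - (i + 1) := by omega
    have e3 : Hs 1 (p - 1 - i) = Hs 1 (p - 1 - (i + 1)) + iv (p - (i + 1)) := by
      rw [e1, Hs_succ, pow_one, e2]
    have e4 : Hs 1 (i + 1) = Hs 1 i + iv (i + 1) := by rw [Hs_succ, pow_one]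
    have h4 := D_sub h1 h2
    have e5 : Hs 1 (p - 1 - i) - Hs 1 i - (iv (p - (i + 1)) + iv (i + 1))
        = Hs 1 (p - 1 - (i + 1)) - Hs 1 (i + 1) := by rw [e3, e4]; ring
    rwa [e5] at h4

/-- `∑_{0<j≤h} (H_{2j} - H_j)/j² ≡ - H_h^(3)` modulo `p`.

PROOF. Put `W = ∑_{0<m<p} H_m/m²`, `U = ∑_{0<j≤h} H_{2j}/j²`, `V = ∑_{0<j≤h} H_j/j²`, `H3 = Hs 3 h`.
(a) `m` and `p - m`, `m ≤ h` (`sum_two_mul_refl`): `H_{p-m} ≡ H_{m-1} = H_m - 1/m` (`Hs_refl` with `i = m - 1`), `1/(p-m)² ≡ 1/m²`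
(`iv_sq_refl`): `W ≡ 2 V - H3`.
(b) even `m = 2j` and odd `m = p - 2j` (`sum_two_mul` and `sum_range_reflect` for the odd ones, as in `S_half`):
`1/(2j)² = 1/(4j²)`, `H_{p-2j} ≡ H_{2j-1} = H_{2j} - 1/(2j)`: `W ≡ U/4 + (U/4 - H3/8)`.
So `U - V ≡ 2 W + H3/4 - (W + H3)/2 = (3/2) W - H3/4`. With `W ≡ B` (`W_bern`) and `B ≡ - H3/2` (`H3_bern`) this is
`≡ - H3`. (Everything is multiplied by powers of `2`, which are units: `D_of_mul_unit`.) -/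
theorem UV {h : ℕ} (hh : p = 2 * h + 1) (h3 : 3 < p) :
    D p 1 (∑ j ∈ range h, (Hs 1 (2 * (j + 1)) - Hs 1 (j + 1)) * iv (j + 1) ^ 2 + Hs 3 h) := by
  have hW := W_bern (p := p) h3
  have hB := H3_bern (p := p) hh h3
  set U := ∑ j ∈ range h, Hs 1 (2 * (j + 1)) * iv (j + 1) ^ 2 with hU
  set V := ∑ j ∈ range h, Hs 1 (j + 1) * iv (j + 1) ^ 2 with hV
  have eUV : ∑ j ∈ range h, (Hs 1 (2 * (j + 1)) - Hs 1 (j + 1)) * iv (j + 1) ^ 2 = U - V := by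
    rw [hU, hV, ← sum_sub_distrib]
    exact sum_congr rfl fun j _ => sub_mul _ _ _
  rw [eUV]
  rw [show p - 1 = 2 * h by omega] at hW
  set W := ∑ m ∈ range (2 * h), Hs 1 (m + 1) * iv (m + 1) ^ 2 with hWd
  have key : ∀ j, 0 < j → j < p →
      D p 1 (Hs 1 (p - j) * iv (p - j) ^ 2 - (Hs 1 j * iv j ^ 2 - iv j ^ 3)) := by
    intro j h0 hj
    obtain ⟨i, rfl⟩ : ∃ i, j = i + 1 := ⟨j - 1, by omega⟩
    have h1 := Hs_refl hh h3 (i := i) (by omega)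
    rw [show p - 1 - i = p - (i + 1) by omega] at h1
    have h2 := iv_sq_refl (p := p) (j := i + 1) h0 hj
    have h4 := D_mul_congr h1 h2 (D_Hs 1 (by omega)) (D_pow (D_iv (by omega) (by omega)) 2)
    have e : Hs 1 i * iv (i + 1) ^ 2 = Hs 1 (i + 1) * iv (i + 1) ^ 2 - iv (i + 1) ^ 3 := by
      rw [Hs_succ, pow_one]; ring
    rwa [e] at h4
  have a1 : D p 1 (W - (2 * V - Hs 3 h)) := by
    have e : 2 * V - Hs 3 h = ∑ j ∈ range h, (2 * (Hs 1 (j + 1) * iv (j + 1) ^ 2) - iv (j + 1) ^ 3) := by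
      rw [sum_sub_distrib, ← mul_sum, hV]
      rfl
    rw [e, hWd, sum_two_mul_refl, ← sum_sub_distrib]
    apply D_sum
    intro i hi
    have hi' := mem_range.mp hi
    have e1 : 2 * h - 1 - i + 1 = p - (i + 1) := by omega
    rw [e1]
    have h1 := key (i + 1) (by omega) (by omega)
    have e2 : Hs 1 (p - (i + 1)) * iv (p - (i + 1)) ^ 2
          - (Hs 1 (i + 1) * iv (i + 1) ^ 2 - iv (i + 1) ^ 3)
        = Hs 1 (i + 1) * iv (i + 1) ^ 2 + Hs 1 (p - (i + 1)) * iv (p - (i + 1)) ^ 2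
          - (2 * (Hs 1 (i + 1) * iv (i + 1) ^ 2) - iv (i + 1) ^ 3) := by ring
    rwa [e2] at h1
  have a2 : D p 1 (W - (1 / 2 * U - 1 / 8 * Hs 3 h)) := by
    have e : 1 / 2 * U - 1 / 8 * Hs 3 h
        = ∑ j ∈ range h, (1 / 2 * (Hs 1 (2 * (j + 1)) * iv (j + 1) ^ 2)
          - 1 / 8 * iv (j + 1) ^ 3) := by
      rw [sum_sub_distrib, ← mul_sum, ← mul_sum, hU]
      rfl
    rw [e, hWd, sum_two_mul, sum_add_distrib,
      ← sum_range_reflect (fun i => Hs 1 (2 * i + 1) * iv (2 * i + 1) ^ 2),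
      ← sum_add_distrib, ← sum_sub_distrib]
    apply D_sum
    intro i hi
    have hi' := mem_range.mp hi
    have e1 : 2 * (h - 1 - i) + 1 = p - 2 * (i + 1) := by omega
    have e2 : 2 * i + 1 + 1 = 2 * (i + 1) := by omega
    rw [e1, e2]
    have h1 := key (2 * (i + 1)) (by omega) (by omega)
    have e3 : iv (i + 1) = 2 * iv (2 * (i + 1)) := by
      unfold iv; push_cast; rw [mul_inv]; ring
    have e4 : Hs 1 (p - 2 * (i + 1)) * iv (p - 2 * (i + 1)) ^ 2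
          - (Hs 1 (2 * (i + 1)) * iv (2 * (i + 1)) ^ 2 - iv (2 * (i + 1)) ^ 3)
        = Hs 1 (p - 2 * (i + 1)) * iv (p - 2 * (i + 1)) ^ 2
          + Hs 1 (2 * (i + 1)) * iv (2 * (i + 1)) ^ 2
          - (1 / 2 * (Hs 1 (2 * (i + 1)) * iv (i + 1) ^ 2) - 1 / 8 * iv (i + 1) ^ 3) := by
      rw [e3]; ring
    rwa [e4] at h1
  -- combine
  have h8 : ¬ p ∣ 8 := by
    intro hd
    have h2 : p ∣ 2 ^ 3 := by simpa using hd
    have h4 := Nat.le_of_dvd (by norm_num) (hp.out.dvd_of_dvd_pow h2)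
    omega
  refine D_of_mul_unit h8 ?_
  have b1 := D_mul (D_nat (p := p) 4) a1
  have b2 := D_mul (D_nat (p := p) 16) a2
  have b3 := D_mul (D_nat (p := p) 12) hW
  have b4 := D_mul (D_nat (p := p) 6) hB
  rw [Nat.zero_add] at b1 b2 b3 b4
  have b5 := D_add (D_add (D_sub b1 b2) b3) b4
  have e : ((4 : ℕ) : ℚ) * (W - (2 * V - Hs 3 h)) - ((16 : ℕ) : ℚ) * (W - (1 / 2 * U - 1 / 8 * Hs 3 h))
      + ((12 : ℕ) : ℚ) * (W - bernoulli (p - 3)) + ((6 : ℕ) : ℚ) * (Hs 3 h + 2 * bernoulli (p - 3))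
      = ((8 : ℕ) : ℚ) * (U - V + Hs 3 h) := by
    push_cast; ring
  rwa [e] at b5

end Pool.Agent.Lib.MP_147bb8_ntQ
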