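import Pool.Agent.Lib.MP_147bb8_ntQ.MainA
import Pool.Agent.Lib.MP_147bb8_ntQ.SideA
import Pool.Agent.Lib.MP_147bb8_ntQ.UV

/-!
# The first congruence
-/

set_option autoImplicit false
set_option linter.unusedSectionVars false

namespace Pool.Agent.Lib.MP_147bb8_ntQ

open Pool.Agent.Lib.MP_4af00a_nt hiding F
open Finset Nat Pool.Agent.Lib.MP_147bb8_nt

lemma sum_F (n : ℕ) : ∑ k ∈ range n, F k 0 = - ∑ k ∈ range n, G n k := by
  induction n with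
  | zero => simp
  | succ n ih =>
    rw [Finset.sum_range_succ, ih]
    have h : ∑ k ∈ range (n + 1), (F n (k + 1) - F n k) =
        ∑ k ∈ range (n + 1), (G (n + 1) k - G n k) := by
      apply Finset.sum_congr rfl
      intro k hk
      rw [Finset.mem_range] at hk
      exact wz n k (by omega)
    rw [Finset.sum_range_sub, Finset.sum_sub_distrib, Finset.sum_range_succ (fun k => G n k)] at h
    have h1 : F n (n + 1) = 0 := by
      unfold F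
      rw [if_neg (by omega)]
    have h2 : G n n = 0 := by
      unfold G
      rw [if_pos le_rfl]
      simp
    rw [h1, h2] at h
    linarith

lemma sum_split (f : ℕ → ℚ) (h : ℕ) : ∑ k ∈ range (2 * h + 1), f k =
    ∑ j ∈ range h, f (h - (j + 1)) + f h + ∑ j ∈ range h, f (h + (j + 1)) := by
  rw [show 2 * h + 1 = (h + 1) + h by ring, sum_range_add, sum_range_succ]
  congr 1
  · congr 1
    rw [← sum_range_reflect]
    refine sum_congr rfl fun j _ => ?_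
    congr 1
    omega
  · refine sum_congr rfl fun j _ => ?_
    congr 1
    ring

variable {p : ℕ} [hp : Fact p.Prime]

lemma D_frac (h3 : 3 < p) (a : ℤ) (i j : ℕ) : D p 0 ((a : ℚ) / ((2 : ℚ) ^ i * 3 ^ j)) := by
  have h1 : ¬ p ∣ 2 ^ i * 3 ^ j := by
    intro hd
    rcases (hp.out.dvd_mul).mp hd with h | h
    · have := Nat.le_of_dvd (by norm_num) (hp.out.dvd_of_dvd_pow h)
      omega
    · have := Nat.le_of_dvd (by norm_num) (hp.out.dvd_of_dvd_pow h)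
      omega
  have := D_div (D_int (p := p) a) h1
  push_cast at this
  exact this

/-- The first congruence, for `p > 3`. -/
theorem partA {h : ℕ} (hh : p = 2 * h + 1) (h3 : 3 < p) :
    D p 6 (∑ k ∈ range p, F k 0 - (3 * (p : ℚ) ^ 2 - 7 / 2 * p ^ 5 * bernoulli (p - 3))) := by
  obtain ⟨X, hX, hXE⟩ := mid_E2 hh
  have hdown : ∀ j, ∃ R : ℚ, j < h → G p (h - (j + 1)) = G p h * ((p : ℚ) ^ 2 / 2 * iv (j + 1) ^ 2 * R) ∧
      E p R (3 * Hs 1 (j + 1) - 3 * Hs 1 (2 * (j + 1)) + 3 / 2 * iv (j + 1)) := by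
    intro j
    by_cases hj : j < h
    · obtain ⟨R, hR⟩ := side_down hh j hj
      exact ⟨R, fun _ => hR⟩
    · exact ⟨0, fun hj' => absurd hj' hj⟩
  have hup : ∀ j, ∃ R : ℚ, j < h → G p (h + (j + 1)) = G p h * (9 / 4 * (p : ℚ) ^ 2 * iv (j + 1) ^ 2 * R) ∧
      E p R (3 * Hs 1 (j + 1) - 3 * Hs 1 (2 * (j + 1)) - 3 * iv (j + 1)) := by
    intro j
    by_cases hj : j < h
    · obtain ⟨R, hR⟩ := side_up hh j hj
      exact ⟨R, fun _ => hR⟩
    · exact ⟨0, fun hj' => absurd hj' hj⟩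
  choose R hR using hdown
  choose R' hR' using hup
  set Y : ℚ := ∑ j ∈ range h, (1 / 2 * iv (j + 1) ^ 2 * R j + 9 / 4 * iv (j + 1) ^ 2 * R' j) with hY
  have hsum : ∑ k ∈ range p, F k 0 = 3 * (p : ℚ) ^ 2 * (X * (1 + (p : ℚ) ^ 2 * Y)) := by
    rw [sum_F]
    have e1 : ∑ k ∈ range p, G p k = ∑ k ∈ range (2 * h + 1), G p k := by rw [hh]
    rw [e1, sum_split]
    have e2 : ∑ j ∈ range h, G p (h - (j + 1)) =
        ∑ j ∈ range h, G p h * ((p : ℚ) ^ 2 / 2 * iv (j + 1) ^ 2 * R j) :=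
      sum_congr rfl fun j hj => (hR j (mem_range.mp hj)).1
    have e3 : ∑ j ∈ range h, G p (h + (j + 1)) =
        ∑ j ∈ range h, G p h * (9 / 4 * (p : ℚ) ^ 2 * iv (j + 1) ^ 2 * R' j) :=
      sum_congr rfl fun j hj => (hR' j (mem_range.mp hj)).1
    rw [e2, e3]
    have e4 : (p : ℚ) ^ 2 * Y = ∑ j ∈ range h, ((p : ℚ) ^ 2 / 2 * iv (j + 1) ^ 2 * R j) +
        ∑ j ∈ range h, (9 / 4 * (p : ℚ) ^ 2 * iv (j + 1) ^ 2 * R' j) := by
      rw [hY, mul_sum, ← sum_add_distrib]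
      refine sum_congr rfl fun j _ => ?_
      ring
    rw [← mul_sum, ← mul_sum]
    have e5 : G p h = -(3 * (p : ℚ) ^ 2 * X) := by rw [← hX]; ring
    rw [e4, e5]
    ring
  -- the sum `Y` modulo `p ^ 2`
  have i2 : D p 0 (1 / 2 : ℚ) := by have := D_frac h3 1 1 0; norm_num at this; exact this
  have i94 : D p 0 (9 / 4 : ℚ) := by have := D_frac h3 9 2 0; norm_num at this; exact this
  have hv : ∀ j < h, D p 0 (iv (j + 1) ^ 2) := fun j hj => D_pow_iv 2 (by omega) (by omega)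
  have hYe : D p 2 (Y - ∑ j ∈ range h, (1 / 2 * iv (j + 1) ^ 2 *
      (1 + p * (3 * Hs 1 (j + 1) - 3 * Hs 1 (2 * (j + 1)) + 3 / 2 * iv (j + 1))) +
      9 / 4 * iv (j + 1) ^ 2 *
      (1 + p * (3 * Hs 1 (j + 1) - 3 * Hs 1 (2 * (j + 1)) - 3 * iv (j + 1))))) := by
    rw [hY, ← sum_sub_distrib]
    refine D_sum _ _ fun j hj => ?_
    have hj' := mem_range.mp hj
    have a1 := (hR j hj').2.2
    have a2 := (hR' j hj').2.2
    have b1 : D p 2 (1 / 2 * iv (j + 1) ^ 2 * (R j - 1 -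
        p * (3 * Hs 1 (j + 1) - 3 * Hs 1 (2 * (j + 1)) + 3 / 2 * iv (j + 1)))) := by
      have := D_mul (i := 0) (D_mul (i := 0) (j := 0) i2 (hv j hj')) a1
      rwa [Nat.zero_add] at this
    have b2 : D p 2 (9 / 4 * iv (j + 1) ^ 2 * (R' j - 1 -
        p * (3 * Hs 1 (j + 1) - 3 * Hs 1 (2 * (j + 1)) - 3 * iv (j + 1)))) := by
      have := D_mul (i := 0) (D_mul (i := 0) (j := 0) i94 (hv j hj')) a2
      rwa [Nat.zero_add] at this
    have b3 := D_add b1 b2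
    have e : 1 / 2 * iv (j + 1) ^ 2 * (R j - 1 -
        p * (3 * Hs 1 (j + 1) - 3 * Hs 1 (2 * (j + 1)) + 3 / 2 * iv (j + 1))) +
        9 / 4 * iv (j + 1) ^ 2 * (R' j - 1 -
        p * (3 * Hs 1 (j + 1) - 3 * Hs 1 (2 * (j + 1)) - 3 * iv (j + 1))) =
        1 / 2 * iv (j + 1) ^ 2 * R j + 9 / 4 * iv (j + 1) ^ 2 * R' j -
        (1 / 2 * iv (j + 1) ^ 2 *
        (1 + p * (3 * Hs 1 (j + 1) - 3 * Hs 1 (2 * (j + 1)) + 3 / 2 * iv (j + 1))) +
        9 / 4 * iv (j + 1) ^ 2 *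
        (1 + p * (3 * Hs 1 (j + 1) - 3 * Hs 1 (2 * (j + 1)) - 3 * iv (j + 1)))) := by ring
    rwa [e] at b3
  set U := ∑ j ∈ range h, (Hs 1 (2 * (j + 1)) - Hs 1 (j + 1)) * iv (j + 1) ^ 2 with hU
  have hYs : ∑ j ∈ range h, (1 / 2 * iv (j + 1) ^ 2 *
      (1 + p * (3 * Hs 1 (j + 1) - 3 * Hs 1 (2 * (j + 1)) + 3 / 2 * iv (j + 1))) +
      9 / 4 * iv (j + 1) ^ 2 *
      (1 + p * (3 * Hs 1 (j + 1) - 3 * Hs 1 (2 * (j + 1)) - 3 * iv (j + 1)))) =
      11 / 4 * Hs 2 h - 33 / 4 * p * U - 6 * p * Hs 3 h := by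
    rw [hU]
    unfold Hs
    rw [mul_sum, mul_sum, mul_sum, ← sum_sub_distrib, ← sum_sub_distrib]
    refine sum_congr rfl fun j _ => ?_
    ring
  rw [hYs] at hYe
  have hUV := UV hh h3
  rw [← hU] at hUV
  have hH2 := H2_half hh h3
  have hA := A_sum hh
  have hAA : AA p h = ∑ i ∈ range h, iv (i + 1) * ((i + 1 : ℚ) - p)⁻¹ := rfl
  rw [← hAA] at hA
  have hHB := H3_bern hh h3
  have hH3 : D p 0 (Hs 3 h) := D_Hs 3 (by omega)
  have hH2i : D p 0 (Hs 2 h) := D_Hs 2 (by omega)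
  have hYi : D p 0 Y := by
    refine D_sum _ _ fun j hj => ?_
    have hj' := mem_range.mp hj
    exact D_add (D_mul (i := 0) (j := 0) (D_mul (i := 0) (j := 0) i2 (hv j hj')) (hR j hj').2.int)
      (D_mul (i := 0) (j := 0) (D_mul (i := 0) (j := 0) i94 (hv j hj')) (hR' j hj').2.int)
  -- the coefficient
  have hcoef : D p 2 ((3 / 4 - 24) * AA p h + 2 * Hs 2 h + Y - 7 / 12 * p * Hs 3 h) := by
    have i1 : D p 0 (-93 / 4 : ℚ) := by have := D_frac h3 (-93) 2 0; norm_num at this ⊢; exact this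
    have i3 : D p 0 (-33 / 4 : ℚ) := by have := D_frac h3 (-33) 2 0; norm_num at this ⊢; exact this
    have i4 : D p 0 (-37 / 2 : ℚ) := by have := D_frac h3 (-37) 1 0; norm_num at this ⊢; exact this
    have t1 := D_mul (i := 0) i1 hA
    have t2 : D p 2 ((-33 / 4 : ℚ) * (p * (U + Hs 3 h))) :=
      D_mul (i := 0) (j := 2) i3 (D_mul (i := 1) (j := 1) D_p hUV)
    have t3 := D_mul (i := 0) i4 hH2
    rw [Nat.zero_add] at t1 t3
    have t4 := D_add (D_add (D_add hYe t1) t2) t3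
    have e : Y - (11 / 4 * Hs 2 h - 33 / 4 * p * U - 6 * p * Hs 3 h) +
        (-93 / 4) * (AA p h - (Hs 2 h + p * Hs 3 h)) + (-33 / 4 : ℚ) * (p * (U + Hs 3 h)) +
        (-37 / 2) * (Hs 2 h + 7 / 6 * p * Hs 3 h) =
        (3 / 4 - 24) * AA p h + 2 * Hs 2 h + Y - 7 / 12 * p * Hs 3 h := by ring
    rwa [e] at t4
  have hE := E2_mul hXE (E2_term hYi)
  have i5 : D p 0 (7 / 12 : ℚ) := by have := D_frac h3 7 2 1; norm_num at this; exact this
  have f1 := hE.2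
  have f2 : D p 4 ((p : ℚ) ^ 2 * ((3 / 4 - 24) * AA p h + 2 * Hs 2 h + Y - 7 / 12 * p * Hs 3 h)) :=
    D_mul (i := 2) (j := 2) (D_p_pow (p := p) 2) hcoef
  have f3 : D p 4 (7 / 12 * ((p : ℚ) ^ 3 * (Hs 3 h + 2 * bernoulli (p - 3)))) :=
    D_mul (i := 0) (j := 4) i5 (D_mul (i := 3) (j := 1) (D_p_pow (p := p) 3) hHB)
  have f4 := D_add (D_add f1 f2) f3
  have i6 : D p 2 (3 * (p : ℚ) ^ 2) := by
    have := D_mul (i := 0) (j := 2) (D_nat (p := p) 3) (D_p_pow (p := p) 2)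
    simpa using this
  have f5 := D_mul (i := 2) (j := 4) i6 f4
  rw [hsum]
  have e : 3 * (p : ℚ) ^ 2 * (X * (1 + (p : ℚ) ^ 2 * Y) - 1 -
      (p : ℚ) ^ 2 * ((3 / 4 - 24) * AA p h + 2 * Hs 2 h + Y) +
      (p : ℚ) ^ 2 * ((3 / 4 - 24) * AA p h + 2 * Hs 2 h + Y - 7 / 12 * p * Hs 3 h) +
      7 / 12 * ((p : ℚ) ^ 3 * (Hs 3 h + 2 * bernoulli (p - 3)))) =
      3 * (p : ℚ) ^ 2 * (X * (1 + (p : ℚ) ^ 2 * Y)) -
      (3 * (p : ℚ) ^ 2 - 7 / 2 * p ^ 5 * bernoulli (p - 3)) := by ring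
  rw [e] at f5
  exact f5

end Pool.Agent.Lib.MP_147bb8_ntQ
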