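import Pool.Agent.Lib.MP_147bb8_ntQ.Base
import Pool.Agent.Lib.MP_147bb8_ntQ.Sears

/-!
# The side terms of the second sum
-/

set_option autoImplicit false
set_option linter.unusedSectionVars false

namespace Pool.Agent.Lib.MP_147bb8_ntQ

open Finset Pool.Agent.Lib.MP_4af00a_nt

/-- The terms of the exact identity: `(1/r²) (-m-1/2)_r r! / ((1/2)_r (-m)_r)` for `1 ≤ r ≤ m` (index `r - 1`). -/
def tt (m : ℕ) : ℕ → ℚ
  | 0 => (2 * m + 1) / m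
  | r + 1 => tt m r * (((r : ℚ) + 1) ^ 2 * (r + 1 / 2 - m) / ((r + 2) * (r + 3 / 2) * (r + 1 - m)))

/-- The ratio of `tt m r` and `tt (m + 1) r`. -/
theorem RestB_ratio (m r : ℕ) (hr : r < m) :
    tt m r = tt (m + 1) r * (((m : ℚ) + 1) * (m + 1 / 2 - r) / ((m + 3 / 2) * (m - r))) := by
  induction r with
  | zero =>
    rw [tt, tt]
    have h1 : (m : ℚ) ≠ 0 := by exact_mod_cast hr.ne'
    have h2 : (m : ℚ) + 1 ≠ 0 := by positivity
    have h3 : (m : ℚ) + 3 / 2 ≠ 0 := by positivity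
    push_cast
    rw [sub_zero, sub_zero]
    field_simp
    ring
  | succ r ih =>
    rw [tt, tt, ih (by omega)]
    obtain ⟨k, rfl⟩ : ∃ k, m = r + 2 + k := ⟨m - (r + 2), by omega⟩
    generalize tt (r + 2 + k + 1) r = x
    push_cast
    have h1 : (r : ℚ) + 2 + k + 3 / 2 ≠ 0 := by positivity
    have h2 : (r : ℚ) + 2 + k - r = k + 2 := by ring
    have h3 : (r : ℚ) + 1 - (r + 2 + k) = -(k + 1) := by ring
    have h4 : (r : ℚ) + 1 - (r + 2 + k + 1) = -(k + 2) := by ring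
    have h5 : (r : ℚ) + 2 + k - (r + 1) = k + 1 := by ring
    rw [h2, h3, h4, h5]
    have h6 : (k : ℚ) + 2 ≠ 0 := by positivity
    have h7 : (k : ℚ) + 1 ≠ 0 := by positivity
    have h8 : (r : ℚ) + 2 ≠ 0 := by positivity
    have h9 : (r : ℚ) + 3 / 2 ≠ 0 := by positivity
    field_simp
    ring

/-- The last term. -/
theorem RestB_last (m : ℕ) : tt (m + 1) m = (2 * m + 3) / (m + 1) ^ 2 := by
  induction m with
  | zero => rw [tt]; push_cast; norm_num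
  | succ m ih =>
    have h1 := RestB_ratio (m + 1) m (by omega)
    rw [ih] at h1
    have h2 : tt (m + 1 + 1) m = (2 * m + 3) / (m + 1) ^ 2 *
        ((m + 5 / 2) / ((m + 2) * (3 / 2))) := by
      rw [h1]
      push_cast
      have e1 : (m : ℚ) + 1 - m = 1 := by ring
      have e2 : (m : ℚ) + 1 + 1 / 2 - m = 3 / 2 := by ring
      rw [e1, e2]
      have e3 : (m : ℚ) + 1 + 3 / 2 ≠ 0 := by positivity
      have e4 : (m : ℚ) + 2 ≠ 0 := by positivity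
      have e5 : (m : ℚ) + 1 + 1 ≠ 0 := by positivity
      field_simp
      ring
    rw [tt, h2]
    push_cast
    have e1 : (m : ℚ) + 1 / 2 - (m + 1 + 1) = -(3 / 2) := by ring
    have e2 : (m : ℚ) + 1 - (m + 1 + 1) = -1 := by ring
    rw [e1, e2]
    have e3 : (m : ℚ) + 1 ≠ 0 := by positivity
    have e4 : (m : ℚ) + 2 ≠ 0 := by positivity
    have e5 : (m : ℚ) + 3 / 2 ≠ 0 := by positivity
    have e6 : (m : ℚ) + 1 + 1 ≠ 0 := by positivity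
    field_simp
    ring

/-- The auxiliary function for the telescoping. -/
def RestB_g (m r : ℕ) : ℚ := 2 / (m + 1) * ((r : ℚ) + 1 / 2) * (r + 1) * tt (m + 1) r

/-- The telescoping sum. -/
theorem RestB_tel (m k : ℕ) (hk : k ≤ m) : ∑ r ∈ range k, (tt (m + 1) r - tt m r) =
    -(RestB_g m k - RestB_g m 0) / (2 * m + 3) := by
  induction k with
  | zero => simp
  | succ k ih =>
    have ht : tt (m + 1) (k + 1) = tt (m + 1) k * (((k : ℚ) + 1) ^ 2 *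
        (k + 1 / 2 - (m + 1 : ℕ)) / ((k + 2) * (k + 3 / 2) * (k + 1 - (m + 1 : ℕ)))) := by
      rw [tt]
    rw [sum_range_succ, ih (by omega), RestB_ratio m k (by omega), RestB_g, RestB_g, RestB_g, ht]
    obtain ⟨l, rfl⟩ : ∃ l, m = k + 1 + l := ⟨m - (k + 1), by omega⟩
    generalize tt (k + 1 + l + 1) k = x
    generalize tt (k + 1 + l + 1) 0 = x0
    push_cast
    have h2 : (k : ℚ) + 1 + l - k = l + 1 := by ring
    have h3 : (k : ℚ) + 1 - (k + 1 + l + 1) = -(l + 1) := by ring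
    rw [h2, h3]
    have h6 : (l : ℚ) + 1 ≠ 0 := by positivity
    have h7 : (k : ℚ) + 1 + l + 1 ≠ 0 := by positivity
    have h8 : (k : ℚ) + 2 ≠ 0 := by positivity
    have h9 : (k : ℚ) + 3 / 2 ≠ 0 := by positivity
    have h10 : (k : ℚ) + 1 + l + 3 / 2 ≠ 0 := by positivity
    have h11 : 2 * ((k : ℚ) + 1 + l) + 3 ≠ 0 := by positivity
    field_simp
    ring

/-- The exact identity `∑_{r=1}^m t(m, r) = 3 H_m^(2)`. -/
theorem sum_tt (m : ℕ) : ∑ r ∈ range m, tt m r = 3 * Hs 2 m := by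
  induction m with
  | zero => simp [Hs]
  | succ m ih =>
    rw [sum_range_succ, Hs_succ, mul_add, ← ih]
    have h1 := RestB_tel m m le_rfl
    rw [sum_sub_distrib] at h1
    have h2 := RestB_last m
    have h0 : tt (m + 1) 0 = (2 * (m + 1) + 1) / (m + 1) := by
      rw [tt]; push_cast; rfl
    rw [RestB_g, RestB_g, h2, h0] at h1
    have hm : (m : ℚ) + 1 ≠ 0 := by positivity
    have hm3 : 2 * (m : ℚ) + 3 ≠ 0 := by positivity
    have h4 : ∑ r ∈ range m, tt (m + 1) r = ∑ r ∈ range m, tt m r +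
        -(2 / (m + 1) * ((m : ℚ) + 1 / 2) * (m + 1) * ((2 * m + 3) / (m + 1) ^ 2) -
          2 / (m + 1) * (((0 : ℕ) : ℚ) + 1 / 2) * (((0 : ℕ) : ℚ) + 1) *
            ((2 * (m + 1) + 1) / (m + 1))) / (2 * m + 3) := by
      linear_combination h1
    rw [h4, h2]
    unfold iv
    push_cast
    field_simp
    ring

variable {p : ℕ} [hp : Fact p.Prime]

/-- A number strictly between `p` and `2 p`. -/
theorem RestB_unit {n : ℕ} (h1 : p < n) (h2 : n < 2 * p) : ¬ p ∣ n := by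
  rintro ⟨c, rfl⟩
  have h3 : 1 < c := by
    by_contra hc
    have := Nat.mul_le_mul_left p (show c ≤ 1 by omega)
    omega
  have h4 : c < 2 := by
    by_contra hc
    have := Nat.mul_le_mul_left p (show 2 ≤ c by omega)
    omega
  omega

/-- One step, odd case. -/
theorem RestB_stepO (m r : ℕ) (hr : r < m) : dO m (m - (r + 1)) = dO m (m - r) *
    (-((3 * m + 1 - r) * (2 * m + 1 / 2 - r) ^ 2) /
      ((r + 1) * (3 * m + 1 / 2 - r) * (4 * m + 1 / 2 - r))) := by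
  obtain ⟨k, rfl⟩ : ∃ k, m = r + 1 + k := ⟨m - (r + 1), by omega⟩
  have e1 : r + 1 + k - (r + 1) = k := by omega
  have e2 : r + 1 + k - r = k + 1 := by omega
  rw [e1, e2, dO, rO, mul_assoc]
  generalize dO (r + 1 + k) k = x
  push_cast
  have h1 : (k : ℚ) - (r + 1 + k) = -(r + 1) := by ring
  have h2 : 3 * ((r : ℚ) + 1 + k) + 1 - r = 2 * r + 3 * k + 4 := by ring
  have h3 : 2 * ((r : ℚ) + 1 + k) + 1 / 2 - r = r + 2 * k + 5 / 2 := by ring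
  have h4 : 3 * ((r : ℚ) + 1 + k) + 1 / 2 - r = 2 * r + 3 * k + 7 / 2 := by ring
  have h5 : 4 * ((r : ℚ) + 1 + k) + 1 / 2 - r = 3 * r + 4 * k + 9 / 2 := by ring
  have h6 : 2 * ((r : ℚ) + 1 + k) + 3 / 2 + k = 2 * r + 3 * k + 7 / 2 := by ring
  have h7 : 3 * ((r : ℚ) + 1 + k) + 3 / 2 + k = 3 * r + 4 * k + 9 / 2 := by ring
  have h8 : 2 * ((r : ℚ) + 1 + k) + 2 + k = 2 * r + 3 * k + 4 := by ring
  have h9 : (r : ℚ) + 1 + k + 3 / 2 + k = r + 2 * k + 5 / 2 := by ring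
  rw [h1, h2, h3, h4, h5, h6, h7, h8, h9]
  have g1 : (r : ℚ) + 1 ≠ 0 := by positivity
  have g2 : 2 * (r : ℚ) + 3 * k + 4 ≠ 0 := by positivity
  have g3 : (r : ℚ) + 2 * k + 5 / 2 ≠ 0 := by positivity
  have g4 : 2 * (r : ℚ) + 3 * k + 7 / 2 ≠ 0 := by positivity
  have g5 : 3 * (r : ℚ) + 4 * k + 9 / 2 ≠ 0 := by positivity
  have g6 : -((r : ℚ) + 1) * (2 * r + 3 * k + 7 / 2) * (3 * r + 4 * k + 9 / 2) /
      ((2 * r + 3 * k + 4) * (r + 2 * k + 5 / 2) ^ 2) *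
      (-((2 * r + 3 * k + 4) * (r + 2 * k + 5 / 2) ^ 2) /
        ((r + 1) * (2 * r + 3 * k + 7 / 2) * (3 * r + 4 * k + 9 / 2))) = 1 := by
    field_simp
  rw [g6, mul_one]

/-- One step, even case. -/
theorem RestB_stepE (m r : ℕ) (hr : r < m) : dE m (m - (r + 1)) = dE m (m - r) *
    (-((3 * m + 2 - r) * (2 * m + 3 / 2 - r) ^ 2) /
      ((r + 1) * (3 * m + 3 / 2 - r) * (4 * m + 5 / 2 - r))) := by
  obtain ⟨k, rfl⟩ : ∃ k, m = r + 1 + k := ⟨m - (r + 1), by omega⟩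
  have e1 : r + 1 + k - (r + 1) = k := by omega
  have e2 : r + 1 + k - r = k + 1 := by omega
  rw [e1, e2, dE, rE, mul_assoc]
  generalize dE (r + 1 + k) k = x
  push_cast
  have h1 : (k : ℚ) - (r + 1 + k) = -(r + 1) := by ring
  have h2 : 3 * ((r : ℚ) + 1 + k) + 2 - r = 2 * r + 3 * k + 5 := by ring
  have h3 : 2 * ((r : ℚ) + 1 + k) + 3 / 2 - r = r + 2 * k + 7 / 2 := by ring
  have h4 : 3 * ((r : ℚ) + 1 + k) + 3 / 2 - r = 2 * r + 3 * k + 9 / 2 := by ring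
  have h5 : 4 * ((r : ℚ) + 1 + k) + 5 / 2 - r = 3 * r + 4 * k + 13 / 2 := by ring
  have h6 : 2 * ((r : ℚ) + 1 + k) + 5 / 2 + k = 2 * r + 3 * k + 9 / 2 := by ring
  have h7 : 3 * ((r : ℚ) + 1 + k) + 7 / 2 + k = 3 * r + 4 * k + 13 / 2 := by ring
  have h8 : 2 * ((r : ℚ) + 1 + k) + 3 + k = 2 * r + 3 * k + 5 := by ring
  have h9 : (r : ℚ) + 1 + k + 5 / 2 + k = r + 2 * k + 7 / 2 := by ring
  rw [h1, h2, h3, h4, h5, h6, h7, h8, h9]
  have g1 : (r : ℚ) + 1 ≠ 0 := by positivity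
  have g2 : 2 * (r : ℚ) + 3 * k + 5 ≠ 0 := by positivity
  have g3 : (r : ℚ) + 2 * k + 7 / 2 ≠ 0 := by positivity
  have g4 : 2 * (r : ℚ) + 3 * k + 9 / 2 ≠ 0 := by positivity
  have g5 : 3 * (r : ℚ) + 4 * k + 13 / 2 ≠ 0 := by positivity
  have g6 : -((r : ℚ) + 1) * (2 * r + 3 * k + 9 / 2) * (3 * r + 4 * k + 13 / 2) /
      ((2 * r + 3 * k + 5) * (r + 2 * k + 7 / 2) ^ 2) *
      (-((2 * r + 3 * k + 5) * (r + 2 * k + 7 / 2) ^ 2) /
        ((r + 1) * (2 * r + 3 * k + 9 / 2) * (3 * r + 4 * k + 13 / 2))) = 1 := by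
    field_simp
  rw [g6, mul_one]

/-- The induction, odd case. -/
theorem RestB_O {m : ℕ} (hm : p = 4 * m + 1) (r : ℕ) (hr : r < m) :
    ∃ y : ℚ, D p 0 y ∧ dO m (m - (r + 1)) = dO m m * ((p : ℚ) ^ 2 / 4 * y) ∧
      D p 1 (y - tt m r) := by
  have hpq : (p : ℚ) = 4 * m + 1 := by rw [hm]; push_cast; ring
  induction r with
  | zero =>
    have u1 := D_inv (p := p) (RestB_unit (p := p) (n := 6 * m + 1) (by omega) (by omega))
    have u2 := D_inv (p := p) (RestB_unit (p := p) (n := 8 * m + 1) (by omega) (by omega))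
    have u3 := D_inv_lt (p := p) (k := m) hr (by omega)
    have hm0 : (m : ℚ) ≠ 0 := by exact_mod_cast hr.ne'
    have u4 := D_int (p := p) (-(4 * (3 * (m : ℤ) + 1)))
    have u5 := D_int (p := p) (-(24 * (m : ℤ) ^ 2 + 16 * m + 1))
    push_cast at u1 u2 u4 u5
    have g1 : 6 * (m : ℚ) + 1 ≠ 0 := by positivity
    have g2 : 8 * (m : ℚ) + 1 ≠ 0 := by positivity
    have g3 : 3 * (m : ℚ) + 1 / 2 ≠ 0 := by positivity
    have g4 : 4 * (m : ℚ) + 1 / 2 ≠ 0 := by positivity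
    refine ⟨-(4 * (3 * (m : ℚ) + 1)) * ((6 * (m : ℚ) + 1)⁻¹ * (8 * (m : ℚ) + 1)⁻¹),
      D_mul (i := 0) (j := 0) u4 (D_mul (i := 0) (j := 0) u1 u2), ?_, ?_⟩
    · rw [RestB_stepO m 0 hr, Nat.sub_zero, hpq]
      push_cast
      rw [sub_zero, sub_zero, sub_zero, sub_zero, zero_add, one_mul]
      congr 1
      field_simp
      ring
    · have e : -(4 * (3 * (m : ℚ) + 1)) * ((6 * (m : ℚ) + 1)⁻¹ * (8 * (m : ℚ) + 1)⁻¹) - tt m 0 =
          p * (-(24 * (m : ℚ) ^ 2 + 16 * m + 1) * ((6 * (m : ℚ) + 1)⁻¹ *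
            ((8 * (m : ℚ) + 1)⁻¹ * (m : ℚ)⁻¹))) := by
        rw [tt, hpq]
        field_simp
        ring
      rw [e]
      exact D_mul (i := 1) (j := 0) D_p (D_mul (i := 0) (j := 0) u5
        (D_mul (i := 0) (j := 0) u1 (D_mul (i := 0) (j := 0) u2 u3)))
  | succ r ih =>
    obtain ⟨y, hy0, hy1, hy2⟩ := ih (by omega)
    rw [RestB_stepO m (r + 1) hr, hy1, tt]
    have ht0 : D p 0 (tt m r) := by
      have := D_sub hy0 (D_mono (Nat.zero_le 1) hy2)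
      rwa [sub_sub_cancel] at this
    generalize tt m r = x at hy2 ht0
    generalize dO m m = d
    obtain ⟨k, rfl⟩ : ∃ k, m = r + 2 + k := ⟨m - (r + 2), by omega⟩
    have u1 := D_inv (p := p) (RestB_unit (p := p) (n := 4 * r + 6 * k + 11) (by omega) (by omega))
    have u2 := D_inv (p := p) (RestB_unit (p := p) (n := 6 * r + 8 * k + 15) (by omega) (by omega))
    have u3 := D_inv_lt (p := p) (k := 2 * r + 3) (by omega) (by omega)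
    have u4 := D_inv_lt (p := p) (k := k + 1) (by omega) (by omega)
    have u5 := D_inv_lt (p := p) (k := r + 2) (by omega) (by omega)
    have u6 := D_int (p := p) (-((2 * (r : ℤ) + 3 * k + 6) * (2 * (r : ℤ) + 4 * k + 7) ^ 2))
    have u7 := D_int (p := p) (-24 * ((r : ℤ) + 2 + k) ^ 3 * r - 36 * ((r : ℤ) + 2 + k) ^ 3 +
      32 * ((r : ℤ) + 2 + k) ^ 2 * r ^ 2 + 78 * ((r : ℤ) + 2 + k) ^ 2 * r +
      39 * ((r : ℤ) + 2 + k) ^ 2 - 8 * ((r : ℤ) + 2 + k) * r ^ 3 -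
      36 * ((r : ℤ) + 2 + k) * r ^ 2 - 38 * ((r : ℤ) + 2 + k) * r - 11 * ((r : ℤ) + 2 + k) +
      4 * (r : ℤ) ^ 3 + 8 * (r : ℤ) ^ 2 + 5 * r + 1)
    push_cast at u1 u2 u3 u4 u5 u6 u7
    have g1 : 4 * (r : ℚ) + 6 * k + 11 ≠ 0 := by positivity
    have g2 : 6 * (r : ℚ) + 8 * k + 15 ≠ 0 := by positivity
    have g3 : 2 * (r : ℚ) + 3 ≠ 0 := by positivity
    have g4 : (k : ℚ) + 1 ≠ 0 := by positivity
    have g5 : (r : ℚ) + 2 ≠ 0 := by positivity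
    have v1 := D_mul (i := 0) (j := 0) u6 (D_mul (i := 0) (j := 0) u5
      (D_mul (i := 0) (j := 0) u1 u2))
    refine ⟨y * (-((2 * (r : ℚ) + 3 * k + 6) * (2 * (r : ℚ) + 4 * k + 7) ^ 2) *
      (((r : ℚ) + 2)⁻¹ * ((4 * (r : ℚ) + 6 * k + 11)⁻¹ * (6 * (r : ℚ) + 8 * k + 15)⁻¹))),
      D_mul (i := 0) (j := 0) hy0 v1, ?_, ?_⟩
    · have e : -((3 * ((r + 2 + k : ℕ) : ℚ) + 1 - ((r + 1 : ℕ) : ℚ)) *
          (2 * ((r + 2 + k : ℕ) : ℚ) + 1 / 2 - ((r + 1 : ℕ) : ℚ)) ^ 2) /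
          ((((r + 1 : ℕ) : ℚ) + 1) * (3 * ((r + 2 + k : ℕ) : ℚ) + 1 / 2 - ((r + 1 : ℕ) : ℚ)) *
            (4 * ((r + 2 + k : ℕ) : ℚ) + 1 / 2 - ((r + 1 : ℕ) : ℚ))) =
          -((2 * (r : ℚ) + 3 * k + 6) * (2 * (r : ℚ) + 4 * k + 7) ^ 2) *
      (((r : ℚ) + 2)⁻¹ * ((4 * (r : ℚ) + 6 * k + 11)⁻¹ * (6 * (r : ℚ) + 8 * k + 15)⁻¹)) := by
        push_cast
        have e1 : 3 * ((r : ℚ) + 2 + k) + 1 / 2 - (r + 1) = (4 * r + 6 * k + 11) / 2 := by ring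
        have e2 : 4 * ((r : ℚ) + 2 + k) + 1 / 2 - (r + 1) = (6 * r + 8 * k + 15) / 2 := by ring
        have e3 : (r : ℚ) + 1 + 1 = r + 2 := by ring
        rw [e1, e2, e3]
        field_simp
        ring
      rw [e]
      ring
    · refine D_mul_congr hy2 ?_ ht0 v1
      have e : -((2 * (r : ℚ) + 3 * k + 6) * (2 * (r : ℚ) + 4 * k + 7) ^ 2) *
          (((r : ℚ) + 2)⁻¹ * ((4 * (r : ℚ) + 6 * k + 11)⁻¹ * (6 * (r : ℚ) + 8 * k + 15)⁻¹)) -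
          ((r : ℚ) + 1) ^ 2 * (r + 1 / 2 - ((r + 2 + k : ℕ) : ℚ)) /
            ((r + 2) * (r + 3 / 2) * (r + 1 - ((r + 2 + k : ℕ) : ℚ))) =
          p * ((-24 * ((r : ℚ) + 2 + k) ^ 3 * r - 36 * ((r : ℚ) + 2 + k) ^ 3 +
      32 * ((r : ℚ) + 2 + k) ^ 2 * r ^ 2 + 78 * ((r : ℚ) + 2 + k) ^ 2 * r +
      39 * ((r : ℚ) + 2 + k) ^ 2 - 8 * ((r : ℚ) + 2 + k) * r ^ 3 -
      36 * ((r : ℚ) + 2 + k) * r ^ 2 - 38 * ((r : ℚ) + 2 + k) * r - 11 * ((r : ℚ) + 2 + k) +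
      4 * (r : ℚ) ^ 3 + 8 * (r : ℚ) ^ 2 + 5 * r + 1) *
          (((r : ℚ) + 2)⁻¹ * ((4 * (r : ℚ) + 6 * k + 11)⁻¹ * ((6 * (r : ℚ) + 8 * k + 15)⁻¹ *
            ((2 * (r : ℚ) + 3)⁻¹ * ((k : ℚ) + 1)⁻¹))))) := by
        rw [hpq]
        push_cast
        have e1 : (r : ℚ) + 1 - (r + 2 + k) = -(k + 1) := by ring
        have e2 : (r : ℚ) + 3 / 2 = (2 * r + 3) / 2 := by ring
        rw [e1, e2]
        field_simp
        ring
      rw [e]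
      exact D_mul (i := 1) (j := 0) D_p (D_mul (i := 0) (j := 0) u7
        (D_mul (i := 0) (j := 0) u5 (D_mul (i := 0) (j := 0) u1 (D_mul (i := 0) (j := 0) u2
          (D_mul (i := 0) (j := 0) u3 u4)))))

/-- The induction, even case. -/
theorem RestB_E {m : ℕ} (hm : p = 4 * m + 3) (r : ℕ) (hr : r < m) :
    ∃ y : ℚ, D p 0 y ∧ dE m (m - (r + 1)) = dE m m * ((p : ℚ) ^ 2 / 4 * y) ∧
      D p 1 (y - tt m r) := by
  have hpq : (p : ℚ) = 4 * m + 3 := by rw [hm]; push_cast; ring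
  induction r with
  | zero =>
    have u1 := D_inv (p := p) (RestB_unit (p := p) (n := 6 * m + 3) (by omega) (by omega))
    have u2 := D_inv (p := p) (RestB_unit (p := p) (n := 8 * m + 5) (by omega) (by omega))
    have u3 := D_inv_lt (p := p) (k := m) hr (by omega)
    have hm0 : (m : ℚ) ≠ 0 := by exact_mod_cast hr.ne'
    have u4 := D_int (p := p) (-(4 * (3 * (m : ℤ) + 2)))
    have u5 := D_int (p := p) (-(24 * (m : ℤ) ^ 2 + 24 * m + 5))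
    push_cast at u1 u2 u4 u5
    have g1 : 6 * (m : ℚ) + 3 ≠ 0 := by positivity
    have g2 : 8 * (m : ℚ) + 5 ≠ 0 := by positivity
    have g3 : 3 * (m : ℚ) + 3 / 2 ≠ 0 := by positivity
    have g4 : 4 * (m : ℚ) + 5 / 2 ≠ 0 := by positivity
    refine ⟨-(4 * (3 * (m : ℚ) + 2)) * ((6 * (m : ℚ) + 3)⁻¹ * (8 * (m : ℚ) + 5)⁻¹),
      D_mul (i := 0) (j := 0) u4 (D_mul (i := 0) (j := 0) u1 u2), ?_, ?_⟩
    · rw [RestB_stepE m 0 hr, Nat.sub_zero, hpq]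
      push_cast
      rw [sub_zero, sub_zero, sub_zero, sub_zero, zero_add, one_mul]
      congr 1
      field_simp
      ring
    · have e : -(4 * (3 * (m : ℚ) + 2)) * ((6 * (m : ℚ) + 3)⁻¹ * (8 * (m : ℚ) + 5)⁻¹) - tt m 0 =
          p * (-(24 * (m : ℚ) ^ 2 + 24 * m + 5) * ((6 * (m : ℚ) + 3)⁻¹ *
            ((8 * (m : ℚ) + 5)⁻¹ * (m : ℚ)⁻¹))) := by
        rw [tt, hpq]
        field_simp
        ring
      rw [e]
      exact D_mul (i := 1) (j := 0) D_p (D_mul (i := 0) (j := 0) u5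
        (D_mul (i := 0) (j := 0) u1 (D_mul (i := 0) (j := 0) u2 u3)))
  | succ r ih =>
    obtain ⟨y, hy0, hy1, hy2⟩ := ih (by omega)
    rw [RestB_stepE m (r + 1) hr, hy1, tt]
    have ht0 : D p 0 (tt m r) := by
      have := D_sub hy0 (D_mono (Nat.zero_le 1) hy2)
      rwa [sub_sub_cancel] at this
    generalize tt m r = x at hy2 ht0
    generalize dE m m = d
    obtain ⟨k, rfl⟩ : ∃ k, m = r + 2 + k := ⟨m - (r + 2), by omega⟩
    have u1 := D_inv (p := p) (RestB_unit (p := p) (n := 4 * r + 6 * k + 13) (by omega) (by omega))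
    have u2 := D_inv (p := p) (RestB_unit (p := p) (n := 6 * r + 8 * k + 19) (by omega) (by omega))
    have u3 := D_inv_lt (p := p) (k := 2 * r + 3) (by omega) (by omega)
    have u4 := D_inv_lt (p := p) (k := k + 1) (by omega) (by omega)
    have u5 := D_inv_lt (p := p) (k := r + 2) (by omega) (by omega)
    have u6 := D_int (p := p) (-((2 * (r : ℤ) + 3 * k + 7) * (2 * (r : ℤ) + 4 * k + 9) ^ 2))
    have u7 := D_int (p := p) (-24 * ((r : ℤ) + 2 + k) ^ 3 * r - 36 * ((r : ℤ) + 2 + k) ^ 3 +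
      32 * ((r : ℤ) + 2 + k) ^ 2 * r ^ 2 + 58 * ((r : ℤ) + 2 + k) ^ 2 * r +
      9 * ((r : ℤ) + 2 + k) ^ 2 - 8 * ((r : ℤ) + 2 + k) * r ^ 3 -
      12 * ((r : ℤ) + 2 + k) * r ^ 2 + 16 * ((r : ℤ) + 2 + k) * r + 14 * ((r : ℤ) + 2 + k) -
      4 * (r : ℤ) ^ 2 - 2 * r + 2)
    push_cast at u1 u2 u3 u4 u5 u6 u7
    have g1 : 4 * (r : ℚ) + 6 * k + 13 ≠ 0 := by positivity
    have g2 : 6 * (r : ℚ) + 8 * k + 19 ≠ 0 := by positivity
    have g3 : 2 * (r : ℚ) + 3 ≠ 0 := by positivity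
    have g4 : (k : ℚ) + 1 ≠ 0 := by positivity
    have g5 : (r : ℚ) + 2 ≠ 0 := by positivity
    have v1 := D_mul (i := 0) (j := 0) u6 (D_mul (i := 0) (j := 0) u5
      (D_mul (i := 0) (j := 0) u1 u2))
    refine ⟨y * (-((2 * (r : ℚ) + 3 * k + 7) * (2 * (r : ℚ) + 4 * k + 9) ^ 2) *
      (((r : ℚ) + 2)⁻¹ * ((4 * (r : ℚ) + 6 * k + 13)⁻¹ * (6 * (r : ℚ) + 8 * k + 19)⁻¹))),
      D_mul (i := 0) (j := 0) hy0 v1, ?_, ?_⟩
    · have e : -((3 * ((r + 2 + k : ℕ) : ℚ) + 2 - ((r + 1 : ℕ) : ℚ)) *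
          (2 * ((r + 2 + k : ℕ) : ℚ) + 3 / 2 - ((r + 1 : ℕ) : ℚ)) ^ 2) /
          ((((r + 1 : ℕ) : ℚ) + 1) * (3 * ((r + 2 + k : ℕ) : ℚ) + 3 / 2 - ((r + 1 : ℕ) : ℚ)) *
            (4 * ((r + 2 + k : ℕ) : ℚ) + 5 / 2 - ((r + 1 : ℕ) : ℚ))) =
          -((2 * (r : ℚ) + 3 * k + 7) * (2 * (r : ℚ) + 4 * k + 9) ^ 2) *
      (((r : ℚ) + 2)⁻¹ * ((4 * (r : ℚ) + 6 * k + 13)⁻¹ * (6 * (r : ℚ) + 8 * k + 19)⁻¹)) := by
        push_cast
        have e1 : 3 * ((r : ℚ) + 2 + k) + 3 / 2 - (r + 1) = (4 * r + 6 * k + 13) / 2 := by ring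
        have e2 : 4 * ((r : ℚ) + 2 + k) + 5 / 2 - (r + 1) = (6 * r + 8 * k + 19) / 2 := by ring
        have e3 : (r : ℚ) + 1 + 1 = r + 2 := by ring
        rw [e1, e2, e3]
        field_simp
        ring
      rw [e]
      ring
    · refine D_mul_congr hy2 ?_ ht0 v1
      have e : -((2 * (r : ℚ) + 3 * k + 7) * (2 * (r : ℚ) + 4 * k + 9) ^ 2) *
          (((r : ℚ) + 2)⁻¹ * ((4 * (r : ℚ) + 6 * k + 13)⁻¹ * (6 * (r : ℚ) + 8 * k + 19)⁻¹)) -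
          ((r : ℚ) + 1) ^ 2 * (r + 1 / 2 - ((r + 2 + k : ℕ) : ℚ)) /
            ((r + 2) * (r + 3 / 2) * (r + 1 - ((r + 2 + k : ℕ) : ℚ))) =
          p * ((-24 * ((r : ℚ) + 2 + k) ^ 3 * r - 36 * ((r : ℚ) + 2 + k) ^ 3 +
      32 * ((r : ℚ) + 2 + k) ^ 2 * r ^ 2 + 58 * ((r : ℚ) + 2 + k) ^ 2 * r +
      9 * ((r : ℚ) + 2 + k) ^ 2 - 8 * ((r : ℚ) + 2 + k) * r ^ 3 -
      12 * ((r : ℚ) + 2 + k) * r ^ 2 + 16 * ((r : ℚ) + 2 + k) * r + 14 * ((r : ℚ) + 2 + k) -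
      4 * (r : ℚ) ^ 2 - 2 * r + 2) *
          (((r : ℚ) + 2)⁻¹ * ((4 * (r : ℚ) + 6 * k + 13)⁻¹ * ((6 * (r : ℚ) + 8 * k + 19)⁻¹ *
            ((2 * (r : ℚ) + 3)⁻¹ * ((k : ℚ) + 1)⁻¹))))) := by
        rw [hpq]
        push_cast
        have e1 : (r : ℚ) + 1 - (r + 2 + k) = -(k + 1) := by ring
        have e2 : (r : ℚ) + 3 / 2 = (2 * r + 3) / 2 := by ring
        rw [e1, e2]
        field_simp
        ring
      rw [e]
      exact D_mul (i := 1) (j := 0) D_p (D_mul (i := 0) (j := 0) u7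
        (D_mul (i := 0) (j := 0) u5 (D_mul (i := 0) (j := 0) u1 (D_mul (i := 0) (j := 0) u2
          (D_mul (i := 0) (j := 0) u3 u4)))))

/-- The side terms, odd case. -/
theorem rest_O {m : ℕ} (hm : p = 4 * m + 1) (r : ℕ) (hr : r < m) :
    ∃ y : ℚ, dO m (m - (r + 1)) = dO m m * ((p : ℚ) ^ 2 / 4 * y) ∧ D p 1 (y - tt m r) := by
  obtain ⟨y, -, h1, h2⟩ := RestB_O hm r hr
  exact ⟨y, h1, h2⟩

/-- The side terms, even case. -/
theorem rest_E {m : ℕ} (hm : p = 4 * m + 3) (r : ℕ) (hr : r < m) :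
    ∃ y : ℚ, dE m (m - (r + 1)) = dE m m * ((p : ℚ) ^ 2 / 4 * y) ∧ D p 1 (y - tt m r) := by
  obtain ⟨y, -, h1, h2⟩ := RestB_E hm r hr
  exact ⟨y, h1, h2⟩

end Pool.Agent.Lib.MP_147bb8_ntQ
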