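import Pool.Agent.Lib.MP_147bb8_ntQ.MainA
import Pool.Agent.Lib.MP_147bb8_ntQ.MainB
import Pool.Agent.Lib.MP_147bb8_ntQ.RestB
import Pool.Agent.Lib.MP_147bb8_ntQ.Euler

/-!
# The second congruence
-/

set_option autoImplicit false
set_option linter.unusedSectionVars false

namespace Pool.Agent.Lib.MP_147bb8_ntQ

open Pool.Agent.Lib.MP_4af00a_nt hiding F
open Finset Nat Pool.Agent.Lib.MP_147bb8_nt

variable {p : ℕ} [hp' : Fact p.Prime]

lemma not_dvd_four {h : ℕ} (hh : p = 2 * h + 1) : ¬ p ∣ 4 := by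
  intro hd
  have hp2 := hp'.out.two_le
  have := Nat.le_of_dvd (by norm_num) hd
  interval_cases p <;> omega

lemma D_quarter {h : ℕ} (hh : p = 2 * h + 1) : D p 0 (1 / 4 : ℚ) := by
  have := D_div (D_one (p := p)) (not_dvd_four hh)
  simpa using this

lemma PR_E2 {h m : ℕ} (hh : p = 2 * h + 1) (hm : m < p) :
    E2 p (PR p m) (-(1 / 4 * Hs 2 m)) := by
  have h1 := E2_prod (p := p) m (fun i => -(1 / 4 * iv (i + 1) ^ 2))
    (fun i hi => D_neg (D_mul (i := 0) (j := 0) (D_quarter hh) (D_pow_iv 2 (by omega) (by omega))))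
  have e : ∑ i ∈ range m, -(1 / 4 * iv (i + 1) ^ 2) = -(1 / 4 * Hs 2 m) := by
    unfold Hs
    rw [mul_sum, ← sum_neg_distrib]
  rw [e] at h1
  exact h1

/-- Common part of the two cases. -/
lemma partB_aux {h m : ℕ} (hh : p = 2 * h + 1) (h3 : 3 < p) (hm : m < p) (hm2 : h / 2 = m)
    {S M : ℚ} {y : ℕ → ℚ} (hM : M = 3 * (p : ℚ) ^ 2 * (PM h * PC 2 h * PR p m))
    (hS : S = M * (1 + (p : ℚ) ^ 2 * (1 / 4 * ∑ r ∈ range m, y r)))
    (hy : ∀ r < m, D p 1 (y r - tt m r) ∧ D p 0 (y r)) :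
    D p 5 (S - (3 * (p : ℚ) ^ 2 + 6 * (-1) ^ h * p ^ 4 * eulerNumber (p - 3))) := by
  have q4 := D_quarter hh
  have h2 : E2 p (PC 2 h) (-(2 * AA p h)) := by
    have := PC_E2 (p := p) 2 hh
    push_cast at this
    exact this
  have hX := E2_mul (E2_mul (PM_E2 hh) h2) (PR_E2 hh hm)
  have hyi : D p 0 (1 / 4 * ∑ r ∈ range m, y r) :=
    D_mul (i := 0) (j := 0) q4 (D_sum _ _ fun r hr => (hy r (mem_range.mp hr)).2)
  have hE := E2_mul hX (E2_term hyi)
  have hA := A_sum hh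
  have hAA : AA p h = ∑ i ∈ range h, iv (i + 1) * ((i + 1 : ℚ) - p)⁻¹ := rfl
  rw [← hAA] at hA
  have hH : D p 1 (Hs 2 h) := S_half hh h3
  have hH3 : D p 0 (Hs 3 h) := D_Hs 3 (by omega)
  have hA1 : D p 1 (AA p h) := by
    have a1 : D p 1 (AA p h - (Hs 2 h + p * Hs 3 h)) := D_mono (by norm_num) hA
    have a2 : D p 1 ((p : ℚ) * Hs 3 h) := D_mul (i := 1) (j := 0) D_p hH3
    have a3 := D_add a1 (D_add hH a2)
    have e : AA p h - (Hs 2 h + p * Hs 3 h) + (Hs 2 h + p * Hs 3 h) = AA p h := by ring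
    rwa [e] at a3
  have hyt : D p 1 (∑ r ∈ range m, y r - 3 * Hs 2 m) := by
    rw [← sum_tt, ← sum_sub_distrib]
    exact D_sum _ _ fun r hr => (hy r (mem_range.mp hr)).1
  have hEu := euler_cong hh h3
  rw [hm2] at hEu
  have h2n : ¬ p ∣ 2 := by
    intro hd
    have := Nat.le_of_dvd (by norm_num) hd
    omega
  have q2 : D p 0 (1 / 2 : ℚ) := by
    have := D_div (D_one (p := p)) h2n
    simpa using this
  -- coefficient
  have c1 : D p 1 (-7 * (1 / 4 * AA p h)) := by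
    have a := D_mul (i := 0) (j := 1) (D_int (p := p) (-7)) (D_mul (i := 0) (j := 1) q4 hA1)
    simpa using a
  have c2' : D p 1 (1 / 4 * (∑ r ∈ range m, y r - 3 * Hs 2 m)) := by
    have a := D_mul (i := 0) (j := 1) q4 hyt
    simpa using a
  have c3 : D p 1 (1 / 2 * (Hs 2 m - 4 * (-1) ^ h * eulerNumber (p - 3))) := by
    have a := D_mul (i := 0) (j := 1) q2 hEu
    simpa using a
  have c4 : D p 3 ((p : ℚ) ^ 2 * (-7 * (1 / 4 * AA p h) + 1 / 4 * (∑ r ∈ range m, y r - 3 * Hs 2 m) +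
      1 / 2 * (Hs 2 m - 4 * (-1) ^ h * eulerNumber (p - 3)))) :=
    D_mul (i := 2) (j := 1) (D_p_pow (p := p) 2) (D_add (D_add c1 c2') c3)
  have c5 : D p 3 (PM h * PC 2 h * PR p m * (1 + (p : ℚ) ^ 2 * (1 / 4 * ∑ r ∈ range m, y r)) - 1 -
      (p : ℚ) ^ 2 * (1 / 4 * AA p h + -(2 * AA p h) + -(1 / 4 * Hs 2 m) +
        1 / 4 * ∑ r ∈ range m, y r)) := D_mono (by norm_num) hE.2
  have c6 := D_add c5 c4
  have i6 : D p 2 (3 * (p : ℚ) ^ 2) := by
    have := D_mul (i := 0) (j := 2) (D_nat (p := p) 3) (D_p_pow (p := p) 2)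
    simpa using this
  have c7 := D_mul (i := 2) (j := 3) i6 c6
  rw [hS, hM]
  have e : 3 * (p : ℚ) ^ 2 * (PM h * PC 2 h * PR p m *
      (1 + (p : ℚ) ^ 2 * (1 / 4 * ∑ r ∈ range m, y r)) - 1 -
      (p : ℚ) ^ 2 * (1 / 4 * AA p h + -(2 * AA p h) + -(1 / 4 * Hs 2 m) +
        1 / 4 * ∑ r ∈ range m, y r) +
      (p : ℚ) ^ 2 * (-7 * (1 / 4 * AA p h) + 1 / 4 * (∑ r ∈ range m, y r - 3 * Hs 2 m) +
      1 / 2 * (Hs 2 m - 4 * (-1) ^ h * eulerNumber (p - 3)))) =
      3 * (p : ℚ) ^ 2 * (PM h * PC 2 h * PR p m) *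
        (1 + (p : ℚ) ^ 2 * (1 / 4 * ∑ r ∈ range m, y r)) -
      (3 * (p : ℚ) ^ 2 + 6 * (-1) ^ h * p ^ 4 * eulerNumber (p - 3)) := by ring
  rw [e] at c7
  exact c7

/-- Sum over `range (m + 1)` from the top. -/
lemma sum_top (f : ℕ → ℚ) (m : ℕ) : ∑ j ∈ range (m + 1), f j =
    f m + ∑ r ∈ range m, f (m - (r + 1)) := by
  rw [sum_range_succ, add_comm, ← sum_range_reflect]
  congr 1
  refine sum_congr rfl fun j _ => ?_
  congr 1
  omega

lemma D_tt {m : ℕ} (hm : 2 * m < p) (r : ℕ) (hr : r < m) : D p 0 (tt m r) := by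
  have hm0 : 0 < m := by omega
  induction r with
  | zero =>
    show D p 0 ((2 * (m : ℚ) + 1) / m)
    have := D_div (D_nat (p := p) (2 * m + 1)) (not_dvd_of_lt (p := p) hm0 (by omega))
    push_cast at this
    exact this
  | succ r ih =>
    have ih' := ih (by omega)
    show D p 0 (tt m r * (((r : ℚ) + 1) ^ 2 * (r + 1 / 2 - m) / ((r + 2) * (r + 3 / 2) * (r + 1 - m))))
    have e : (((r : ℚ) + 1) ^ 2 * (r + 1 / 2 - m) / ((r + 2) * (r + 3 / 2) * (r + 1 - m))) =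
        ((((r : ℤ) + 1) ^ 2 * (2 * m - 2 * r - 1) : ℤ) : ℚ) / ((r + 2 : ℕ) : ℚ) /
        ((2 * r + 3 : ℕ) : ℚ) / ((m - (r + 1) : ℕ) : ℚ) := by
      have e1 : ((m - (r + 1) : ℕ) : ℚ) = (m : ℚ) - (r + 1) := by
        rw [Nat.cast_sub (by omega)]; push_cast; ring
      rw [e1]
      push_cast
      have g1 : ((r : ℚ) + 1 - m) ≠ 0 := by
        have : ((r + 1 : ℕ) : ℚ) < m := by exact_mod_cast hr
        push_cast at this
        intro h; linarith
      have g2 : ((m : ℚ) - (r + 1)) ≠ 0 := by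
        intro h; apply g1; linarith
      have g3 : ((r : ℚ) + 2) ≠ 0 := by positivity
      have g4 : (2 * (r : ℚ) + 3) ≠ 0 := by positivity
      have g5 : ((r : ℚ) + 3 / 2) ≠ 0 := by positivity
      field_simp
      ring
    rw [e]
    refine D_mul (i := 0) (j := 0) ih' (D_div (D_div (D_div (D_int _) ?_) ?_) ?_)
    · exact not_dvd_of_lt (by omega) (by omega)
    · exact not_dvd_of_lt (by omega) (by omega)
    · exact not_dvd_of_lt (by omega) (by omega)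

/-- The second congruence, for `p > 3`. -/
theorem partB {h : ℕ} (hh : p = 2 * h + 1) (h3 : 3 < p) :
    D p 5 (∑ k ∈ range (h + 1), F k 0 -
      (3 * (p : ℚ) ^ 2 + 6 * (-1) ^ h * p ^ 4 * eulerNumber (p - 3))) := by
  rcases Nat.even_or_odd' h with ⟨m, hm | hm⟩
  · have hpm : p = 4 * m + 1 := by omega
    have hex : ∀ r, ∃ y : ℚ, r < m → (dO m (m - (r + 1)) = dO m m * ((p : ℚ) ^ 2 / 4 * y) ∧
        D p 1 (y - tt m r)) := by
      intro r
      by_cases hr : r < m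
      · obtain ⟨y, hy⟩ := rest_O hpm r hr
        exact ⟨y, fun _ => hy⟩
      · exact ⟨0, fun h => absurd h hr⟩
    choose y hy using hex
    have hp1 : (4 * (m : ℚ) + 1) = p := by rw [hpm]; push_cast; ring
    refine partB_aux hh h3 (m := m) (by omega) (by omega) (M := dO m m) (y := y) ?_ ?_ ?_
    · rw [dO_main, hm, hp1]
    · rw [hm, sum_dO, sum_top]
      have e : ∑ r ∈ range m, dO m (m - (r + 1)) =
          ∑ r ∈ range m, dO m m * ((p : ℚ) ^ 2 / 4 * y r) :=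
        sum_congr rfl fun r hr => (hy r (mem_range.mp hr)).1
      rw [e, ← mul_sum, ← mul_sum]
      ring
    · intro r hr
      have h1 := (hy r hr).2
      refine ⟨h1, ?_⟩
      have h2 := D_add (D_mono (by norm_num : 0 ≤ 1) h1) (D_tt (p := p) (by omega) r hr)
      rwa [sub_add_cancel] at h2
  · have hpm : p = 4 * m + 3 := by omega
    have hex : ∀ r, ∃ y : ℚ, r < m → (dE m (m - (r + 1)) = dE m m * ((p : ℚ) ^ 2 / 4 * y) ∧
        D p 1 (y - tt m r)) := by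
      intro r
      by_cases hr : r < m
      · obtain ⟨y, hy⟩ := rest_E hpm r hr
        exact ⟨y, fun _ => hy⟩
      · exact ⟨0, fun h => absurd h hr⟩
    choose y hy using hex
    have hp1 : (4 * (m : ℚ) + 3) = p := by rw [hpm]; push_cast; ring
    refine partB_aux hh h3 (m := m) (by omega) (by omega) (M := dE m m) (y := y) ?_ ?_ ?_
    · rw [dE_main, hm, hp1]
    · rw [hm, show 2 * m + 1 + 1 = 2 * m + 2 by ring, sum_dE, sum_top]
      have e : ∑ r ∈ range m, dE m (m - (r + 1)) =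
          ∑ r ∈ range m, dE m m * ((p : ℚ) ^ 2 / 4 * y r) :=
        sum_congr rfl fun r hr => (hy r (mem_range.mp hr)).1
      rw [e, ← mul_sum, ← mul_sum]
      ring
    · intro r hr
      have h1 := (hy r hr).2
      refine ⟨h1, ?_⟩
      have h2 := D_add (D_mono (by norm_num : 0 ≤ 1) h1) (D_tt (p := p) (by omega) r hr)
      rwa [sub_add_cancel] at h2

end Pool.Agent.Lib.MP_147bb8_ntQ
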